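import Pool.Agent.Lib.MP_a3f657_nt.PR.Tw
import Pool.Agent.Lib.MP_a3f657_nt.C2QAvg
import Pool.Agent.Lib.MP_a3f657_nt.C2All

/-!
Every order of the 2-Selmer group has positive lower density.
-/

set_option linter.unusedSectionVars false
set_option maxHeartbeats 400000

namespace Pool.Agent.Lib.MP_a3f657_nt.Two.Vir

open Polynomial IsDedekindDomain WeierstrassCurve Bad Avg Filter

open scoped Classical

lemma bd_transl {X J : Type} {R : X → Prop} (I : Finset J) (τ : J → X → X) (D : Finset X) {c : ℝ}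
    (hc : 0 < c) (hI : c ≤ I.card) (h1 : ∀ j ∈ I, ∀ a, R a → τ j a ∈ D)
    (h2 : ∀ j ∈ I, ∀ j' ∈ I, ∀ a a', R a → R a' → τ j a = τ j' a' → j = j' ∧ a = a') :
    Bd R (D.card / c) := fun B hB => by
  have h3 := Finset.card_le_card_of_injOn (s := I ×ˢ B) (t := D) (fun x => τ x.1 x.2)
    (fun x hx => h1 _ (Finset.mem_product.1 hx).1 _ (hB _ (Finset.mem_product.1 hx).2))
    fun x hx y hy e => Prod.ext_iff.2 (h2 _ (Finset.mem_product.1 hx).1 _ (Finset.mem_product.1 hy).1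
      _ _ (hB _ (Finset.mem_product.1 hx).2) (hB _ (Finset.mem_product.1 hy).2) e)
  rw [Finset.card_product] at h3
  rw [le_div_iff₀ hc, mul_comm]
  exact (mul_le_mul_of_nonneg_right hI (Nat.cast_nonneg _)).trans (by exact_mod_cast h3)

variable {k : Type} [Field k] [Fintype k] [CharP k 2] {d : ℕ} {v : HeightOneSpectrum k[X]}

lemma card_DD (d : ℕ) : (DD k d).card = Fintype.card k ^ (16 * d + 5) := by
  rw [show 16 * d + 5 = d + 2 * d + 3 * d + 4 * d + 6 * d + 5 by ring, ← card_Box, DD,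
    ← Set.ncard_eq_toFinset_card _ (finite_degLE d)]
  rfl

lemma le_card_PL {c n : ℕ} (h : c ≤ n) : (c : ℝ) ≤ (PL k n).card := by
  rw [card_PL]
  exact_mod_cast h.trans (Nat.lt_pow_self Fintype.one_lt_card).le

lemma deg_add {p z : k[X]} {m n : ℕ} (hp : p.natDegree ≤ m) (hz : z ∈ PL k n) (h : n ≤ m) :
    (p + z).natDegree ≤ m := natDegree_add_le_of_degree_le hp (by
  rcases mem_PL_iff.1 hz with rfl | h1
  exacts [by simp, by omega])

lemma PL_eq {z z' : k[X]} (hz : z ∈ PL k (gen v).natDegree) (hz' : z' ∈ PL k (gen v).natDegree)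
    (h : gen v ∣ z - z') : z = z' := by
  rw [mem_PL, ← degree_eq_natDegree (gen_ne v)] at hz hz'
  exact Exc.MB.eq_of_dvd h hz hz'

lemma bd_one {c : ℕ} (h0 : 0 < c) (hc : c ≤ (gen v).natDegree) (hd : (gen v).natDegree ≤ d) :
    Bd (fun a : WeierstrassCurve k[X] => DegLE a d ∧ gen v ∣ a.a₁) ((DD k d).card / c) := by
  refine bd_transl (PL k (gen v).natDegree) (fun z a => ⟨a.a₁ + z, a.a₂, a.a₃, a.a₄, a.a₆⟩) _
    (by positivity) (le_card_PL hc) (fun z hz a h => mem_DD.2 ⟨deg_add h.1.1 hz hd, h.1.2⟩)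
    fun z hz z' hz' a a' h h' e => ?_
  simp only [WeierstrassCurve.mk.injEq] at e
  obtain rfl := PL_eq hz hz' (by
    rw [show z - z' = a'.a₁ - a.a₁ by linear_combination e.1]; exact dvd_sub h'.2 h.2)
  exact ⟨rfl, WeierstrassCurve.ext (add_right_cancel e.1) e.2.1 e.2.2.1 e.2.2.2.1 e.2.2.2.2⟩

lemma bd_two {c : ℕ} (h0 : 0 < c) (hc : c ≤ (gen v).natDegree) (hd : (gen v).natDegree ≤ d) :
    Bd (fun a : WeierstrassCurve k[X] => DegLE a d ∧ ¬ gen v ∣ a.a₁ ∧ gen v ∣ a.Δ)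
      ((DD k d).card / c) := by
  refine bd_transl (PL k (gen v).natDegree) (fun z a => ⟨a.a₁, a.a₂, a.a₃, a.a₄, a.a₆ + z⟩) _
    (by positivity) (le_card_PL hc) (fun z hz a h => mem_DD.2 ⟨h.1.1, h.1.2.1, h.1.2.2.1,
      h.1.2.2.2.1, deg_add h.1.2.2.2.2 hz (by omega)⟩) fun z hz z' hz' a a' h h' e => ?_
  simp only [WeierstrassCurve.mk.injEq] at e
  obtain ⟨e1, e2, e3, e4, e6⟩ := e
  have h1 : gen v ∣ a.a₁ ^ 6 * (z - z') := by
    rw [show a.a₁ ^ 6 * (z - z') = a'.Δ - a.Δ by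
      rw [disc, disc, ← e1, ← e2, ← e3, ← e4]; linear_combination a.a₁ ^ 6 * e6]
    exact dvd_sub h'.2.2 h.2.2
  obtain rfl := PL_eq hz hz' (((gen_prime v).dvd_or_dvd h1).resolve_left
    fun e => h.2.1 ((gen_prime v).dvd_of_dvd_pow e))
  exact ⟨rfl, WeierstrassCurve.ext e1 e2 e3 e4 (add_right_cancel e6)⟩

lemma add_PW {K : Type} [Field K] [CharP K 2] {L : PreLoc K} {x y : K} (hx : x ∈ Fil L.w 0)
    (hy : y ∈ Fil L.w 0) (hx' : x ∉ L.PW) (hy' : y ∉ L.PW) : x + y ∈ L.PW := by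
  rw [← L.tau_eq_zero hx] at hx'
  rw [← L.tau_eq_zero hy] at hy'
  rw [← L.tau_eq_zero (add_mem hx hy), map_add, (z2_cases _).resolve_left hx',
    (z2_cases _).resolve_left hy', z2_add_self]

lemma exists_shift {L : ℕ} {w : Fin L → HeightOneSpectrum k[X]} (hw : Function.Injective w)
    (j : Fin L) (a₁ : k[X]) : ∃ z ∈ PL k (∏ j, gen (w j)).natDegree, (∀ i, ¬ gen (w i) ∣ a₁) →
      ι z / ι (a₁ ^ 2) ∉ (pl (some (w j))).PW ∧
      ∀ i, i ≠ j → ι z / ι (a₁ ^ 2) ∈ (pl (some (w i))).PW := by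
  have hM : ¬ gen (w j) ∣ ∏ i ∈ Finset.univ.erase j, gen (w i) := fun e => by
    obtain ⟨i, h1, h2⟩ := (gen_prime _).exists_mem_finset_dvd e
    exact Finset.ne_of_mem_erase h1 (hw (gen_dvd_gen h2)).symm
  have h0 : ∏ i ∈ Finset.univ.erase j, gen (w i) ≠ 0 := fun e => hM (e ▸ dvd_zero _)
  have hi : ∀ i, i ≠ j → gen (w i) ∣ ∏ i ∈ Finset.univ.erase j, gen (w i) := fun i h =>
    Finset.dvd_prod_of_mem _ (by simp [h])
  rw [← Finset.mul_prod_erase _ _ (Finset.mem_univ j)]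
  generalize ∏ i ∈ Finset.univ.erase j, gen (w i) = M at hM h0 hi
  obtain ⟨y, h1, h2⟩ := (pl (some (w j))).tau_ne
  obtain ⟨g, h3, h4⟩ := exists_rep (w j) (Fil.mul h1 (div_int (a₁ ^ 2) hM) le_rfl)
  refine ⟨g * M, mem_PL.2 ?_, fun h5 => ?_⟩
  · rw [← degree_eq_natDegree (mul_ne_zero (gen_ne _) h0), degree_mul, degree_mul]
    exact WithBot.add_lt_add_right (degree_ne_bot.2 h0) h3
  have h6 := fun i e => h5 i ((gen_prime (w i)).dvd_of_dvd_pow (n := 2) e)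
  have h7 : ι (a₁ ^ 2) ≠ 0 := ι_ne fun e => h6 j (e ▸ dvd_zero _)
  refine ⟨fun h8 => h2 ?_, fun i h8 => (pl _).Fil_le_PW (Fil.div
    (ι_mem_one.2 ((hi i h8).mul_left g)) (by rw [pl_w, ord_ι_unit (h6 i)]; rfl))⟩
  have h9 := Fil.mul h4 (div_int M (h6 j)) le_rfl
  rw [show (y * (ι (a₁ ^ 2) / ι M) + ι g) * (ι M / ι (a₁ ^ 2)) = y + ι (g * M) / ι (a₁ ^ 2) by
    have := ι_ne h0
    simp only [ι, map_mul] at *
    field_simp] at h9
  rw [(pl _).tau_congr h9, (pl _).tau_PW h8]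

lemma bd_three {L : ℕ} (h0 : 0 < L) {w : Fin L → HeightOneSpectrum k[X]}
    (hw : Function.Injective w) (hd : (∏ j, gen (w j)).natDegree ≤ d) :
    Bd (fun a : WeierstrassCurve k[X] => DegLE a d ∧
      ∀ j, ¬ gen (w j) ∣ a.a₁ ∧ nA (bc a) ∉ (pl (some (w j))).PW) ((DD k d).card / L) := by
  choose z h1 h2 using exists_shift hw
  have key : ∀ (a : WeierstrassCurve k[X]) (y : k[X]), a.a₁ ≠ 0 →
      nA (bc ⟨a.a₁, a.a₂ + y, a.a₃, a.a₄, a.a₆⟩) = nA (bc a) + ι y / ι (a.a₁ ^ 2) := fun a y h => by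
    have := ι_ne h
    simp only [nA_bc, ι, map_add, map_mul, map_pow] at this ⊢
    field_simp
    ring
  refine bd_transl Finset.univ (fun j a => ⟨a.a₁, a.a₂ + z j a.a₁, a.a₃, a.a₄, a.a₆⟩) _
    (by positivity) (by simp) (fun j _ a h => mem_DD.2 ⟨h.1.1,
      deg_add h.1.2.1 (h1 _ _) (by omega), h.1.2.2⟩) fun j _ j' _ a a' h h' e => ?_
  have e0 := congrArg (fun a => nA (bc a)) e
  simp only [WeierstrassCurve.mk.injEq] at e
  obtain ⟨e1, e2, e3, e4, e6⟩ := e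
  have h3 : a.a₁ ≠ 0 := fun e => (h.2 j).1 (e ▸ dvd_zero _)
  simp only [key a _ h3, key a' _ (e1 ▸ h3)] at e0
  obtain rfl : j = j' := by
    by_contra hn
    have h4 := add_PW (nA_int (h.2 j).1) (div_int _ fun e => (h.2 j).1
      ((gen_prime _).dvd_of_dvd_pow e)) (h.2 j).2 (h2 j _ fun i => (h.2 i).1).1
    rw [e0] at h4
    exact (h'.2 j).2 (by
      simpa [add_assoc, two_K] using add_mem h4 ((h2 j' _ fun i => (h'.2 i).1).2 j hn))
  exact ⟨rfl, WeierstrassCurve.ext e1 (add_right_cancel (e2.trans (by rw [e1]))) e3 e4 e6⟩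

variable {r L T β c : ℕ} {u : Fin r × Fin L → HeightOneSpectrum k[X]}

lemma bd_bad (hL : 0 < L) (h0 : 0 < c) (hu : Function.Injective u)
    (hc : ∀ x, c ≤ (gen (u x)).natDegree) (hd : (∏ x, gen (u x)).natDegree ≤ d) :
    ({a : WeierstrassCurve k[X] | DegLE a d ∧ a.Δ ≠ 0 ∧ ¬ Good T u (bc a)}.ncard : ℝ) ≤
      {a : WeierstrassCurve k[X] | DegLE a d ∧ ¬ (GoodT T β d a ∧ GoodN T a ∧ GoodQ T a)}.ncard +
        (r * L * (2 * ((DD k d).card / c)) + r * ((DD k d).card / L)) := by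
  have hN : ∏ x, gen (u x) ≠ 0 := Finset.prod_ne_zero_iff.2 fun _ _ => gen_ne _
  have h1 : ∀ x, (gen (u x)).natDegree ≤ d := fun x => (natDegree_le_of_dvd
    (Finset.dvd_prod_of_mem (fun x => gen (u x)) (Finset.mem_univ x)) hN).trans hd
  have h2 : ∀ i, (∏ j, gen (u (i, j))).natDegree ≤ d := fun i => (natDegree_le_of_dvd (by
    rw [Fintype.prod_prod_type]
    exact Finset.dvd_prod_of_mem (fun i => ∏ j, gen (u (i, j))) (Finset.mem_univ i)) hN).trans hd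
  have h3 : Bd (fun a : WeierstrassCurve k[X] =>
      DegLE a d ∧ ¬ (GoodT T β d a ∧ GoodN T a ∧ GoodQ T a)) ({a : WeierstrassCurve k[X] |
      DegLE a d ∧ ¬ (GoodT T β d a ∧ GoodN T a ∧ GoodQ T a)}.ncard) := fun B hB => by
    rw [← Set.ncard_coe_finset]
    exact_mod_cast Set.ncard_le_ncard hB ((finite_degLE d).subset fun _ h => h.1)
  have h4 := h3.or ((Bd.union Finset.univ fun x _ =>
    (bd_one h0 (hc x) (h1 x)).or (bd_two h0 (hc x) (h1 x))).or (Bd.union Finset.univ fun i _ =>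
      bd_three hL (w := fun j => u (i, j)) (fun _ _ e => congrArg Prod.snd (hu e)) (h2 i)))
  refine ((h4.mono fun a ha => ?_).ncard).trans_eq (by simp; ring)
  by_contra hn
  rw [not_or, not_or] at hn
  obtain ⟨h5, h6, h7⟩ := hn
  have h8 : GoodT T β d a ∧ GoodN T a ∧ GoodQ T a := by_contra fun e => h5 ⟨ha.1, e⟩
  have h9 : ∀ x, ¬ gen (u x) ∣ a.a₁ := fun x e => h6 ⟨x, Finset.mem_univ _, Or.inl ⟨ha.1, e⟩⟩
  refine ha.2.2 (good_of h8.1 h8.2.1 h8.2.2 fun i => by_contra fun e => h7 ⟨i, Finset.mem_univ _,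
    ha.1, fun j => ⟨h9 _, fun e' => e ⟨j, h9 _, fun e'' => ?_, e'⟩⟩⟩)
  exact h6 ⟨_, Finset.mem_univ _, Or.inr ⟨ha.1, h9 _, e''⟩⟩

lemma exists_deg (n : ℕ) : ∃ v : HeightOneSpectrum k[X], (gen v).natDegree = n + 3 := by
  have h1 := Exc.MB.card_Ir (k := k) (d := n + 3) (by omega)
  obtain ⟨p, hp⟩ := Finset.card_pos.1 (Nat.pos_of_mul_pos_left (lt_of_lt_of_le (by positivity) h1))
  obtain ⟨h2, h3⟩ := Finset.mem_filter.1 hp
  obtain ⟨-, h4, h5⟩ := mem_irrLe.1 h2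
  exact ⟨ofIrr p h5, by rw [gen_ofIrr h5 h4, h3]⟩

lemma num_true_ge (hd : 1 ≤ d) : (Fintype.card k : ℝ) ^ (10 * d) ≤
    2 * (Fintype.card k : ℝ) ^ 3 * num (k := k) (fun _ => True) d := by
  obtain ⟨d, rfl⟩ : ∃ e, d = e + 1 := ⟨d - 1, by omega⟩
  exact_mod_cast (le_card_Mcl d).trans (Nat.mul_le_mul_left _ ((Finset.single_le_sum
    (f := fun e => (Mcl (k := k) (fun _ => True) e).ncard) (fun _ _ => Nat.zero_le _)
    (Finset.self_mem_range_succ _)).trans (num_bounds (fun _ _ => Iff.rfl) _).1))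

lemma exists_good (k : Type) [Field k] [Fintype k] [CharP k 2] (r : ℕ) :
    ∃ (T L : ℕ) (u : Fin r × Fin L → HeightOneSpectrum k[X]), Function.Injective u ∧
      (∀ x, (SgT k T).card + r + 2 ^ r + 1 < (gen (u x)).natDegree) ∧ ∀ᶠ d : ℕ in atTop,
        (num (fun W => ¬ Good T u W) d : ℝ) ≤ 1 / 12 * num (k := k) (fun _ => True) d := by
  obtain ⟨T, β, -, hT⟩ := badSmall k (1 / 400) (by norm_num) 0
  obtain ⟨L, hL⟩ : ∃ L, L = 800 * r * Fintype.card k ^ 5 + 1 := ⟨_, rfl⟩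
  obtain ⟨c, hc⟩ : ∃ c, c = 2 * L ^ 2 + ((SgT k T).card + r + 2 ^ r + 2) := ⟨_, rfl⟩
  choose w hw using exists_deg (k := k)
  let u : Fin r × Fin L → HeightOneSpectrum k[X] := fun x => w (c + Encodable.encode x)
  have hu : Function.Injective u := fun x y e => Encodable.encode_injective (by
    have := congrArg (fun v => (gen v).natDegree) e
    simp only [u, hw] at this
    omega)
  have h1 : ∀ x, c ≤ (gen (u x)).natDegree := fun x => by simp only [u, hw]; omega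
  refine ⟨T, L, u, hu, fun x => lt_of_lt_of_le (by omega) (h1 x), ?_⟩
  filter_upwards [hT, eventually_ge_atTop (∏ x, gen (u x)).natDegree, eventually_ge_atTop 1]
    with d h2 h3 h4
  have h5 := bd_bad (T := T) (β := β) (by omega) (by rw [hc]; positivity) hu h1 h3
  have h6 := Exc.SumA.num_le (k := k) (P := fun W => ¬ Good T u W)
    (fun C W _ h h' => h (by simpa using h'.smul C⁻¹)) d
  have h7 := num_true_ge (k := k) h4
  rw [card_DD] at h5
  have h6' := (Nat.cast_le (α := ℝ)).2 h6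
  push_cast at h5 h6'
  have hq : (0 : ℝ) < Fintype.card k := by positivity
  have hL' : (L : ℝ) = 800 * r * (Fintype.card k : ℝ) ^ 5 + 1 := by rw [hL]; push_cast; rfl
  have hL0 : (0 : ℝ) < L := by rw [hL']; positivity
  have hc' : 2 * (L : ℝ) ^ 2 ≤ c := by exact_mod_cast hc ▸ Nat.le_add_right _ _
  generalize (Fintype.card k : ℝ) = q at *
  have h8 : (r : ℝ) * L * (2 * (q ^ (16 * d + 5) / c)) ≤ r * (q ^ (16 * d + 5) / L) := by
    calc _ ≤ (r : ℝ) * L * (2 * (q ^ (16 * d + 5) / (2 * L ^ 2))) := by gcongr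
      _ = _ := by field_simp
  have h9 : (r : ℝ) * (q ^ (16 * d + 5) / L) ≤ 1 / 800 * q ^ (16 * d) := by
    rw [← mul_div_assoc, div_le_iff₀ hL0, hL', pow_add]
    nlinarith [pow_pos hq (16 * d)]
  refine le_of_mul_le_mul_right (h6'.trans ?_) (pow_pos hq (6 * d + 3))
  have h10 : q ^ (16 * d) ≤ 2 * (num (k := k) (fun _ => True) d * q ^ (6 * d + 3)) := by
    calc q ^ (16 * d) = q ^ (10 * d) * q ^ (6 * d) := by ring
      _ ≤ 2 * q ^ 3 * num (k := k) (fun _ => True) d * q ^ (6 * d) := by gcongr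
      _ = _ := by ring
  nlinarith [pow_pos hq (16 * d)]

theorem pos_dens (k : Type) [Field k] [Fintype k] [CharP k 2] (r : ℕ) :
    ∃ δ : ℝ, 0 < δ ∧ ∀ᶠ d : ℕ in atTop, δ ≤ dens (k := k) (fun W => selOrder W = 2 ^ r) d := by
  obtain ⟨T, L, u, hu, h1, h2⟩ := exists_good k r
  have h3 : ∀ᶠ d : ℕ in atTop, 1 / 8 ≤ dens (k := k) (fun W => selOrder W = 2 ^ (r % 2)) d := by
    rcases Nat.mod_two_eq_zero_or_one r with h | h <;> rw [h]
    · exact (trivial_ge cellRed cellAn' (1 / 24) (by norm_num)).mono fun d hd => by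
        norm_num at hd ⊢; exact hd
    · exact (two_ge cellRed cellAn' (7 / 24) (by norm_num)).mono fun d hd => by
        norm_num at hd ⊢; exact hd
  have h4 := num_twist hu h1 (Nat.mod_le r 2) (by omega)
  generalize (∏ x, gen (u x)).natDegree = n at h4
  have hq : (0 : ℝ) < Fintype.card k := by positivity
  refine ⟨1 / (384 * (Fintype.card k : ℝ) ^ (11 * n + 5)), by positivity, ?_⟩
  obtain ⟨d₀, h5⟩ := eventually_atTop.1 ((h2.and h3).and (eventually_ge_atTop 1))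
  filter_upwards [eventually_ge_atTop (d₀ + n)] with D hD
  obtain ⟨d, rfl⟩ : ∃ d, D = d + n := ⟨D - n, by omega⟩
  obtain ⟨⟨h6, h7⟩, h8⟩ := h5 d (by omega)
  have h9 := num_true_ge (k := k) h8
  have h10 := num_true_ge (k := k) (d := d + n) (by omega)
  have h11 := (Nat.cast_le (α := ℝ)).2 (Exc.MB.num_true_le (k := k) (d + n))
  have h12 := (Nat.cast_le (α := ℝ)).2 (h4 d)
  have h13 : num (k := k) (fun W => selOrder W = 2 ^ (r % 2)) d ≤
      num (fun W => Good T u W ∧ selOrder W = 2 ^ (r % 2)) d + num (fun W => ¬ Good T u W) d := by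
    refine le_trans (Set.ncard_le_ncard ?_ ((Exc.SumA.Cl_fin _ d).union (Exc.SumA.Cl_fin _ d)))
      (Set.ncard_union_le _ _)
    rintro _ ⟨W, rfl, e1, e2, e3⟩
    by_cases h : Good T u W
    exacts [Or.inl ⟨W, rfl, e1, e2, h, e3⟩, Or.inr ⟨W, rfl, e1, e2, h⟩]
  have h14 := (Nat.cast_le (α := ℝ)).2 h13
  push_cast at h11 h12 h14
  generalize (Fintype.card k : ℝ) = q at *
  have pos : ∀ {x : ℝ} {m : ℕ}, q ^ m ≤ 2 * q ^ 3 * x → 0 < x := fun h =>
    (mul_pos_iff_of_pos_left (by positivity)).1 (lt_of_lt_of_le (by positivity) h)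
  rw [dens, le_div_iff₀ (pos h9)] at h7
  rw [dens, div_le_div_iff₀ (by positivity) (pos h10), one_mul]
  refine h11.trans ?_
  calc 8 * q ^ (10 * (d + n) + 2) = 8 * q ^ (10 * n + 2) * q ^ (10 * d) := by ring
    _ ≤ 8 * q ^ (10 * n + 2) * (2 * q ^ 3 * (24 * (q ^ n *
        num (k := k) (fun W => selOrder W = 2 ^ r) (d + n)))) := by
        gcongr
        refine h9.trans ?_
        gcongr
        linarith
    _ = _ := by ring

end Pool.Agent.Lib.MP_a3f657_nt.Two.Vir
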