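import Pool.Agent.Lib.MP_a3f657_nt.PR.VCfg
import Pool.Agent.Lib.MP_a3f657_nt.C2QSum

/-!
The first moment on a cell for structures with local twists at the small places.
-/

set_option linter.unusedSectionVars false
set_option maxHeartbeats 400000

namespace Pool.Agent.Lib.MP_a3f657_nt.Two.Vir

open Polynomial IsDedekindDomain UniqueFactorizationMonoid

open scoped Classical

variable {k : Type} [Field k] [Fintype k] [CharP k 2] {T β d : ℕ} {a : WeierstrassCurve k[X]}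
  {M : k[X]} {f : k[X] × k[X] → k[X]} {t : k[X] × k[X]}

section dt

variable {h : GoodT T β d a} {hd : DegLE a d} {A α : RatFunc k}
  (hA : ∀ v ∈ SgT k T, Bnd (pl v) (h.dat hd).P A (12 * β))

/-- The local data of the cell with another value of `A`. -/
noncomputable def dt : Dat k := { h.dat hd with A := A, bnd := hA }

include hA

lemma nm_spec {G : k[X]} (hG : PiT k T ^ (84 * β + 2) * a.a₁ ∣ G) (hα : α ∈ (dt hA).V) :
    ι (nm G α) = α * ι G ∧ (nm G α).natDegree ≤ G.natDegree + (84 * β + 2) := by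
  have h1 := (Dat.mem_V.1 hα).2
  obtain ⟨n, hn⟩ := exists_poly (x := α * ι G) fun u => by
    by_cases h2 : some u ∈ (dt hA).Sg
    · exact Fil.mul (h1 _) (PiT_pow_mem (mem_SgT.1 h2) ((dvd_mul_right _ _).trans hG))
        (by rw [Dat.lev_Sg h2]; change _ ≤ -(7 * (12 * (β : ℤ)) + 2) + _; omega)
    by_cases h3 : some u ∈ (dt hA).S1
    · exact Fil.mul (h1 _) (ι_mem_one.2 ((((mem_S1T h.1).1 h3).1.mul_left _).trans hG))
        (by rw [Dat.lev_S1 h3]; rfl)
    · exact Fil.mul (h1 _) (ι_int u G) (by rw [Dat.lev_zero h2 h3]; rfl)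
  rw [nm, ← hn, pol_ι]
  refine ⟨rfl, ι_mem_none.1 (hn ▸ Fil.mul (h1 none) (ι_mem_none_self G) ?_)⟩
  rw [Dat.lev_Sg (dt hA).inf]
  change _ ≤ -(7 * (12 * (β : ℤ)) + 2) + _
  omega

lemma card_V : Finite (dt hA).V ∧ Nat.card (dt hA).V ≤
    Fintype.card k ^ (d + (84 * β + 2) * ((PiT k T).natDegree + 1) + 1) := by
  have h0 : PiT k T ^ (84 * β + 2) * a.a₁ ≠ 0 := mul_ne_zero (pow_ne_zero _ PiT_ne) h.1
  let φ : (dt hA).V → Bad.PL k (d + (84 * β + 2) * ((PiT k T).natDegree + 1) + 1) := fun α =>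
    ⟨nm (PiT k T ^ (84 * β + 2) * a.a₁) α, Bad.mem_PL_succ.2 ((nm_spec hA dvd_rfl α.2).2.trans (by
      rw [natDegree_mul (pow_ne_zero _ PiT_ne) h.1, natDegree_pow, mul_add]
      have := hd.1
      omega))⟩
  have hφ : Function.Injective φ := fun α α' e => Subtype.ext (mul_right_cancel₀ (ι_ne h0) (by
    rw [← (nm_spec hA dvd_rfl α.2).1, ← (nm_spec hA dvd_rfl α'.2).1]
    exact congrArg ι (congrArg Subtype.val e)))
  exact ⟨Finite.of_injective φ hφ, (Nat.card_le_card_of_injective φ hφ).trans_eq (by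
    rw [Nat.card_eq_finsetCard, Bad.card_PL])⟩

lemma mem_V0 {z : k[X]} (hz : z.natDegree + β * (PiT k T).natDegree < a.a₁.natDegree)
    (hN : GoodN T a) : (∀ v ∈ (dt hA).Sg, ι (PiT k T ^ β * z) / ι a.a₁ ∈ Fil (val v) 1) ∧
      ι (PiT k T ^ β * z) / ι a.a₁ ∈ (dt hA).V := by
  have h1 : ∀ v ∈ (dt hA).Sg, ι (PiT k T ^ β * z) / ι a.a₁ ∈ Fil (val v) 1 := by
    rintro (_ | u) hv
    · refine Fil.div (ι_mem_none.2 (natDegree_mul_le.trans (add_le_add_left natDegree_pow_le _))) ?_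
      rw [ord_none h.1]
      omega
    · exact Fil.div (PiT_pow_mem (mem_SgT.1 hv) (dvd_mul_right _ _))
        (by have := h.ord_a1 (mem_SgT.1 hv); omega)
  refine ⟨h1, Dat.mem_V.2 ⟨fun v hv => Cmp.PW_le_AA ((pl v).Fil_le_PW (h1 v hv)), fun v => ?_⟩⟩
  by_cases h2 : v ∈ (dt hA).Sg
  · exact Fil.mono (h1 v h2) ((Dat.lev_le v).trans zero_le_one)
  obtain ⟨u, rfl⟩ := Option.ne_none_iff_exists'.1 fun e : v = none => h2 (e ▸ (dt hA).inf)
  have h4 := not_le.1 (mt mem_SgT.2 h2)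
  by_cases h3 : gen u ∣ a.a₁
  · rw [Dat.lev_S1 ((mem_S1T h.1).2 ⟨h3, h4⟩)]
    exact Fil.div (ι_int u _)
      (by have := ord_ι_lt (hN _ (gen_monic u) (gen_irr u) h4 h3).2; omega)
  · exact Fil.mono (div_int _ h3) (Dat.lev_le _)

lemma card_C0 : Nat.card (dt hA).C0 ≤
    Fintype.card k ^ ((84 * β + 2) * ((PiT k T).natDegree + 1) + 1) := by
  have h0 : PiT k T ^ (84 * β + 2) ≠ 0 := pow_ne_zero _ PiT_ne
  have key : ∀ c : (dt hA).C0, ∃ n ∈ Bad.PL k ((84 * β + 2) * ((PiT k T).natDegree + 1) + 1),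
      ι n = c.1 * ι (PiT k T ^ (84 * β + 2)) := fun c => by
    have h1 : ∀ v, wp c.1 ∈ Fil (val v) ((dt hA).lev v) := (Dat.mem_V.1 c.2).2
    have h2 : ∀ v ∈ (dt hA).Sg, c.1 ∈ Fil (val v) (-(84 * β + 2)) := fun v hv =>
      Fil.of_wp (h1 v) (by
        rw [Dat.lev_Sg hv]; change _ ≤ -(7 * (12 * (β : ℤ)) + 2) + 1; omega) (by omega)
    obtain ⟨n, hn⟩ := exists_poly (x := c.1 * ι (PiT k T ^ (84 * β + 2))) fun u => by
      by_cases h3 : some u ∈ (dt hA).Sg
      · exact Fil.mul (h2 _ h3) (PiT_pow_mem (mem_SgT.1 h3) dvd_rfl) (by omega)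
      refine Fil.mul (Fil.of_wp (c := 0) (h1 _) ?_ le_rfl) (ι_int u _) le_rfl
      by_cases h4 : some u ∈ (dt hA).S1
      · rw [Dat.lev_S1 h4]; rfl
      · rw [Dat.lev_zero h3 h4]; omega
    refine ⟨n, Bad.mem_PL_succ.2 (ι_mem_none.1 (hn ▸ Fil.mul (h2 _ (dt hA).inf)
      (ι_mem_none_self _) ?_)), hn⟩
    rw [natDegree_pow]
    push_cast
    linarith
  choose n hn hn' using key
  refine (Nat.card_le_card_of_injective (fun c => (⟨n c, hn c⟩ : Bad.PL k _)) fun c c' e =>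
    Subtype.ext (mul_right_cancel₀ (ι_ne h0) ?_)).trans_eq (by
      rw [Nat.card_eq_finsetCard, Bad.card_PL])
  rw [← hn', ← hn', Subtype.mk.inj e]

lemma le_card_V (hN : GoodN T a)
    (hd0 : β * (PiT k T).natDegree + β + 1 ≤ d) :
    Fintype.card k ^ (d - (β * (PiT k T).natDegree + β)) ≤ Nat.card (dt hA).V := by
  have := (card_V hA).1
  rw [← Bad.card_PL, ← Nat.card_eq_finsetCard]
  refine Nat.card_le_card_of_injective (fun z => ⟨_, (mem_V0 hA (z := z.1) (by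
    have h1 := h.2.2.1
    rcases Bad.mem_PL_iff.1 z.2 with h2 | h2
    · rw [h2, natDegree_zero]; omega
    · omega) hN).2⟩) fun z z' e => Subtype.ext (mul_left_cancel₀
      (pow_ne_zero β (PiT_ne (T := T))) (ι_inj ?_))
  exact (div_left_inj' (ι_ne h.1)).1 (Subtype.mk.inj e)

lemma nb_le (hC : CellA T β d a M f) (hN : GoodN T a)
    (ht : t ∈ cell T β d a) : nb (dt hA) (normalizedFactors (f t)).toFinset ≤
      ((normalizedFactors (f t)).toFinset.powerset.filter fun s =>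
        s ≠ ∅ ∧ s ≠ (normalizedFactors (f t)).toFinset ∧ JJ T β a.a₁ M s ∧
          JJ T β a.a₁ M ((normalizedFactors (f t)).toFinset \ s)).card := by
  have key : ∀ s ⊆ (normalizedFactors (f t)).toFinset, Jv (dt hA) s → JJ T β a.a₁ M s := by
    intro s hs hJ z n hz hn
    have e : ι n / ι M = ι (PiT k T ^ β * z) / ι a.a₁ := by
      rw [div_eq_div_iff (ι_ne hC.M0) (ι_ne h.1), ι, ι, ← map_mul, hn, map_mul]
    rw [Finset.prod_congr rfl fun p hp => sgP_eq_sr (hC.goodP ht p (hs hp)) n, ← Complex.ofReal_prod,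
      ← sr_sum, e, hJ _ (mem_V0 hA hz hN).2, sr_zero, Complex.ofReal_one]
  refine Finset.card_le_card fun s hs => ?_
  rw [Finset.mem_filter] at hs ⊢
  exact ⟨hs.1, hs.2.1, hs.2.2.1, key s (Finset.mem_powerset.1 hs.1) hs.2.2.2.1,
    key _ Finset.sdiff_subset hs.2.2.2.2⟩

end dt

/-- The order of the Selmer group of the curve with local twists `X`. -/
noncomputable def vs (X : Pl k → RatFunc k) (a : WeierstrassCurve k[X]) : ℕ :=
  if h : ∃ P, Nd (bc a) P then Nat.card (Sel h.choose fun v => nA (bc a) + X v) else 0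

lemma vs_eq {P : PB (RatFunc k)} (hP : Nd (bc a) P) (X : Pl k → RatFunc k) :
    vs X a = Nat.card (Sel P fun v => nA (bc a) + X v) := by
  have h : ∃ P, Nd (bc a) P := ⟨P, hP⟩
  rw [vs, dif_pos h, PB.ext' (h.choose_spec.hb.trans hP.hb.symm)]

lemma exists_near (S : Finset (Pl k)) (c : Pl k → RatFunc k) :
    ∃ x, ∀ v ∈ S, x + c v ∈ Fil (val v) 1 := by
  obtain ⟨z, h0, hz⟩ : ∃ z : RatFunc k, z ≠ 0 ∧ ∀ v ∈ S, z ∈ Fil (val v) 1 := by
    obtain ⟨x, h1, -⟩ := exists_principal S fun v => (unif v)⁻¹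
    have h2 : ∀ v ∈ S, x ≠ 0 ∧ ord (val v) x = -1 := fun v hv => by
      have h3 : (unif v)⁻¹ ≠ 0 := inv_ne_zero fun e => unif_ns v 0 (by simp [e])
      have h4 := ord_add (w := val v) h3 (Fil.mono (h1 v hv) (by rw [ord_inv, ord_unif]; rfl))
      rwa [show (unif v)⁻¹ + ((unif v)⁻¹ - x) = x by grind, ord_inv, ord_unif] at h4
    rcases S.eq_empty_or_nonempty with rfl | ⟨w, hw⟩
    · exact ⟨1, one_ne_zero, by simp⟩
    · exact ⟨x⁻¹, inv_ne_zero (h2 w hw).1, fun v hv =>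
        mem_Fil_of_le (by rw [ord_inv, (h2 v hv).2]; rfl)⟩
  obtain ⟨x, h1, -⟩ := exists_principal S fun v => c v / z
  refine ⟨z * x, fun v hv => ?_⟩
  rw [show z * x + c v = z * (c v / z - x) by field_simp; grind]
  exact Fil.mul (hz v hv) (h1 v hv) (by omega)

lemma Bnd.add {K : Type} [Field K] [CharP K 2] {L : PreLoc K} {P : PB K} {A x : K} {β : ℤ}
    (h : Bnd L P A β) (hx : x ∈ Fil L.w (-β)) : Bnd L P (A + x) β :=
  ⟨h.nn, add_mem h.hA hx, h.hB, h.he⟩

theorem vm (hA : CellAn) (k : Type) [Field k] [Fintype k] [CharP k 2] :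
    ∃ T₀ : ℕ, ∀ T, T₀ ≤ T → ∀ (β : ℕ) (ε : ℝ), 1 ≤ β → 0 < ε → ∀ᶠ d : ℕ in Filter.atTop,
      ∀ a : WeierstrassCurve k[X], DegLE a d → GoodT T β d a → GoodN T a →
        ∀ X : Pl k → RatFunc k, (∀ v, X v ∈ Fil (val v) (-1)) → (∀ v ∉ SgT k T, X v = 0) →
        |∑ t ∈ cell T β d a with GoodQ T (shift T β a t), ((vs X (shift T β a t) : ℝ) - 3)| ≤
          ε * (cell T β d a).card := by
  obtain ⟨T₀, hT⟩ := hA k
  refine ⟨max T₀ 23, fun T hT₀ β ε hβ hε => ?_⟩
  simp only [max_le_iff] at hT₀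
  set q : ℝ := (Fintype.card k : ℝ)
  have hq : 0 < q := Bad.q_pos
  have hq2 : 2 ≤ q := Bad.two_le_q
  set c := q ^ ((84 * β + 2) * ((PiT k T).natDegree + 1) + 1)
  have hc : 0 < c := by positivity
  set η := ε / (c + 3)
  have hη : 0 < η := by positivity
  set b := β * (PiT k T).natDegree + β
  obtain ⟨n, hn⟩ := pow_unbounded_of_one_lt (c * q ^ b / η) (one_lt_two (α := ℝ))
  filter_upwards [hT T hT₀.1 β η hη, Filter.eventually_ge_atTop (b + 1),
    Filter.eventually_ge_atTop ((NT k T β).natDegree + β), Filter.eventually_ge_atTop (2 * n)]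
    with d H hd0 hd1 hd2 a hd h hN X hX hX0
  obtain ⟨M, f, hC, -, A2, A3⟩ := H a hd h hN
  obtain ⟨A, hA1⟩ := exists_near (SgT k T) fun v => nA (bc a) + X v
  have hA : ∀ v ∈ SgT k T, Bnd (pl v) (h.dat hd).P A (12 * β) := fun v hv => by
    have := Bnd.add (Bnd.add ((h.dat hd).bnd v hv) (Fil.mono (hX v) (b := -(12 * β)) (by omega)))
      (Fil.mono (hA1 v hv) (b := -(12 * β)) (by omega))
    rwa [show (h.dat hd).A = nA (bc a) from rfl, add_left_comm, two_K, add_zero] at this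
  set D := dt hA
  have := (card_V hA).1
  have : Fintype D.V := Fintype.ofFinite _
  obtain ⟨x1, x2⟩ := mem_V0 hA (z := 1) (by
    have := h.2.2.1
    rw [natDegree_one]
    omega) hN
  have x0 : ι (PiT k T ^ β * 1) / ι a.a₁ ≠ 0 :=
    div_ne_zero (ι_ne (by simp [PiT_ne])) (ι_ne h.1)
  set F := fun t => (normalizedFactors (f t)).toFinset
  set c0 : ℝ := (Nat.card D.C0 : ℝ)
  set v : ℝ := (Nat.card D.V : ℝ)
  have hv0 : 0 < v := Nat.cast_pos.2 Nat.card_pos
  have hc0 : 1 ≤ c0 := by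
    have h1 := card_E (D := D)
    have h2 : 0 < (Finset.univ.filter fun α : D.V => α.1 ∈ wpH.range).card :=
      Finset.card_pos.2 ⟨0, Finset.mem_filter.2 ⟨Finset.mem_univ _, zero_mem _⟩⟩
    exact Nat.one_le_cast.2 (by omega)
  have key : ∀ t ∈ cell T β d a, Squarefree (f t) →
      |((vs X (shift T β a t) : ℝ) - 3) * (c0 * v) -
        ∑ x : D.V × D.V with ¬ Exc x.1.1 x.2.1, Tm D (F t) x.1 x.2| ≤
        (3 / 2 * nb D (F t) + η) * (c0 * v) := fun t ht hQ => by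
    obtain ⟨P, hP⟩ := exists_nd (hC.good t ht).2.1 (hC.good t ht).2.2.1
    have hF : ∀ p ∈ F t, p.Monic ∧ Irreducible p := fun p hp =>
      ⟨(hC.goodP ht p hp).1, (hC.goodP ht p hp).2.1⟩
    have h0 := hC.cfg h hd hN ht hQ hP
    have h1 : Cfg D (fun v => nA (bc (shift T β a t)) + X v) P ((F t).image plc) :=
      ⟨h0.d2, h0.d3, fun v hv => Bnd.add (h0.bnd v hv)
        (Fil.mono (hX v) (b := -(12 * β)) (by omega)), fun v hv => by
          have := add_mem (hA1 v hv) (h0.hA v hv)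
          rwa [show (h.dat hd).A = nA (bc a) from rfl, show ∀ x y z w : RatFunc k,
            x + (y + z) + (y + w) = x + (w + z) by grind] at this,
        h0.hB, fun v hv => ⟨_, h0.nd, (h0.ss v hv).1, (h0.ss v hv).2.1, (h0.ss v hv).2.2.1,
          (h0.ss v hv).2.2.2, by rw [hX0 v ((h.dat hd).disj v hv), add_zero]⟩,
        fun v h2 h3 => by rw [hX0 v h2, add_zero]; exact h0.int v h2 h3, h0.mult, h0.good⟩
    have e1 := h1.mom hF x0 x1 x2
    have e2 := h1.mom_ge hF (hC.nonempty_F ht hd1)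
    rw [← vs_eq hP] at e1 e2
    have h2 : c0 ≤ c := by simp only [c0, c, q]; exact_mod_cast card_C0 hA
    have h3 : q ^ (d - b) ≤ v := by simp only [v, q]; exact_mod_cast le_card_V hA hN hd0
    have h4 : (F t).card + n ≤ d := by
      have := (Nat.mul_le_mul_left _ (Nat.succ_le_succ hT₀.2)).trans (hC.card_F ht)
      simp only [F]
      omega
    have h5 : 2 ^ (F t).card * 2 ^ n ≤ q ^ (d - b) * q ^ b := by
      rw [← pow_add, ← pow_add, Nat.sub_add_cancel (by omega)]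
      exact (pow_le_pow_right₀ one_le_two h4).trans (pow_le_pow_left₀ zero_le_two hq2 d)
    rw [div_lt_iff₀ hη] at hn
    have h6 : c * 2 ^ (F t).card ≤ η * v := le_of_mul_le_mul_right (by
      calc c * 2 ^ (F t).card * q ^ b = c * q ^ b * 2 ^ (F t).card := by ring
        _ ≤ 2 ^ n * η * 2 ^ (F t).card := by gcongr
        _ = η * (2 ^ (F t).card * 2 ^ n) := by ring
        _ ≤ η * (v * q ^ b) := mul_le_mul_of_nonneg_left (h5.trans (by gcongr)) hη.le
        _ = _ := by ring) (pow_pos hq b)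
    have h7 : c0 * 2 ^ (F t).card ≤ η * v := le_trans (by gcongr) h6
    have h8 : (0 : ℝ) ≤ c0 * (c0 * 2 ^ (F t).card) := by positivity
    have h9 : (0 : ℝ) ≤ nb D (F t) * (c0 * v) := by positivity
    have h10 : (0 : ℝ) ≤ η * (c0 * v) := by positivity
    rw [abs_le]
    constructor
    · nlinarith [mul_le_mul_of_nonneg_left h7 (zero_le_one.trans hc0)]
    · nlinarith
  rw [hC.filter_eq]
  set G := (cell T β d a).filter fun t => Squarefree (f t)
  set N : ℝ := ((cell T β d a).card : ℝ)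
  have hN0 : 0 ≤ η * N := by positivity
  have hε' : ε * N = (c + 3) * (η * N) := by
    simp only [η]
    field_simp
  have hv : v ≤ q ^ d * c := by
    rw [← pow_add, ← add_assoc]
    simp only [v, q]
    exact_mod_cast (card_V hA).2
  have B2 : ∀ x : D.V × D.V, ¬ Exc x.1.1 x.2.1 →
      |∑ t ∈ G, Tm D (F t) x.1 x.2| * q ^ d ≤ η * N := fun x hx => by
    have hG : PiT k T ^ (84 * β + 2) * a.a₁ ∣ M :=
      (mul_dvd_mul_right (pow_dvd_pow _ (by unfold RR; omega)) _).trans hC.bigM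
    obtain ⟨h1, h2⟩ := nm_spec hA hG x.1.2
    obtain ⟨h3, h4⟩ := nm_spec hA hG x.2.2
    simp only [Exc, not_or] at hx
    have h6 := A2 _ _ 1 (.inl rfl) (h2.trans (by unfold RR; omega))
      (h4.trans (by unfold RR; omega)) (notWp hC.M0 h1 hx.1) (notWp hC.M0 h3 hx.2.1)
      (notWp hC.M0 (by rw [ι, map_add, add_mul, ← h1, ← h3]) hx.2.2)
    rw [← hC.abs_sum (g := gR x.1 x.2) fun p hp => by rw [gK_eq hp h1 h3, one_mul]] at h6
    simp only [Tm]
    rwa [← Finset.mul_sum, abs_mul, abs_sr, one_mul]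
  have B3 : |∑ t ∈ G, ∑ x : D.V × D.V with ¬ Exc x.1.1 x.2.1, Tm D (F t) x.1 x.2| ≤
      c * (η * N) * (c0 * v) := by
    rw [Finset.sum_comm]
    refine (Finset.abs_sum_le_sum_abs _ _).trans ((Finset.sum_le_card_nsmul _ _ (η * N / q ^ d)
      fun x hx => (le_div_iff₀ (pow_pos hq d)).2 (B2 x (Finset.mem_filter.1 hx).2)).trans ?_)
    have h1 : ((Finset.univ.filter fun x : D.V × D.V => ¬ Exc x.1.1 x.2.1).card : ℝ) ≤ v * v := by
      simp only [v, Nat.card_eq_fintype_card]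
      exact_mod_cast (Finset.card_le_univ _).trans_eq (Fintype.card_prod _ _)
    rw [nsmul_eq_mul]
    calc _ ≤ (q ^ d * c) * (c0 * v) * (η * N / q ^ d) := by
          gcongr
          exact h1.trans (by gcongr; nlinarith)
      _ = _ := by field_simp
  have B4 : ∑ t ∈ G, (nb D (F t) : ℝ) ≤ η * N := (Finset.sum_le_sum fun t ht => by
    exact_mod_cast nb_le hA hC hN (Finset.mem_filter.1 ht).1).trans A3
  have B5 : (G.card : ℝ) ≤ N := Nat.cast_le.2 (Finset.card_filter_le _ _)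
  have B6 := (Finset.abs_sum_le_sum_abs _ _).trans (Finset.sum_le_sum fun t (ht : t ∈ G) =>
    key t (Finset.mem_filter.1 ht).1 (Finset.mem_filter.1 ht).2)
  rw [Finset.sum_sub_distrib, ← Finset.sum_mul, ← Finset.sum_mul, Finset.sum_add_distrib,
    ← Finset.mul_sum, Finset.sum_const, nsmul_eq_mul] at B6
  have h0 : 0 < c0 * v := by positivity
  refine le_of_mul_le_mul_right ?_ h0
  rw [← abs_of_pos h0, ← abs_mul, abs_of_pos h0, hε']
  have B7 := (abs_sub_abs_le_abs_sub _ _).trans B6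
  have B8 : 3 / 2 * ∑ t ∈ G, (nb D (F t) : ℝ) + G.card * η ≤ 3 * (η * N) := by nlinarith
  linarith [mul_le_mul_of_nonneg_right B8 h0.le]

end Pool.Agent.Lib.MP_a3f657_nt.Two.Vir
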