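import Pool.Agent.Lib.MP_a3f657_nt.PR.Chain
import Pool.Agent.Lib.MP_a3f657_nt.PR.VSum
import Pool.Agent.Lib.MP_a3f657_nt.PR.Cnt

/-!
The law of the twists on a cell.
-/

set_option linter.unusedSectionVars false
set_option maxHeartbeats 400000

namespace Pool.Agent.Lib.MP_a3f657_nt.Two.Vir

open Polynomial IsDedekindDomain WeierstrassCurve Bad Avg Filter

open scoped Classical

variable {k : Type} [Field k] [Fintype k] [CharP k 2] {R : Finset (HeightOneSpectrum k[X])}
  {u : HeightOneSpectrum k[X]} {x y : RatFunc k}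

variable (R) in
/-- The functions with at most simple poles on `R` that vanish at infinity. -/
noncomputable def Gam : AddSubgroup (RatFunc k) :=
  Fil (val none) 1 ⊓ ⨅ u, Fil (val (some u)) (if u ∈ R then -1 else 0)

lemma mem_Gam : y ∈ Gam R ↔ y ∈ Fil (val none) 1 ∧
    ∀ u, y ∈ Fil (val (some u)) (if u ∈ R then -1 else 0) := by
  simp [Gam, AddSubgroup.mem_iInf]

lemma Gam_pol (hy : y ∈ Gam R) (v : Pl k) :
    y ∈ Fil (val v) (if v ∈ R.image some then -1 else 0) := by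
  rcases v with _ | u
  · exact Fil.mono (mem_Gam.1 hy).1 (by split_ifs <;> omega)
  · simpa using (mem_Gam.1 hy).2 u

lemma Gam_neg (hy : y ∈ Gam R) (v : Pl k) : y ∈ Fil (val v) (-1) :=
  Fil.mono (Gam_pol hy v) (by split_ifs <;> omega)

lemma Gam_le (hu : u ∈ R) : Gam {u} ≤ Gam R := fun _ hy =>
  mem_Gam.2 ⟨(mem_Gam.1 hy).1, fun w => Fil.mono ((mem_Gam.1 hy).2 w) (by
    by_cases h : w = u
    · simp [h, hu]
    · rw [if_neg (mt Finset.mem_singleton.1 h)]; split_ifs <;> omega)⟩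

lemma Gam_zero (hy : y ∈ Gam R) (h : ∀ u ∈ R, y ∈ Fil (val (some u)) 0) : y = 0 := by
  obtain ⟨a, rfl⟩ := exists_poly (x := y) fun u => by
    by_cases hu : u ∈ R
    exacts [h u hu, by simpa [hu] using (mem_Gam.1 hy).2 u]
  rw [eq_zero_of_none (mem_Gam.1 hy).1, ι, map_zero]

lemma Gam_ord (hy : y ∈ Gam {u}) (h : y ≠ 0) : ord (val (some u)) y = -1 :=
  (ord_eq_of (Gam_neg hy _) fun e => h (Gam_zero hy (by simpa using e))).2

lemma prod_ne (R : Finset (HeightOneSpectrum k[X])) : ∏ u ∈ R, gen u ≠ 0 :=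
  Finset.prod_ne_zero_iff.2 fun _ _ => gen_ne _

lemma Gam_rep (hy : y ∈ Gam R) :
    ∃ g ∈ PL k (∏ u ∈ R, gen u).natDegree, y = ι g / ι (∏ u ∈ R, gen u) := by
  obtain ⟨g, hg⟩ := exists_poly (x := y * ι (∏ u ∈ R, gen u)) fun u => by
    have := (mem_Gam.1 hy).2 u
    split_ifs at this with hu
    · exact Fil.mul this (ι_mem_one.2 (Finset.dvd_prod_of_mem _ hu)) (by omega)
    · exact Fil.mul this (ι_int _ _) (by omega)
  exact ⟨g, mem_PL.2 (ι_mem_none'.1 (hg ▸ Fil.mul (mem_Gam.1 hy).1 (ι_mem_none_self _)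
    (by omega))), by rw [hg, mul_div_cancel_right₀ _ (ι_ne (prod_ne R))]⟩

lemma card_Gam_le (R : Finset (HeightOneSpectrum k[X])) : Finite (Gam R) ∧
    Nat.card (Gam R) ≤ Fintype.card k ^ (∏ u ∈ R, gen u).natDegree := by
  choose g h1 h2 using fun y : Gam R => Gam_rep y.2
  have h3 : Function.Injective fun y => (⟨g y, h1 y⟩ : PL k _) := fun y y' e =>
    Subtype.ext (by rw [h2 y, h2 y', Subtype.mk.inj e])
  exact ⟨Finite.of_injective _ h3, (Nat.card_le_card_of_injective _ h3).trans_eq (by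
    rw [Nat.card_eq_finsetCard, card_PL])⟩

noncomputable instance : Fintype (Gam R) := @Fintype.ofFinite _ (card_Gam_le R).1

lemma le_card_Gam (u : HeightOneSpectrum k[X]) :
    Fintype.card k ^ (gen u).natDegree ≤ Nat.card (Gam {u}) := by
  rw [← card_PL, ← Nat.card_eq_finsetCard]
  refine Nat.card_le_card_of_injective (fun g => ⟨ι g.1 / ι (gen u), mem_Gam.2
    ⟨Fil.div (ι_mem_none'.2 (mem_PL.1 g.2)) (by rw [ord_none (gen_ne u)]; omega), fun w => ?_⟩⟩)
    fun g g' e => Subtype.ext (ι_inj ((div_left_inj' (ι_ne (gen_ne u))).1 (Subtype.mk.inj e)))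
  split_ifs with h
  · rw [Finset.mem_singleton.1 h]
    exact Fil.div (ι_int _ _) (by rw [ord_gen]; omega)
  · exact div_int _ fun e => h (by rw [gen_dvd_gen e]; simp)

lemma pp_mem_Gam (hx : x ∈ Fil (val (some u)) (-1)) : pp u x ∈ Gam {u} :=
  mem_Gam.2 ⟨pp_none u x, fun w => by
    split_ifs with h
    · rw [Finset.mem_singleton.1 h]
      simpa using sub_mem hx (Fil.mono (pp_spec u x) (b := -1) (by omega))
    · exact pp_int (mt Finset.mem_singleton.2 h) x⟩

/-- The functions that are used for resampling. -/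
noncomputable def VV (Z : Finset (Pl k)) (u : HeightOneSpectrum k[X]) : AddSubgroup (RatFunc k) :=
  Gam {u} ⊓ ⨅ w : Z.erase (some u), (pl w.1).PW

variable {Z : Finset (Pl k)}

lemma Gam_int (hy : y ∈ Gam {u}) {w : Pl k} (hw : w ≠ some u) : y ∈ Fil (val w) 0 := by
  simpa [hw] using Gam_pol hy w

lemma card_VV (Z : Finset (Pl k)) (u : HeightOneSpectrum k[X]) :
    2 ^ (gen u).natDegree ≤ Nat.card (VV Z u) * 2 ^ Z.card := by
  let φ : Gam {u} →+ Z.erase (some u) → ZMod 2 :=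
    AddMonoidHom.pi fun w => (pl w.1).tau.comp (Gam {u}).subtype
  have e0 : ∀ y : Gam {u}, y ∈ φ.ker ↔ ∀ w : Z.erase (some u), y.1 ∈ (pl w.1).PW := fun y => by
    rw [AddMonoidHom.mem_ker, funext_iff]
    exact forall_congr' fun w => (pl w.1).tau_eq_zero (Gam_int y.2 (Finset.ne_of_mem_erase w.2))
  have e : VV Z u = φ.ker.map (Gam {u}).subtype := by
    ext y
    rw [VV, AddSubgroup.mem_inf, AddSubgroup.mem_iInf]
    refine ⟨fun h => ⟨⟨y, h.1⟩, (e0 _).2 h.2, rfl⟩, ?_⟩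
    rintro ⟨y, hy, rfl⟩
    exact ⟨y.2, (e0 _).1 hy⟩
  rw [e, AddSubgroup.card_map_of_injective (Gam {u}).subtype_injective]
  refine (Nat.pow_le_pow_left Fintype.one_lt_card _).trans ((le_card_Gam u).trans ?_)
  rw [← φ.ker.index_mul_card, mul_comm, AddSubgroup.index_ker]
  refine Nat.mul_le_mul_left _ ((AddSubgroup.card_le_card_addGroup _).trans ?_)
  rw [Nat.card_fun, Nat.card_zmod, Nat.card_eq_finsetCard]
  exact Nat.pow_le_pow_right two_pos Finset.card_erase_le

/-- The logarithmic derivative. -/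
noncomputable def ld (f : k[X]) : RatFunc k := ι (derivative f) / ι f

lemma rho_ld {a : WeierstrassCurve k[X]} {P : PB (RatFunc k)} (hP : Nd (bc a) P) (v : Pl k)
    (y : RatFunc k) : (pl v).rho P y = res v (y * ld a.Δ) := by
  rw [rho_eq, dlg_nB _ hP, bc, baseChange, map_Δ, PB.dlg, D_ι, ld]

lemma res_ld {f g : k[X]} (hf : ¬ gen u ∣ f) (h : gen u ^ 2 ∣ g - f)
    (hy : y ∈ Fil (val (some u)) (-1)) : res (some u) (y * ld g) = res (some u) (y * ld f) := by
  obtain ⟨c, hc⟩ := h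
  have hg : ¬ gen u ∣ g := fun e => hf (by
    rw [show f = g - gen u ^ 2 * c by rw [← hc]; ring]
    exact dvd_sub e ((dvd_pow_self _ two_ne_zero).mul_right _))
  have h1 := ι_ne fun e : f = 0 => hf (e ▸ dvd_zero _)
  have h2 := ι_ne fun e : g = 0 => hg (e ▸ dvd_zero _)
  rw [← sub_eq_zero, ← map_sub, ← mul_sub]
  refine res_some_int (Fil.mul hy (b := 1) ?_ (by omega))
  rw [show ld g - ld f = ι (derivative g * f - g * derivative f) / ι (g * f) by
    simp only [ld, ι, map_sub, map_mul] at *; rw [div_sub_div _ _ h2 h1]]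
  refine Fil.div (ι_mem_one.2 ?_) (by
    rw [ord_ι_unit fun e => ((gen_prime u).dvd_or_dvd e).elim hg hf]; omega)
  obtain rfl : g = f + gen u ^ 2 * c := by rw [← hc]; ring
  exact ⟨(2 * derivative (gen u) * c + gen u * derivative c) * f - gen u * c * derivative f, by
    simp only [derivative_add, derivative_mul, derivative_pow]
    simp only [Nat.cast_ofNat, map_ofNat]
    ring⟩

variable (R) in
/-- The places that are not large. -/
noncomputable def ZR (T₁ : ℕ) : Finset (Pl k) := SgT k T₁ ∪ R.image some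

variable (R) in
/-- The tuples that are good for twisting. -/
def TG (T₁ T : ℕ) (a : WeierstrassCurve k[X]) : Prop :=
  GoodN T₁ a ∧ (∀ p : k[X], p.Monic → Irreducible p → T₁ < p.natDegree → p.natDegree ≤ T →
    ¬ p ^ 2 ∣ a.Δ) ∧ ∀ u ∈ R, ¬ gen u ∣ a.a₁ ∧ ¬ gen u ∣ a.Δ ∧
      ∃ y ∈ VV (ZR R T₁) u, res (some u) (y * ld a.Δ) ≠ 0

variable {T₁ T β d : ℕ} {a : WeierstrassCurve k[X]}

lemma sq_dvd_shift {p : k[X]} (h1 : p.Monic) (h2 : Irreducible p) (h3 : p.natDegree ≤ T)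
    (t : k[X] × k[X]) : p ^ 2 ∣ (shift T β a t).Δ - a.Δ :=
  ((pow_dvd_pow_of_dvd ((Cel.dvd_PiT h1 h2).2 h3) 2).trans
    (pow_dvd_pow _ (by unfold RR; omega))).trans (Cel.dvd_diff T β a t)

lemma TG.shift (h : TG R T₁ T a) (hR : ∀ u ∈ R, (gen u).natDegree ≤ T) (t : k[X] × k[X]) :
    TG R T₁ T (shift T β a t) := by
  refine ⟨h.1, fun p h1 h2 h3 h4 e => h.2.1 p h1 h2 h3 h4 (by
    simpa using dvd_sub e (sq_dvd_shift (β := β) (a := a) h1 h2 h4 t)), fun u hu => ?_⟩
  obtain ⟨h1, h2, y, h3, h4⟩ := h.2.2 u hu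
  have h5 := sq_dvd_shift (β := β) (a := a) (gen_monic u) (gen_irr u) (hR u hu) t
  exact ⟨h1, fun e => h2 (by simpa using dvd_sub e ((dvd_pow_self _ two_ne_zero).trans h5)),
    y, h3, by rwa [res_ld h2 h5 (Gam_neg h3.1 _)]⟩

theorem cell_law {c ε : ℝ} (hd : RR β ≤ d) (h1 : DegLE a d) (h2 : GoodT T β d a)
    (h3 : TG R T₁ T a) (hT : T₁ ≤ T) (hR : ∀ u ∈ R, (gen u).natDegree ≤ T) (hc : 1 ≤ c)
    (hV : ∀ u ∈ R, c ≤ Nat.card (VV (ZR R T₁) u))
    (H : ∀ X : Pl k → RatFunc k, (∀ v, X v ∈ Fil (val v) (-1)) → (∀ v ∉ SgT k T, X v = 0) →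
      |∑ t ∈ cell T β d a with GoodQ T (shift T β a t), ((vs X (shift T β a t) : ℝ) - 3)| ≤
        ε * (cell T β d a).card) (S : Set ℕ) :
    |∑ t ∈ cell T β d a with GoodQ T (shift T β a t), (∑ y : Gam R,
      (if ∃ r ∈ S, selOrder (tw y.1 (bc (shift T β a t))) = 2 ^ r then 1 else 0) -
        Nat.card (Gam R) * lawS S)| ≤ Nat.card (Gam R) * ((6 * (3 / 4) ^ R.card +
      R.card * (10 / c)) * ((cell T β d a).filter fun t => GoodQ T (shift T β a t)).card +
        (6 * R.card + 1) * (ε * (cell T β d a).card)) := by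
  set G := (cell T β d a).filter fun t => GoodQ T (shift T β a t)
  have h4 := fun t (ht : t ∈ G) => Red.goodT_shift hd h1 h2 (Finset.mem_filter.1 ht).1
  have : Nonempty (PB (RatFunc k)) := ⟨PX k⟩
  choose! P hP using fun t ht => exists_nd (h4 t ht).1 (h4 t ht).2.1
  have : Nonempty (RatFunc k) := ⟨0⟩
  choose! U h5 h6 using fun u hu => (h3.2.2 u hu).2.2
  have hZ : ZR R T₁ ⊆ SgT k T := by
    rintro (_ | u) hu
    · simp [SgT]
    rcases Finset.mem_union.1 hu with hu | hu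
    exacts [mem_SgT.2 ((mem_SgT.1 hu).trans hT), mem_SgT.2 (hR u (by simpa using hu))]
  have out : ∀ t ∈ G, ∀ w ∉ ZR R T₁, ∀ x ∈ Fil (val w) 0, (cmp w).Im (P t)
      (nA (bc (shift T β a t)) + x) = (cmp w).Im (P t) (nA (bc (shift T β a t))) := fun t ht => by
    obtain ⟨e1, e2, e3, e4, e5⟩ := h4 t ht
    obtain ⟨Q, h7, h8, -⟩ := good_of (T := T₁) (r := 0) (L := 0) (u := fun x => x.1.elim0)
      ⟨e1, e2, e3, e4, fun p p1 p2 p3 => e5 p p1 p2 (p3.trans hT)⟩ h3.1 (fun p p1 p2 p3 => by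
        rcases le_or_gt p.natDegree T with p4 | p4
        exacts [(h3.shift hR t).2.1 p p1 p2 p3 p4, (Finset.mem_filter.1 ht).2 p p1 p2 p4])
      fun i => i.elim0
    rw [PB.ext' ((hP t ht).hb.trans h7.hb.symm)]
    exact fun w hw => h8 w fun e => hw (Finset.mem_union_left _ e)
  have key : Fam G P (fun t => nA (bc (shift T β a t))) (R.image some) (ZR R T₁) (Gam R)
      (fun v => v.elim ⊥ (VV (ZR R T₁))) (fun v => v.elim 0 U) c (ε * (cell T β d a).card) := by
    refine ⟨Finset.subset_union_right, hc, fun y hy => Gam_pol hy,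
      Finset.forall_mem_image.2 fun u hu => inf_le_left.trans (Gam_le hu),
      Finset.forall_mem_image.2 hV, Finset.forall_mem_image.2 fun u _ y hy => Gam_ord hy.1,
      Finset.forall_mem_image.2 fun u _ y hy w hw => ⟨Gam_int hy.1 hw, fun e =>
        AddSubgroup.mem_iInf.1 hy.2 ⟨w, Finset.mem_erase.2 ⟨hw, e⟩⟩⟩,
      Finset.forall_mem_image.2 h5, fun t ht => Finset.forall_mem_image.2 fun u hu => ?_, out,
      fun J hJ Y hY y hy => ?_⟩
    · obtain ⟨h7, h8, -⟩ := (h3.shift (β := β) hR t).2.2 u hu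
      refine ⟨(ord_b (hP t ht) h7).trans (ord_ι_unit h8), nA_int h7, ?_⟩
      rw [rho_ld (hP t ht), Option.elim_some, res_ld (h3.2.2 u hu).2.1
        (sq_dvd_shift (gen_monic u) (gen_irr u) (hR u hu) t) (Gam_neg (h5 u hu).1 _)]
      exact h6 u hu
    refine le_of_eq_of_le (congrArg _ (Finset.sum_congr rfl fun t ht => ?_)) (H
      (fun v => if v ∈ J then nA (bc a) + Y v else if v ∈ ZR R T₁ then y else 0) (fun v => ?_)
      fun v hv => by
        rw [if_neg fun e => hv (hZ (Finset.mem_union_right _ (hJ e))), if_neg fun e => hv (hZ e)])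
    · rw [vs_eq (hP t ht), Sel_congr fun v => ?_]
      simp only [str]
      split_ifs with h7 h8
      · obtain ⟨u, hu, rfl⟩ := Finset.mem_image.1 (hJ h7)
        have h9 := (h3.2.2 u hu).1
        rw [← add_assoc, add_comm _ (Y _), Cmp.Im_PW ((pl _).Fil_le_PW ?_)]
        rw [show nA (bc (shift T β a t)) + nA (bc a) = ι (a.a₁ * (NT k T β * t.1)) / ι (a.a₁ ^ 3) by
          simp only [nA_bc, shift, ι, map_add, map_mul]
          grind]
        exact Fil.div (ι_mem_one.2 ((((dvd_PiT.2 (hR u hu)).trans (dvd_pow_self _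
          (by unfold RR; omega))).mul_right _).mul_left _)) (by
            rw [pl_w, ord_ι_unit fun e => h9 ((gen_prime u).dvd_of_dvd_pow e)]; rfl)
      · rfl
      · rw [add_zero, out t ht v h8 y (by
          simpa [mt (Finset.mem_union_right (SgT k T₁)) h8] using Gam_pol hy v)]
    · split_ifs with h7 h8
      · obtain ⟨u, hu, rfl⟩ := Finset.mem_image.1 (hJ h7)
        exact add_mem (Fil.mono (nA_int (h3.2.2 u hu).1) (by omega)) (Gam_neg (hY _ h7) _)
      exacts [Gam_neg hy v, zero_mem _]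
  have h7 := key.law S
  rw [Finset.card_image_of_injective _ (Option.some_injective _)] at h7
  refine le_of_eq_of_le (congrArg _ (Finset.sum_congr rfl fun t ht => ?_)) h7
  simp only [selOrder_eq' (nd_tw _ (hP t ht)), nA_tw _ (hP t ht).a1]

end Pool.Agent.Lib.MP_a3f657_nt.Two.Vir
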