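import Pool.Agent.Lib.MP_a3f657_nt.PR.Step

/-!
The chain of random wild twists.
-/

set_option linter.unusedSectionVars false
set_option maxHeartbeats 400000

namespace Pool.Agent.Lib.MP_a3f657_nt.Two.Vir

open Polynomial IsDedekindDomain Function

open scoped Classical

variable {k : Type} [Field k] [Finite k] [CharP k 2]

/-- The structure with prescribed local twists on `J`. -/
noncomputable def str (J : Finset (Pl k)) (Y : Pl k → RatFunc k) (A : RatFunc k) :
    Pl k → RatFunc k := fun v => if v ∈ J then Y v else A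

lemma exists_goodOut (P : PB (RatFunc k)) (J : Finset (Pl k)) (Y : Pl k → RatFunc k)
    (A : RatFunc k) : ∃ S, J ⊆ S ∧ GoodOut P (str J Y A) S := by
  let S : Finset (Pl k) := insert none (J ∪ ((finite_poles A).toFinset ∪
    ((finite_poles P.b).toFinset ∪ (finite_poles P.b⁻¹).toFinset)))
  refine ⟨S, fun v hv => by simp [S, hv], by simp [S], fun w hw => by simp_all [S, str],
    fun w hw => ?_⟩
  have h3 : P.b ∈ Fil (val w) 0 ∧ P.b⁻¹ ∈ Fil (val w) 0 := by simp_all [S]
  rw [mem_Fil_iff P.b_ne, mem_Fil_iff (inv_ne_zero P.b_ne), ord_inv] at h3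
  omega

lemma str_pow (P : PB (RatFunc k)) (J : Finset (Pl k)) (Y : Pl k → RatFunc k) (A : RatFunc k) :
    ∃ r, Nat.card (Sel P (str J Y A)) = 2 ^ r :=
  (exists_goodOut P J Y A).elim fun _ h => h.2.pow

lemma Sel_congr {P : PB (RatFunc k)} {B B' : Pl k → RatFunc k}
    (h : ∀ v, (cmp v).Im P (B v) = (cmp v).Im P (B' v)) : Sel P B = Sel P B' := by
  simp only [Sel, h]

/-- A family of curves with the first moment three for all structures. -/
structure Fam {τ : Type} (G : Finset τ) (P : τ → PB (RatFunc k)) (A : τ → RatFunc k)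
    (R Z : Finset (Pl k)) (Γ : AddSubgroup (RatFunc k)) (V : Pl k → AddSubgroup (RatFunc k))
    (U : Pl k → RatFunc k) (c E : ℝ) : Prop where
  sub : R ⊆ Z
  one : 1 ≤ c
  pol : ∀ y ∈ Γ, ∀ v, y ∈ Fil (val v) (if v ∈ R then -1 else 0)
  le : ∀ v ∈ R, V v ≤ Γ
  big : ∀ v ∈ R, c ≤ Nat.card (V v)
  od : ∀ v ∈ R, ∀ y ∈ V v, y ≠ 0 → ord (val v) y = -1
  int : ∀ v ∈ R, ∀ y ∈ V v, ∀ w, w ≠ v → y ∈ Fil (val w) 0 ∧ (w ∈ Z → y ∈ (pl w).PW)
  mem : ∀ v ∈ R, U v ∈ V v
  loc : ∀ t ∈ G, ∀ v ∈ R, ord (val v) (P t).b = 0 ∧ A t ∈ Fil (val v) 0 ∧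
    (pl v).rho (P t) (U v) ≠ 0
  out : ∀ t ∈ G, ∀ w ∉ Z, ∀ x ∈ Fil (val w) 0, (cmp w).Im (P t) (A t + x) = (cmp w).Im (P t) (A t)
  mean : ∀ J ⊆ R, ∀ Y : Pl k → RatFunc k, (∀ v ∈ J, Y v ∈ Γ) → ∀ y ∈ Γ,
    |∑ t ∈ G, ((Nat.card (Sel (P t) (str J Y (A t + y))) : ℝ) - 3)| ≤ E

namespace Fam

variable {τ : Type} {G : Finset τ} {P : τ → PB (RatFunc k)} {A : τ → RatFunc k}
  {R Z J : Finset (Pl k)} {Γ : AddSubgroup (RatFunc k)} {V : Pl k → AddSubgroup (RatFunc k)}
  {U : Pl k → RatFunc k} {c E : ℝ} [Fintype Γ] {f : ℕ → ℝ} {v : Pl k}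

variable (G P A Γ U) in
/-- The expectation. -/
noncomputable def ex (J : Finset (Pl k)) (f : ℕ → ℝ) : ℝ :=
  ∑ y : Γ, ∑ t ∈ G, f (Nat.log 2 (Nat.card (Sel (P t) (str J U (A t + y)))))

variable (h : Fam G P A R Z Γ V U c E)
include h

lemma step (hJ : J ⊆ R) (hv : v ∈ R) (hv' : v ∉ J) (hf : ∀ r, 0 ≤ f r ∧ f r ≤ 1) :
    |ex G P A Γ U J f - ex G P A Γ U (insert v J) (KK f)| ≤
      Nat.card Γ * (10 * G.card / c + 6 * E) := by
  have : Finite (V v) := Finite.of_injective _ (AddSubgroup.inclusion_injective (h.le v hv))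
  have := Fintype.ofFinite (V v)
  have hE : 0 ≤ E := (abs_nonneg _).trans (h.mean ∅ (by simp) 0 (by simp) 0 (zero_mem _))
  have hJ' : insert v J ⊆ R := Finset.insert_subset hv hJ
  have hc := h.big v hv
  have hc1 := h.one
  set n : ℝ := (Nat.card (V v) : ℝ) with hn
  have e1 : n * ex G P A Γ U J f = ∑ y : Γ, ∑ t ∈ G, ∑ x : V v, f (Nat.log 2 (Nat.card
      (Sel (P t) (update (str (insert v J) U (A t + y)) v (A t + y + x))))) := by
    simp only [Finset.sum_comm (s := G)]
    rw [Finset.sum_comm, hn, Nat.card_eq_fintype_card, ← nsmul_eq_mul, ← Finset.card_univ,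
      ← Finset.sum_const]
    refine Finset.sum_congr rfl fun x _ => ?_
    rw [ex, ← Equiv.sum_comp (Equiv.addRight (⟨x, h.le v hv x.2⟩ : Γ))]
    refine Finset.sum_congr rfl fun y _ => Finset.sum_congr rfl fun t ht => ?_
    rw [Sel_congr fun w => ?_]
    simp only [Equiv.coe_addRight, AddSubgroup.coe_add, str]
    by_cases h1 : w = v
    · rw [h1, update_self, if_neg hv', add_assoc]
    rw [update_of_ne h1]
    simp only [str, Finset.mem_insert, h1, false_or]
    split_ifs with h2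
    · rfl
    obtain ⟨h3, h4⟩ := h.int v hv x x.2 w h1
    by_cases h5 : w ∈ Z
    · rw [← add_assoc, Cmp.Im_PW (h4 h5)]
    have h6 := h.pol y y.2 w
    rw [if_neg fun e => h5 (h.sub e)] at h6
    rw [h.out t ht w h5 _ (add_mem h6 h3), h.out t ht w h5 _ h6]
  have e2 : ∀ y : Γ, ∑ t ∈ G, |∑ x : V v, f (Nat.log 2 (Nat.card
      (Sel (P t) (update (str (insert v J) U (A t + y)) v (A t + y + x))))) -
      n * KK f (Nat.log 2 (Nat.card (Sel (P t) (str (insert v J) U (A t + y)))))| ≤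
      n * (10 * G.card / c + 6 * E) := fun y => by
    refine (Finset.sum_le_sum fun t ht => ?_).trans (b := ∑ t ∈ G, (4 / 3 * ∑ x : V v,
      (Nat.card (Sel (P t) (update (str (insert v J) U (A t + y)) v x)) : ℝ) -
      n * (Nat.card (Sel (P t) (str (insert v J) U (A t + y))) + 1) +
      (3 * Nat.card (Sel (P t) (str (insert v J) U (A t + y))) + 1))) ?_
    · obtain ⟨S, h1, h2⟩ := exists_goodOut (P t) (insert v J) U (A t + y)
      obtain ⟨h3, h4, h5⟩ := h.loc t ht v hv
      refine h2.step (h1 (by simp)) h3 (by simpa [str] using h5) (V v) (h.od v hv)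
        ⟨_, h.mem v hv, h5⟩ (add_mem (Fil.mono h4 (by omega)) ?_) hf
      simpa [hv] using h.pol y y.2 v
    have h1 := abs_le.1 (h.mean _ hJ' U (fun w hw => h.le w (hJ' hw) (h.mem w (hJ' hw))) y y.2)
    have h2 : ∑ t ∈ G, ∑ x : V v, (Nat.card (Sel (P t)
        (update (str (insert v J) U (A t + y)) v x)) : ℝ) ≤ n * (3 * G.card + E) := by
      rw [Finset.sum_comm, hn, Nat.card_eq_fintype_card, ← nsmul_eq_mul, ← Finset.card_univ]
      refine Finset.sum_le_card_nsmul _ _ _ fun x _ => ?_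
      have h3 := (abs_le.1 (h.mean _ hJ' (update U v x) (fun w hw => by
        by_cases e : w = v
        · rw [e, update_self]; exact h.le v hv x.2
        · rw [update_of_ne e]; exact h.le w (hJ' hw) (h.mem w (hJ' hw))) y y.2)).2
      rw [Finset.sum_sub_distrib, Finset.sum_const, nsmul_eq_mul] at h3
      rw [Finset.sum_congr rfl fun t _ => by
        rw [show update (str (insert v J) U (A t + y)) v x =
          str (insert v J) (update U v x) (A t + y) from funext fun w => by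
            by_cases e : w = v
            · simp [e, str]
            · simp [e, str]]]
      linarith
    rw [Finset.sum_sub_distrib, Finset.sum_const, nsmul_eq_mul] at h1
    simp only [Finset.sum_sub_distrib, Finset.sum_add_distrib, ← Finset.mul_sum, Finset.sum_const,
      nsmul_eq_mul, mul_one]
    have h3 : 10 * (G.card : ℝ) ≤ n * (10 * G.card / c) := by
      rw [← mul_div_assoc, le_div_iff₀ (by linarith), mul_comm n]
      gcongr
    nlinarith [mul_le_mul_of_nonneg_left h1.1 (show 0 ≤ n by linarith),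
      mul_le_mul_of_nonneg_right (hc1.trans hc) hE]
  have hn0 : 0 < n := by linarith
  refine le_of_mul_le_mul_left ?_ hn0
  rw [← abs_of_pos hn0, ← abs_mul, abs_of_pos hn0, mul_sub, e1, ex, Finset.mul_sum,
    ← Finset.sum_sub_distrib, mul_left_comm, Nat.card_eq_fintype_card (α := Γ), ← nsmul_eq_mul,
    ← Finset.card_univ]
  refine (Finset.abs_sum_le_sum_abs _ _).trans (Finset.sum_le_card_nsmul _ _ _ fun y _ => ?_)
  rw [Finset.mul_sum, ← Finset.sum_sub_distrib]
  exact (Finset.abs_sum_le_sum_abs _ _).trans (e2 y)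

lemma steps (hf : ∀ r, 0 ≤ f r ∧ f r ≤ 1) (hJ : J ⊆ R) :
    |ex G P A Γ U ∅ f - ex G P A Γ U J (KK^[J.card] f)| ≤
      J.card * (Nat.card Γ * (10 * G.card / c + 6 * E)) := by
  induction J using Finset.induction_on with
  | empty => simp
  | insert v J hv ih =>
    have h1 := h.step ((Finset.subset_insert _ _).trans hJ) (hJ (Finset.mem_insert_self _ _)) hv
      (iter hf J.card).1
    rw [Finset.card_insert_of_notMem hv, Function.iterate_succ_apply', Nat.cast_succ, add_mul,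
      one_mul]
    exact (abs_sub_le _ _ _).trans (add_le_add (ih ((Finset.subset_insert _ _).trans hJ)) h1)

theorem law (S : Set ℕ) : |∑ t ∈ G, (∑ y : Γ, (if ∃ r ∈ S, Nat.card (Two.Sel (P t) (A t + y)) = 2 ^ r
    then 1 else 0) - Nat.card Γ * lawS S)| ≤ Nat.card Γ *
      ((6 * (3 / 4) ^ R.card + R.card * (10 / c)) * G.card + (6 * R.card + 1) * E) := by
  have h1 := h.steps (ind_mem S) subset_rfl
  have hE : 0 ≤ E := (abs_nonneg _).trans (h.mean ∅ (by simp) 0 (by simp) 0 (zero_mem _))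
  have e1 : ex G P A Γ U ∅ (S.indicator 1) = ∑ t ∈ G, ∑ y : Γ,
      (if ∃ r ∈ S, Nat.card (Two.Sel (P t) (A t + y)) = 2 ^ r then 1 else 0) := by
    rw [ex, Finset.sum_comm]
    refine Finset.sum_congr rfl fun t _ => Finset.sum_congr rfl fun y _ => ?_
    obtain ⟨r, hr⟩ := str_pow (P t) ∅ U (A t + y)
    rw [show Two.Sel (P t) (A t + y) = Sel (P t) (str ∅ U (A t + y)) by
      ext x; simp [mem_Sel, Two.mem_Sel, str], hr, Nat.log_pow one_lt_two, Set.indicator_apply]
    simp
  have h2 : |ex G P A Γ U R (KK^[R.card] (S.indicator 1)) - G.card * (Nat.card Γ * lawS S)| ≤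
      Nat.card Γ * ((3 / 4) ^ R.card * (6 * G.card + E)) := by
    rw [ex, mul_left_comm, Nat.card_eq_fintype_card, ← nsmul_eq_mul, ← nsmul_eq_mul,
      ← Finset.card_univ, ← Finset.sum_const, ← Finset.sum_sub_distrib]
    refine (Finset.abs_sum_le_sum_abs _ _).trans
      ((Finset.sum_le_card_nsmul _ _ _ fun y _ => ?_).trans_eq (nsmul_eq_mul _ _))
    have h3 := (abs_le.1 (h.mean R subset_rfl U (fun w hw => h.le w hw (h.mem w hw)) y y.2)).2
    rw [← Finset.sum_const, ← Finset.sum_sub_distrib]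
    refine (Finset.abs_sum_le_sum_abs _ _).trans ((Finset.sum_le_sum
      (g := fun t => (3 / 4) ^ R.card * (((Nat.card (Sel (P t) (str R U (A t + y))) : ℝ) - 3) + 6))
      fun t _ => ?_).trans ?_)
    · obtain ⟨r, hr⟩ := str_pow (P t) R U (A t + y)
      rw [hr, Nat.log_pow one_lt_two]
      exact (conv (ind_mem S) _ _).trans_eq (by push_cast; ring)
    rw [← Finset.mul_sum, Finset.sum_add_distrib, Finset.sum_const, nsmul_eq_mul]
    exact mul_le_mul_of_nonneg_left (by linarith) (by positivity)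
  rw [Finset.sum_sub_distrib, Finset.sum_const, nsmul_eq_mul, ← e1]
  refine ((abs_sub_le _ _ _).trans (add_le_add h1 h2)).trans ?_
  have h3 : (3 / 4 : ℝ) ^ R.card * E ≤ E :=
    mul_le_of_le_one_left hE (pow_le_one₀ (by norm_num) (by norm_num))
  have h4 := mul_le_mul_of_nonneg_left h3 (Nat.cast_nonneg (α := ℝ) (Nat.card Γ))
  refine le_of_sub_nonneg (le_of_le_of_eq (sub_nonneg.2 h4) (by ring))

end Fam

end Pool.Agent.Lib.MP_a3f657_nt.Two.Vir
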