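import Pool.Agent.Lib.MP_a3f657_nt.PR.Cell
import Pool.Agent.Lib.MP_a3f657_nt.C2XInv

/-!
The law of the twists on average over all curves.
-/

set_option linter.unusedSectionVars false
set_option maxHeartbeats 400000

namespace Pool.Agent.Lib.MP_a3f657_nt.Two.Vir

open Polynomial IsDedekindDomain WeierstrassCurve Bad Avg Filter

open scoped Classical

variable {k : Type} [Field k] [Fintype k] [CharP k 2] {R : Finset (HeightOneSpectrum k[X])}
  {u : HeightOneSpectrum k[X]} {d : ℕ}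

lemma mem_of_res {x : RatFunc k} (hx : x ∈ Fil (val (some u)) 0)
    (h : ∀ y ∈ Gam {u}, res (some u) (y * x) = 0) : x ∈ Fil (val (some u)) 1 := by
  refine (pl (some u)).mem_of_r (a := -1) fun y hy => ?_
  have h1 : y * (PX k).D (unif (some u)) ∈ Fil (val (some u)) (-1) :=
    Fil.mul hy (mem_Fil_ord _) (by rw [ord_D_unif]; rfl)
  have h2 := res_some_int (Fil.mul (pp_spec u (y * (PX k).D (unif (some u)))) hx le_rfl)
  rwa [sub_mul, map_sub, h _ (pp_mem_Gam h1), sub_zero, mul_comm, ← mul_assoc, ← pl_r] at h2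

lemma card_perp {V : AddSubgroup (RatFunc k)} (hV : V ≤ Gam {u}) :
    ((PL k (gen u).natDegree).filter fun c => ∀ y ∈ V, res (some u) (y * ι c) = 0).card *
      Nat.card V ≤ Fintype.card k ^ (gen u).natDegree := by
  have h1 := card_ann (V := Gam {u}) (fun x => Subtype.ext (two_K _)) (V.addSubgroupOf (Gam {u}))
  have h2 := (card_Gam_le {u}).2
  have : Finite (Gam {u} →+ ZMod 2) := DFunLike.finite _
  rw [Finset.prod_singleton, ← h1,
    Nat.card_congr (AddSubgroup.addSubgroupOfEquivOfLe hV).toEquiv] at h2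
  refine le_trans (Nat.mul_le_mul_right _ ?_) h2
  obtain ⟨φ, hφ⟩ : ∃ φ : k[X] → Gam {u} →+ ZMod 2, ∀ c y, φ c y = res (some u) (y.1 * ι c) :=
    ⟨fun c => (res (some u)).comp ((AddMonoidHom.mulRight (ι c)).comp (Gam {u}).subtype),
      fun _ _ => rfl⟩
  rw [← Nat.card_eq_finsetCard]
  refine Nat.card_le_card_of_injective (fun c => ⟨φ c.1, fun y hy => (hφ _ _).trans
    ((Finset.mem_filter.1 c.2).2 y.1 (AddSubgroup.mem_addSubgroupOf.1 hy))⟩) fun c c' e =>
      Subtype.ext (PL_eq (Finset.mem_filter.1 c.2).1 (Finset.mem_filter.1 c'.2).1 (ι_mem_one.1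
      (mem_of_res (ι_int _ _) fun y hy => ?_)))
  have h3 : φ c.1 = φ c'.1 := congrArg Subtype.val e
  have h4 := (hφ c.1 ⟨y, hy⟩).symm.trans (h3 ▸ hφ c'.1 ⟨y, hy⟩)
  rw [ι, map_sub, mul_sub, map_sub, h4, sub_self]

lemma bd_der (c : k[X]) (hd : (gen u).natDegree ≤ d) :
    Bd (fun a : WeierstrassCurve k[X] => DegLE a d ∧ ¬ gen u ∣ a.a₁ ∧
      gen u ∣ derivative a.Δ + c * a.Δ) ((DD k d).card / Fintype.card k ^ (gen u).natDegree) := by
  refine bd_transl (PL k (gen u).natDegree)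
    (fun z a => ⟨a.a₁, a.a₂, a.a₃, a.a₄, a.a₆ + gen u * z⟩) _
    (by positivity) (by rw [card_PL]; norm_cast) (fun z hz a h => mem_DD.2 ⟨h.1.1, h.1.2.1,
      h.1.2.2.1, h.1.2.2.2.1, natDegree_add_le_of_degree_le h.1.2.2.2.2 (natDegree_mul_le.trans ?_)⟩)
    fun z hz z' hz' a a' h h' e => ?_
  · rcases mem_PL_iff.1 hz with rfl | h1
    exacts [by rw [natDegree_zero]; omega, by omega]
  simp only [WeierstrassCurve.mk.injEq] at e
  obtain ⟨e1, e2, e3, e4, e6⟩ := e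
  have h0 : a'.Δ = a.Δ + gen u * (a.a₁ ^ 6 * (z - z')) := by
    rw [disc, disc, ← e1, ← e2, ← e3, ← e4]; linear_combination -a.a₁ ^ 6 * e6
  have h1 : gen u ∣ derivative (gen u) * (a.a₁ ^ 6 * (z - z')) := by
    have h2 := dvd_sub h'.2.2 h.2.2
    rw [h0, derivative_add, derivative_mul] at h2
    generalize a.a₁ ^ 6 * (z - z') = w at h2 ⊢
    refine (dvd_add_left (dvd_mul_right _ (derivative w + c * w))).1 ?_
    convert h2 using 1
    ring
  obtain rfl := PL_eq hz hz' (((gen_prime u).dvd_or_dvd (((gen_prime u).dvd_or_dvd h1).resolve_left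
    (not_gen_dvd_derivative u))).resolve_left fun e => h.2.1 ((gen_prime u).dvd_of_dvd_pow e))
  exact ⟨rfl, WeierstrassCurve.ext e1 e2 e3 e4 (add_right_cancel e6)⟩

lemma bd_rho {V : AddSubgroup (RatFunc k)} (hV : V ≤ Gam {u}) (hd : (gen u).natDegree ≤ d) {c : ℕ}
    (h0 : 0 < c) (hc : c ≤ Nat.card V) :
    Bd (fun a : WeierstrassCurve k[X] => DegLE a d ∧ ¬ gen u ∣ a.a₁ ∧ ¬ gen u ∣ a.Δ ∧
      ∀ y ∈ V, res (some u) (y * ld a.Δ) = 0) ((DD k d).card / c) := by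
  have h1 := (Nat.cast_le (α := ℝ)).2 ((Nat.mul_le_mul_left _ hc).trans (card_perp hV))
  refine ((Bd.union ((PL k (gen u).natDegree).filter fun c => ∀ y ∈ V,
    res (some u) (y * ι c) = 0) fun c _ => bd_der c hd).mono fun a ha => ?_).le ?_
  · obtain ⟨g, h2, h3⟩ := exists_rep u (div_int (derivative a.Δ) ha.2.2.1)
    refine ⟨g, Finset.mem_filter.2 ⟨mem_PL.2 (by rwa [← degree_eq_natDegree (gen_ne u)]),
      fun y hy => ?_⟩, ha.1, ha.2.1, ι_mem_one.1 ?_⟩
    · have h4 := res_some_int (Fil.mul (Gam_neg (hV hy) _) h3 (by omega))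
      rwa [mul_add, map_add, ← ld, ha.2.2.2 y hy, zero_add] at h4
    · have h4 := Fil.mul h3 (ι_int u a.Δ) le_rfl
      rwa [add_mul, div_mul_cancel₀ _ (ι_ne fun e : a.Δ = 0 => ha.2.2.1 (e ▸ dvd_zero _)), ι, ι, ι, ← map_mul,
        ← map_add] at h4
  rw [Finset.sum_const, nsmul_eq_mul, ← mul_div_assoc,
    div_le_div_iff₀ (by positivity) (by positivity), mul_right_comm, mul_comm]
  push_cast at h1
  gcongr

lemma bd_TG {T₁ T β c : ℕ} (h0 : 0 < c) (hc : ∀ u ∈ R, c ≤ (gen u).natDegree ∧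
    c ≤ Nat.card (VV (ZR R T₁) u) ∧ (gen u).natDegree ≤ d) :
    Bd (fun a : WeierstrassCurve k[X] => DegLE a d ∧ ¬ TG R T₁ T a)
      ((Avg.BB k T₁ β d).card + R.card * (3 * ((DD k d).card / c))) := by
  have h3 : Bd (fun a => a ∈ Avg.BB k T₁ β d) (Avg.BB k T₁ β d).card := fun B hB =>
    Nat.cast_le.2 (Finset.card_le_card hB)
  refine ((h3.or (Bd.union R fun u hu => ((bd_one h0 (hc u hu).1 (hc u hu).2.2).or
    (bd_two h0 (hc u hu).1 (hc u hu).2.2)).or (bd_rho (V := VV (ZR R T₁) u) inf_le_left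
      (hc u hu).2.2 h0 (hc u hu).2.1))).mono fun a ha => ?_).le (by simp; ring_nf; rfl)
  by_contra hn
  rw [not_or] at hn
  have h1 : GoodT T₁ β d a ∧ GoodN T₁ a ∧ GoodQ T₁ a :=
    by_contra fun e => hn.1 (Finset.mem_filter.2 ⟨mem_DD.2 ha.1, e⟩)
  refine ha.2 ⟨h1.2.1, fun p p1 p2 p3 _ => h1.2.2 p p1 p2 p3, fun u hu => ?_⟩
  have h4 : ¬ gen u ∣ a.a₁ := fun e => hn.2 ⟨u, hu, Or.inl (Or.inl ⟨ha.1, e⟩)⟩
  have h5 : ¬ gen u ∣ a.Δ := fun e => hn.2 ⟨u, hu, Or.inl (Or.inr ⟨ha.1, h4, e⟩)⟩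
  refine ⟨h4, h5, by_contra fun e => hn.2 ⟨u, hu, Or.inr ⟨ha.1, h4, h5, fun y hy => ?_⟩⟩⟩
  exact by_contra fun e' => e ⟨y, hy, e'⟩

lemma exists_TG (k : Type) [Field k] [Fintype k] [CharP k 2] (m : ℕ) {η : ℝ} (hη : 0 < η) :
    ∃ T₁ c D : ℕ, 1 ≤ c ∧ m * (10 / c) ≤ η ∧ ∀ R : Finset (HeightOneSpectrum k[X]), R.card = m →
      (∀ u ∈ R, D < (gen u).natDegree) → (∀ u ∈ R, c ≤ Nat.card (VV (ZR R T₁) u)) ∧
        ∀ T, ∀ᶠ d : ℕ in atTop, Bd (fun a : WeierstrassCurve k[X] => DegLE a d ∧ ¬ TG R T₁ T a)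
          (η * (Fintype.card k : ℝ) ^ (16 * d)) := by
  obtain ⟨T₁, β, -, h1⟩ := badSmall k (η / 2) (by positivity) 0
  have hq : (1 : ℝ) ≤ (Fintype.card k : ℝ) ^ 5 := one_le_pow₀ (one_le_two.trans two_le_q)
  obtain ⟨c, hc⟩ := exists_nat_gt (m * 10 * (Fintype.card k : ℝ) ^ 5 / η)
  have h2 : (0 : ℝ) < c := lt_of_le_of_lt (by positivity) hc
  have h3 : 0 < c := Nat.cast_pos.1 h2
  rw [div_lt_iff₀ hη] at hc
  have hm : (0 : ℝ) ≤ m := Nat.cast_nonneg _
  refine ⟨T₁, c, c + (SgT k T₁).card + m, h3, ?_, fun R hR h4 => ?_⟩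
  · rw [← mul_div_assoc, div_le_iff₀ h2]
    nlinarith
  have h5 : ∀ u ∈ R, c ≤ Nat.card (VV (ZR R T₁) u) := fun u hu => by
    have h6 : (ZR R T₁).card ≤ (SgT k T₁).card + m :=
      (Finset.card_union_le _ _).trans (add_le_add le_rfl (Finset.card_image_le.trans hR.le))
    have h7 := h4 u hu
    refine Nat.lt_two_pow_self.le.trans (Nat.le_of_mul_le_mul_right (le_trans ?_
      (card_VV (ZR R T₁) u)) (pow_pos two_pos _))
    rw [← pow_add]
    exact Nat.pow_le_pow_right two_pos (by omega)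
  refine ⟨h5, fun T => ?_⟩
  filter_upwards [h1, eventually_ge_atTop (R.sup fun u => (gen u).natDegree)] with d h6 h7
  rw [coe_BB, Set.ncard_coe_finset] at h6
  refine (bd_TG (β := β) h3 fun u hu => ⟨by have := h4 u hu; omega, h5 u hu,
    (Finset.le_sup (f := fun u => (gen u).natDegree) hu).trans h7⟩).le ?_
  rw [card_DD, hR, ← mul_div_assoc, ← mul_div_assoc, ← le_sub_iff_add_le', div_le_iff₀ h2]
  push_cast
  rw [pow_add]
  have h8 : (0 : ℝ) < (Fintype.card k : ℝ) ^ (16 * d) := pow_pos q_pos _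
  nlinarith [mul_le_mul_of_nonneg_left h6 h2.le, mul_le_mul_of_nonneg_left hc.le h8.le,
    mul_nonneg (mul_nonneg hm h8.le) (zero_le_one.trans hq)]

lemma le_tup (hd : 1 ≤ d) : (Fintype.card k : ℝ) ^ (16 * d) ≤
    4 * tupNum (k := k) (fun _ => True) d := by
  obtain ⟨d, rfl⟩ : ∃ e, d = e + 1 := ⟨d - 1, by omega⟩
  have h1 := (Nat.cast_le (α := ℝ)).2
    (Nat.mul_le_mul (le_card_Mcl (k := k) d) (le_card_Grp (k := k) (d + 1)))
  rw [tup_real fun _ _ => Iff.rfl]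
  push_cast at h1
  refine le_of_mul_le_mul_right (le_of_eq_of_le (by ring) (h1.trans ?_)) (pow_pos (q_pos (k := k)) 3)
  exact le_of_eq (by ring)

lemma sel_tw (y : RatFunc k) (C : VariableChange (RatFunc k)) (W : WeierstrassCurve (RatFunc k)) :
    selOrder (tw y (C • W)) = selOrder (tw y W) := by
  rw [← tw_smul]
  exact (Exc.Inv.rel_smul C _).selOf _ _

lemma dens_side {T₁ c : ℕ} {η σ : ℝ} (hη : 0 < η) (hσ : |σ| = 1) (hc : 1 ≤ c)
    (h1 : R.card * (10 / c) ≤ η) (h2 : ∀ u ∈ R, c ≤ Nat.card (VV (ZR R T₁) u))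
    (h3 : ∀ T, ∀ᶠ d : ℕ in atTop, Bd (fun a : WeierstrassCurve k[X] => DegLE a d ∧ ¬ TG R T₁ T a)
      (η * (Fintype.card k : ℝ) ^ (16 * d))) (S : Set ℕ) : ∀ᶠ d : ℕ in atTop,
    σ * (∑ y : Gam R, dens (fun W => ∃ r ∈ S, selOrder (tw y.1 W) = 2 ^ r) d -
      Nat.card (Gam R) * lawS S) ≤
      Nat.card (Gam R) * (6 * (3 / 4) ^ R.card + 6 * η) := by
  set n : ℝ := (Nat.card (Gam R) : ℝ) with hn
  have hn0 : 0 < n := Nat.cast_pos.2 Nat.card_pos
  set θ : ℝ := 6 * (3 / 4) ^ R.card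
  have hθ : 0 ≤ θ := by positivity
  refine (transfer k (Gam R) Finset.univ (fun y W => ∃ r ∈ S, selOrder (tw y.1 W) = 2 ^ r)
    (fun _ => σ)
    (n * (σ * lawS S + θ + 5 * η)) (fun y C W => by rw [sel_tw]) (fun ε hε => ?_) (n * η)
    (by positivity)).mono fun d hd => by rw [← Finset.mul_sum] at hd; linarith
  obtain ⟨T₀, h4⟩ := vm cellAn' k
  set q : ℝ := (Fintype.card k : ℝ)
  have hq : 0 < q := q_pos
  have hε' : 0 ≤ ε / 2 / q ^ 5 := by positivity
  obtain ⟨T, β, h5, h6⟩ := badSmall k (ε / 2 / (n * (1 + θ + η))) (by positivity)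
    (max T₀ (max T₁ (R.sup fun u => (gen u).natDegree)))
  simp only [max_le_iff, Finset.sup_le_iff] at h5
  filter_upwards [h3 T, h6, h4 T h5.1 (β + 1) (ε / 2 / q ^ 5 / (n * (6 * R.card + 1))) (by omega)
    (by positivity), eventually_ge_atTop (RR (β + 1)), eventually_ge_atTop 1] with d h7 h8 h9 h10 h11
  set g : WeierstrassCurve k[X] → ℝ := fun a => ∑ y : Gam R,
    (if ∃ r ∈ S, selOrder (tw y.1 (bc a)) = 2 ^ r then 1 else 0) - n * lawS S with hg
  have g1 : ∀ a, |σ * g a| ≤ n := fun a => by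
    have e1 : 0 ≤ lawS S ∧ lawS S ≤ 1 := law_mem (ind_mem S)
    have e2 : (0 : ℝ) ≤ ∑ y : Gam R, (if ∃ r ∈ S, selOrder (tw y.1 (bc a)) = 2 ^ r then 1 else 0) :=
      Finset.sum_nonneg fun _ _ => by positivity
    have e3 : ∑ y : Gam R, (if ∃ r ∈ S, selOrder (tw y.1 (bc a)) = 2 ^ r then 1 else 0) ≤ n := by
      rw [Finset.sum_boole, hn, Nat.card_eq_fintype_card]
      exact_mod_cast Finset.card_le_univ _
    rw [abs_mul, hσ, one_mul, abs_le]
    constructor <;> nlinarith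
  have g0 : ∀ N : ℝ, n * ((6 * R.card + 1) * (ε / 2 / q ^ 5 / (n * (6 * R.card + 1)) * N)) =
      ε / 2 / q ^ 5 * N := fun N => by field_simp
  have g7 : ∀ x : ℝ, σ * x ≤ |x| := fun x => (le_abs_self _).trans_eq (by rw [abs_mul, hσ, one_mul])
  have g2 := cellSum h10 (fun a => if TG R T₁ T a then σ * g a - n * (θ + η) else 0)
    hε' fun a a1 a2 a3 => by
      by_cases h : TG R T₁ T a
      swap
      · refine (Finset.sum_eq_zero fun t _ => if_neg fun e => h ?_).trans_le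
          (mul_nonneg hε' (Nat.cast_nonneg _))
        exact Red.shift_shift T (β + 1) a t ▸ e.shift (β := β + 1) h5.2.2 t
      have e1 := cell_law h10 a1 a2 h h5.2.1 h5.2.2 (Nat.one_le_cast.2 hc)
        (fun u hu => Nat.cast_le.2 (h2 u hu)) (h9 a a1 a2 a3) S
      rw [Finset.sum_congr rfl fun t _ => if_pos (h.shift h5.2.2 t), Finset.sum_sub_distrib,
        ← Finset.mul_sum, Finset.sum_const, nsmul_eq_mul]
      rw [mul_add, g0] at e1
      have e3 := (g7 _).trans e1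
      have e2 := mul_le_mul_of_nonneg_right (mul_le_mul_of_nonneg_left h1 hn0.le) (Nat.cast_nonneg
        ((cell T (β + 1) d a).filter fun t => GoodQ T (shift T (β + 1) a t)).card)
      linarith
  have g3 : ∑ a ∈ Avg.BB k T (β + 1) d, |if TG R T₁ T a then σ * g a - n * (θ + η) else 0| ≤
      ε / 2 * q ^ (16 * d) := by
    rw [coe_BB, Set.ncard_coe_finset] at h8
    refine (Finset.sum_le_card_nsmul _ _ (n * (1 + θ + η)) fun a _ => ?_).trans ?_
    · split_ifs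
      · refine (abs_sub _ _).trans ?_
        rw [abs_of_nonneg (by positivity : 0 ≤ n * (θ + η))]
        linarith [g1 a]
      · rw [abs_zero]; positivity
    rw [nsmul_eq_mul]
    refine (mul_le_mul_of_nonneg_right ((Nat.cast_le.2 (Finset.card_le_card
      (BB_mono T d (Nat.le_succ β)))).trans h8) (by positivity)).trans_eq (by field_simp; rfl)
  have g4 := h7 ((DD k d).filter fun a => ¬ TG R T₁ T a) fun a ha =>
    ⟨mem_DD.1 (Finset.mem_filter.1 ha).1, (Finset.mem_filter.1 ha).2⟩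
  have g5 := le_tup (k := k) h11
  have g6 : ∑ y : Gam R, σ * (tupNum (fun W => ∃ r ∈ S, selOrder (tw y.1 W) = 2 ^ r) d : ℝ) -
      n * (σ * lawS S + θ + η) * tupNum (k := k) (fun _ => True) d ≤ ∑ a ∈ DD k d,
        ((if MinTup a d then if TG R T₁ T a then σ * g a - n * (θ + η) else 0 else 0) +
          n * if ¬ TG R T₁ T a then 1 else 0) := by
    simp only [Red.tupNum_eq, Finset.mul_sum]
    rw [Finset.sum_comm, ← Finset.sum_sub_distrib]
    refine Finset.sum_le_sum fun a _ => ?_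
    by_cases e : MinTup a d
    · simp only [e, true_and, if_true, ← Finset.mul_sum]
      have := le_of_abs_le (g1 a)
      have : 0 ≤ n * (θ + η) := by positivity
      simp only [hg] at *
      split_ifs <;> linarith
    · simp only [e, false_and, if_false]
      simp
      positivity
  rw [Finset.sum_add_distrib, ← Finset.mul_sum _ _ n, Finset.sum_boole] at g6
  rw [show ε / 2 / q ^ 5 * (q ^ 5 * q ^ (16 * d)) = ε / 2 * q ^ (16 * d) by field_simp] at g2
  linarith [mul_le_mul_of_nonneg_left (g4.trans (mul_le_mul_of_nonneg_left g5 hη.le)) hn0.le]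

variable (R) in
/-- Good ordinary reduction at all places of `R`. -/
def GO (W : WeierstrassCurve (RatFunc k)) : Prop := ∀ u ∈ R, W.a₁ ≠ 0 ∧
  ord (val (some u)) (nB W) = 0 ∧ ∃ c, nA W + wp c ∈ Fil (val (some u)) 0

lemma GO.smul {W : WeierstrassCurve (RatFunc k)} (h : GO R W) (C : VariableChange (RatFunc k)) :
    GO R (C • W) := fun u hu => by
  obtain ⟨h1, h2, c, h3⟩ := h u hu
  obtain ⟨h4, h5, h6⟩ := nA_smul h1 C
  exact ⟨h4, h5 ▸ h2, C.s / W.a₁ + c, by rwa [h6, wp_add, add_assoc, ← add_assoc (wp _), two_K, zero_add]⟩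

theorem dens_law (k : Type) [Field k] [Fintype k] [CharP k 2] (m : ℕ) {η : ℝ} (hη : 0 < η) :
    ∃ D : ℕ, ∀ R : Finset (HeightOneSpectrum k[X]), R.card = m →
      (∀ u ∈ R, D < (gen u).natDegree) →
      (∀ᶠ d : ℕ in atTop, (num (fun W => ¬ GO R W) d : ℝ) ≤ η * num (k := k) (fun _ => True) d) ∧
      ∀ S : Set ℕ, ∀ᶠ d : ℕ in atTop,
        |∑ y : Gam R, dens (fun W => ∃ r ∈ S, selOrder (tw y.1 W) = 2 ^ r) d -
        Nat.card (Gam R) * lawS S| ≤ Nat.card (Gam R) * (6 * (3 / 4) ^ m + η) := by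
  obtain ⟨T₁, c, D, h1, h2, h3⟩ := exists_TG k m (η := η / 16) (by positivity)
  refine ⟨D, fun R hR h4 => ?_⟩
  obtain ⟨h5, h6⟩ := h3 R hR h4
  subst hR
  refine ⟨?_, fun S => ?_⟩
  · filter_upwards [h6 0, eventually_ge_atTop 1] with d h7 h8
    have h9 := (Nat.cast_le (α := ℝ)).2 (Exc.SumA.num_le (k := k) (P := fun W => ¬ GO R W)
      (fun C W _ h h' => h (by simpa using h'.smul C⁻¹)) d)
    have h10 := (h7.mono (P := fun a => DegLE a d ∧ a.Δ ≠ 0 ∧ ¬ GO R (bc a)) fun a ha =>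
      ⟨ha.1, fun e => ha.2.2 fun u hu => by
        obtain ⟨e1, e2, -⟩ := e.2.2 u hu
        have e3 : a.a₁ ≠ 0 := fun e => e1 (e ▸ dvd_zero _)
        exact ⟨ι_ne e3, by
          rw [nB_bc, ord_div (ι_ne ha.2.1) (ι_ne (pow_ne_zero _ e3)), ord_ι_pow, ord_ι_unit e1,
            ord_ι_unit e2]
          rfl, 0, by simpa using nA_int e1⟩⟩).ncard
    have h11 := num_true_ge (k := k) h8
    push_cast at h9
    have hq : (0 : ℝ) < Fintype.card k := q_pos
    generalize (Fintype.card k : ℝ) = q at *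
    refine le_of_mul_le_mul_right (h9.trans ?_) (pow_pos hq (6 * d + 3))
    calc _ ≤ 8 * (η / 16 * (q ^ (10 * d) * q ^ (6 * d))) := by
          rw [← pow_add, show 10 * d + 6 * d = 16 * d by ring]; gcongr
      _ ≤ 8 * (η / 16 * (2 * q ^ 3 * num (k := k) (fun _ => True) d * q ^ (6 * d))) := by gcongr
      _ = _ := by ring
  filter_upwards [dens_side (σ := 1) (by positivity) abs_one h1 h2 h5 h6 S,
    dens_side (σ := -1) (by positivity) (by simp) h1 h2 h5 h6 S] with d h7 h8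
  have : 0 ≤ Nat.card (Gam R) * η := by positivity
  rw [abs_le]
  constructor <;> linarith

end Pool.Agent.Lib.MP_a3f657_nt.Two.Vir
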