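import Pool.Agent.Lib.MP_a3f657_nt.C2Ga

/-!
Local conditions of wildly ramified twists.
-/

set_option linter.unusedSectionVars false

namespace Pool.Agent.Lib.MP_a3f657_nt.Two

open scoped Classical

section K

variable {K : Type} [Field K] [CharP K 2] {L : PreLoc K} {P : PB K} {A α : K}

lemma AA_ram (hB : ord L.w P.b = 0) (hA : ∀ c, A + wp c ∉ Fil L.w 0) (h : α ∈ AA P A) :
    α ∈ L.PW ∨ α + A ∈ L.PW := by
  have hb := P.b_ne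
  obtain ⟨u, h⟩ := mem_AA.1 h
  rcases mem_Lt.1 h with rfl | ⟨x, l, l', hx, hl, hl', rfl⟩
  · exact Or.inl (L.wp_mem_PW _)
  have hBx : ord L.w (P.b / x ^ 2) = -2 * ord L.w x := by
    rw [ord_div hb (pow_ne_zero 2 hx), ord_sq]; omega
  rcases lt_trichotomy (ord L.w x) 0 with h0 | h0 | h0
  · exact Or.inl (L.mem_PW.2 ⟨l', by
      rw [hl', ← add_assoc, two_K, zero_add]; exact mem_Fil_of_le (by omega)⟩)
  · refine absurd ?_ (hA l)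
    rw [hl, show A + (x + A + P.b / x ^ 2) = x + P.b / x ^ 2 by grind]
    exact add_mem (mem_Fil_of_le (by omega)) (mem_Fil_of_le (by omega))
  · refine Or.inr (L.mem_PW.2 ⟨l + l', ?_⟩)
    rw [wp_add, hl, hl', show α + A + (x + A + P.b / x ^ 2 + (α + P.b / x ^ 2)) = x by grind]
    exact mem_Fil_of_le (by omega)

lemma exists_Ht_cpl (hc : Cpl L.w) (h : L.rho P α = 0) : ∃ u, (α, u) ∈ Ht P := by
  have hb := L.P.b_ne
  obtain ⟨z, hz⟩ := L.exists_cart (y := L.P.c1 (α * L.P.dlg P.b)) (by rw [L.r_c1]; exact h)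
  obtain ⟨y, -, hy⟩ := hc.exists_wp (Fil.mul L.π_mem hz (c := 1) (by omega)) le_rfl
  obtain ⟨u, hu⟩ : ∃ u, z + L.P.b * (y / L.P.b) ^ 2 = u * L.P.dlg P.b :=
    ⟨_ / _, (div_mul_cancel₀ _ (dlg_ne _ P)).symm⟩
  have e : u * L.P.dlg P.b + L.P.c1 (u * L.P.dlg P.b) = L.P.c1 (α * L.P.dlg P.b) := by
    rw [← hu, PB.c1_add, PB.c1_b_sq]
    have : L.P.b * (y / L.P.b) ^ 2 + y / L.P.b = wp y / L.P.b := by unfold wp; field_simp
    rw [hy, mul_div_cancel_left₀ _ hb] at this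
    grind
  refine ⟨u, ?_⟩
  rw [c1_mul_dlg, c1_mul_dlg, ← add_mul, mul_left_inj' (dlg_ne _ P)] at e
  rw [mem_Ht, PB.c0_add, PB.c0_wp, e, two_K]

lemma self_mem_AA (hc : Cpl L.w) (hB : ord L.w P.b = 0) (hA : ∀ c, A + wp c ∉ Fil L.w 0)
    (h : L.rho P A = 0) : A ∈ AA P A := by
  obtain ⟨u, hu⟩ := exists_Ht_cpl hc h
  have e := P.eq_b_sq (mem_Ht.1 hu)
  generalize P.c1 (A + wp u) = s at e
  have h1 : s ∉ Fil L.w 0 := fun h1 =>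
    hA u (e ▸ Fil.mul (mem_Fil_of_le hB.ge) (Fil.sq h1 le_rfl) (by omega))
  obtain ⟨h2, h3⟩ := not_mem_Fil.1 h1
  obtain ⟨z, -, hz⟩ := hc.exists_wp (x := s⁻¹) (a := 1)
    (mem_Fil_of_le (by rw [ord_inv]; omega)) le_rfl
  have e2 : P.b / s⁻¹ ^ 2 = P.b * s ^ 2 := by field_simp
  exact mem_AA.2 ⟨_, mem_Lt.2 (Or.inr ⟨s⁻¹, u + z, u, inv_ne_zero h2,
    by rw [wp_add, hz, e2, ← e]; grind, by rw [e2, ← e]; grind, rfl⟩)⟩

lemma exists_rho_ne (L : PreLoc K) (P : PB K) : ∃ A, L.rho P A ≠ 0 := by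
  by_contra h
  push Not at h
  refine dlg_ne L.P P (eq_zero_of_Fil (w := L.w) fun n => ?_)
  simpa using L.mem_of_r (x := L.P.dlg P.b) (a := -n) fun y _ => by
    rw [mul_comm]; exact h y

end K

namespace Cmp

variable {F : Type} [Field F] [CharP F 2] {L : PreLoc F} {C : Cmp L} {P : PB F}
  {A A' a α s s' : F}

lemma LL_PW (h : a ∈ L.PW) : LL (C.Q P) (C.f (A + a)) = LL (C.Q P) (C.f A) := by
  obtain ⟨z, hz⟩ := C.L'.PW_eq C.h.cpl ▸ C.h.mem_PW.2 h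
  rw [map_add, ← hz, wpH_apply, LL_wp]

lemma Im_PW (h : a ∈ L.PW) : C.Im P (A + a) = C.Im P A := by rw [Im, LL_PW h, Im]

lemma ram_aux (hA : ∀ c, A + wp c ∉ Fil L.w 0) (c : C.K) : C.f A + wp c ∉ Fil C.L'.w 0 :=
  fun h => (approx_wp le_rfl h).elim hA

lemma ord_Q : ord C.L'.w (C.Q P).b = ord L.w P.b := by rw [C.Q_b, C.h.ord_eq]

lemma AA_ram (hB : ord L.w P.b = 0) (hA : ∀ c, A + wp c ∉ Fil L.w 0) (h : α ∈ C.AA P A) :
    α ∈ L.PW ∨ α + A ∈ L.PW := by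
  simpa only [← map_add, C.h.mem_PW] using Two.AA_ram (ord_Q.trans hB) (ram_aux hA) (mem_AA'.1 h)

lemma AA_U (hB : ord L.w P.b = 0) (h : L.rho P A ≠ 0) : C.AA P A = L.PW := by
  have h1 : (1 : F) ∈ Log P := BB_le_Log (one_mem_BB (C := C) (A := A))
  have h2 : ∀ x ∈ L.PW, L.rho P x = 0 := fun x hx => by simpa using L.rho_PW P hx h1
  have hA : ∀ c, A + wp c ∉ Fil L.w 0 := fun c hc => h (by
    have := L.r_int _ (Fil.mul hc (PreLoc.dlog_mem_even (x := P.b) (by omega)) le_rfl)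
    rwa [← PreLoc.rho_apply, map_add, h2 _ (L.wp_mem_PW c), add_zero] at this)
  refine le_antisymm (fun α hα => (AA_ram hB hA hα).elim id fun h3 => absurd ?_ h) PW_le_AA
  have h4 := h2 _ h3
  rwa [map_add, show L.rho P α = 0 by simpa using orth hα one_mem_BB, zero_add] at h4

lemma exists_log (h : P.b * s ^ 2 ∈ L.PW) : ∃ u ∈ Log P, (P.b * s ^ 2, u) ∈ C.Lt P A := by
  obtain ⟨u, hu⟩ := lift (PW_le_AA (C := C) (P := P) (A := A) h) (bsq_mem_Ht s)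
  exact ⟨u, by simpa using sub_mem_Log (Lt_le_Ht hu) (bsq_mem_Ht s), hu⟩

lemma Im_of_BB {u : F} (h : (P.b * s ^ 2, u) ∈ C.Lt P A) (hu : u ∈ C.BB P A) : s ∈ C.Im P A := by
  simpa [two_K, bsq_mem_Lt] using add_mem_Lt h hu

lemma Im_U (h : C.AA P A = L.PW) : s ∈ C.Im P A ↔ P.b * s ^ 2 ∈ L.PW := by
  refine ⟨fun hs => h ▸ AA_of_Lt (bsq_mem_Lt.2 hs), fun hs => ?_⟩
  obtain ⟨u, h1, h2⟩ := exists_log (C := C) (A := A) hs
  exact Im_of_BB h2 (BB_of_orth h1 fun α hα => L.rho_PW P (h ▸ hα) h1)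

lemma idx_ram (hB : ord L.w P.b = 0) (hA : ∀ c, A + wp c ∉ Fil L.w 0) (h : L.rho P A = 0) :
    L.PW.relIndex (C.AA P A) = 2 := by
  have h1 : A ∈ C.AA P A := self_mem_AA C.h.cpl (ord_Q.trans hB) (ram_aux hA) (by rwa [f_rho])
  have h2 : A ∉ L.PW := fun h2 => by
    obtain ⟨c, hc⟩ := L.mem_PW.1 h2
    exact hA c (Fil.mono hc (by omega))
  refine AddSubgroup.index_eq_two_iff.2 ⟨⟨A, h1⟩, fun b => ?_⟩
  simp only [AddSubgroup.mem_addSubgroupOf, AddSubgroup.coe_add]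
  have h3 : ¬ (b.1 ∈ L.PW ∧ b.1 + A ∈ L.PW) := fun h3 =>
    h2 (by simpa [← add_assoc, two_K] using add_mem h3.1 h3.2)
  rcases AA_ram hB hA b.2 with h4 | h4
  · exact Or.inr ⟨h4, fun h5 => h3 ⟨h4, h5⟩⟩
  · exact Or.inl ⟨h4, fun h5 => h3 ⟨h5, h4⟩⟩

lemma idx_good (hB : ord L.w P.b = 0) : L.PW.relIndex (C.AA P 0) = 2 := by
  have e : C.AA P 0 = Fil L.w 0 ⊔ L.PW := by
    refine le_antisymm (fun α hα => ?_) (sup_le (good_le_AA (zero_mem _) hB) PW_le_AA)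
    obtain ⟨c, hc⟩ := good_AA (zero_mem _) hB hα
    exact AddSubgroup.mem_sup.2 ⟨_, hc, _, L.wp_mem_PW c, by grind⟩
  rw [e, AddSubgroup.relIndex_sup_right, L.relIndex_PW]

lemma two_U (h : L.PW.relIndex (C.AA P A) = 2) (h1 : P.b * s ^ 2 ∈ L.PW)
    (h2 : P.b * s' ^ 2 ∈ L.PW) (h3 : s ∉ C.Im P A) (h4 : s' ∉ C.Im P A) : s + s' ∈ C.Im P A := by
  obtain ⟨u, h5, h6⟩ := exists_log (C := C) (A := A) h1
  obtain ⟨u', h7, h8⟩ := exists_log (C := C) (A := A) h2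
  rw [relIndex_eq] at h
  have h9 := AddSubgroup.add_mem_iff_of_index_two h (a := ⟨u, h5⟩) (b := ⟨u', h7⟩)
  simp only [AddSubgroup.mem_addSubgroupOf, AddMemClass.mk_add_mk] at h9
  refine Im_of_BB (u := u + u') ?_ (h9.2 ⟨fun h => absurd (Im_of_BB h6 h) h3,
    fun h => absurd (Im_of_BB h8 h) h4⟩)
  rw [show P.b * (s + s') ^ 2 = P.b * s ^ 2 + P.b * s' ^ 2 by grind]
  exact add_mem h6 h8

lemma two_N (h : L.PW.relIndex (C.AA P A) = 2) (h1 : s ∈ C.Im P A) (h2 : s' ∈ C.Im P A)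
    (h3 : P.b * s ^ 2 ∉ L.PW) (h4 : P.b * s' ^ 2 ∉ L.PW) : P.b * (s + s') ^ 2 ∈ L.PW := by
  have h9 := AddSubgroup.add_mem_iff_of_index_two h (a := ⟨_, AA_of_Lt (bsq_mem_Lt.2 h1)⟩)
    (b := ⟨_, AA_of_Lt (bsq_mem_Lt.2 h2)⟩)
  simp only [AddSubgroup.mem_addSubgroupOf, AddMemClass.mk_add_mk] at h9
  rw [show P.b * (s + s') ^ 2 = P.b * s ^ 2 + P.b * s' ^ 2 by grind]
  exact h9.2 ⟨fun h => absurd h h3, fun h => absurd h h4⟩

variable (C) in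
lemma exists_phi (h : P.b * s ^ 2 ∈ L.PW) : ∃ φ : F →+ ZMod 2, (∀ α ∈ L.PW, φ α = 0) ∧
    ∀ A, (∀ α ∈ C.AA P A, φ α = 0) → s ∈ C.Im P A := by
  obtain ⟨c, hc⟩ := C.L'.PW_eq C.h.cpl ▸ C.h.mem_PW.2 h
  rw [wpH_apply] at hc
  have h1 : c ∈ Log (C.Q P) := mem_Log'.2 (by
    rw [mem_Ht, zero_add, hc, map_mul, map_pow, ← C.Q_b, PB.c0_b_sq])
  refine ⟨((C.L'.pair (C.Q P)) c).comp C.f.toAddMonoidHom, fun α hα => ?_, fun A hA => ?_⟩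
  · change C.L'.rho _ (c * C.f α) = 0
    rw [mul_comm]
    exact C.L'.rho_PW _ (C.h.mem_PW.2 hα) h1
  obtain ⟨u, h2, h3⟩ := exists_log (C := C) (A := A) h
  refine Im_of_BB h3 (BB_of_orth h2 fun α hα => ?_)
  have h4 := rho_orth (C.L'.rho_c0 _) (mem_AA'.1 hα)
    (Two.sub_mem_BB (mem_Lt'.1 h3) (hc ▸ Two.wp_mem_Lt c))
  have h5 : C.L'.rho _ (c * C.f α) = 0 := hA α hα
  rwa [mul_add, map_add, mul_comm _ c, h5, add_zero, ← map_mul, f_rho] at h4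

lemma Im_good (hA : A ∈ Fil L.w 0) (hA' : A' ∈ Fil L.w 0) (hB : ord L.w P.b = 0) :
    C.Im P A ≤ C.Im P A' := fun s hs => by
  have h1 := bsq_mem_Lt.2 hs
  obtain ⟨c, hc⟩ := good_AA hA hB (AA_of_Lt h1)
  have h2 : (P.b * s ^ 2 + wp c, c) ∈ C.Lt P A := by simpa using add_mem h1 (wp_mem_Lt c)
  have h3 := good_mem_Lt (C := C) hA' hB hc (Lt_le_Ht h2) (good_Lt hA hB h2 hc)
  simpa [add_assoc, two_K, bsq_mem_Lt] using add_mem h3 (wp_mem_Lt c)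

lemma Im_ss {W W' : WeierstrassCurve F} (h : Nd W P) (hi : Intg L W) (h1 : ord L.w W.a₁ = 1)
    (h3 : ord L.w W.a₃ = 0) (h3' : W.a₃ ≠ 0) (h' : Nd W' P) (hi' : Intg L W') (e1 : W'.a₁ = W.a₁)
    (e3 : W'.a₃ = W.a₃) : C.Im P (nA W) ≤ C.Im P (nA W') := fun s hs => by
  have h4 := bsq_mem_Lt.2 hs
  obtain ⟨x, hx, y, hy, e⟩ := AddSubgroup.mem_sup.1 (ss_AA h hi h1 h3 h3' ▸ AA_of_Lt h4)
  obtain ⟨c, hc⟩ := L.mem_PW.1 hy
  have h5 : P.b * s ^ 2 + wp c ∈ Fil L.w (-1) := by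
    rw [← e, add_assoc]; exact add_mem hx (Fil.mono hc (by omega))
  have h6 : (P.b * s ^ 2 + wp c, c) ∈ C.Lt P (nA W) := by simpa using add_mem h4 (wp_mem_Lt c)
  have hA := ss_AA (C := C) h' hi' (e1 ▸ h1) (e3 ▸ h3) (e3 ▸ h3')
  obtain ⟨u, hu⟩ := lift (hA ▸ AddSubgroup.mem_sup_left h5) (Lt_le_Ht h6)
  have h7 := sub_mem_Log (Lt_le_Ht hu) (Lt_le_Ht h6)
  have h8 := add_mem (ss_Lt h' hi' (e1 ▸ h1) (e3 ▸ h3) (e3 ▸ h3') hu h5)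
    (ss_Lt h hi h1 h3 h3' h6 h5)
  have h9 := add_mem_Lt hu (BB_of_orth h7 fun α hα => by
    obtain ⟨x, hx, y, hy, rfl⟩ := AddSubgroup.mem_sup.1 (hA ▸ hα)
    rw [add_mul, map_add, L.rho_PW P hy h7, add_zero, PreLoc.rho_apply, mul_assoc, add_mul]
    exact L.r_int _ (Fil.mul hx h8 le_rfl))
  simpa [add_assoc, two_K, ← add_assoc u, bsq_mem_Lt] using add_mem h9 (wp_mem_Lt c)

end Cmp

end Pool.Agent.Lib.MP_a3f657_nt.Two
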