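import Pool.Agent.Lib.MP_a3f657_nt.PR.Vir
import Pool.Agent.Lib.MP_a3f657_nt.PR.Loc

/-!
Twists with a prescribed order of the Selmer group.
-/

set_option linter.unusedSectionVars false
set_option maxHeartbeats 400000

namespace Pool.Agent.Lib.MP_a3f657_nt.Two.Vir

open Polynomial IsDedekindDomain Function

open scoped Classical

lemma card_le_two {K : Type} [Field K] [CharP K 2] {G G' : AddSubgroup K} [Finite G]
    (h : ∀ s ∈ G', ∀ s' ∈ G', s ∉ G → s' ∉ G → s + s' ∈ G) : Nat.card G' ≤ 2 * Nat.card G := by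
  have hG : (G : Set K).Finite := Set.toFinite _
  rw [← SetLike.coe_sort_coe, ← SetLike.coe_sort_coe, Nat.card_coe_set_eq, Nat.card_coe_set_eq]
  by_cases h0 : ∀ s ∈ G', s ∈ G
  · exact (Set.ncard_le_ncard h0 hG).trans (by omega)
  push Not at h0
  obtain ⟨t, h1, h2⟩ := h0
  have h3 : (G' : Set K) ⊆ G ∪ (fun x => t + x) '' G := fun s hs => by
    by_cases h4 : s ∈ G
    · exact Or.inl h4
    · exact Or.inr ⟨t + s, h t h1 s hs h2 h4, by simp [← add_assoc, two_K]⟩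
  have h4 := Set.ncard_image_le (s := (G : Set K)) (f := fun x => t + x) hG
  exact (Set.ncard_le_ncard h3 (hG.union (hG.image _))).trans
    ((Set.ncard_union_le _ _).trans (by omega))

variable {k : Type} [Field k] [Finite k] [CharP k 2] {P : PB (RatFunc k)}
  {B : Pl k → RatFunc k} {S : Finset (Pl k)} {v : Pl k} {x : RatFunc k} {r s : ℕ}

lemma idx_ne (P : PB (RatFunc k)) (v : Pl k) (x : RatFunc k) :
    (pl v).PW.relIndex ((cmp v).AA P x) ≠ 0 := by
  rw [Cmp.relIndex_eq]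
  exact ((cmp v).dual P _).1

lemma GoodOut.pow (h : GoodOut P B S) : ∃ r, Nat.card (Sel P B) = 2 ^ r := by
  obtain ⟨i, j, e⟩ := h.sel_formula
  have : Finite (Sel P B) := Nat.finite_of_card_ne_zero fun e2 => by
    rw [e2, zero_mul, zero_mul] at e
    exact mul_ne_zero (by positivity) (Finset.prod_ne_zero_iff.2 fun v _ => idx_ne P v _) e.symm
  exact card_two_pow fun x => Subtype.ext (two_K _)

lemma GoodOut.upd (h : GoodOut P B S) (hv : v ∈ S) (x : RatFunc k) :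
    GoodOut P (update B v x) S :=
  ⟨h.inf, fun w hw => by rw [update_of_ne (ne_of_mem_of_not_mem hv hw).symm]; exact h.hA w hw, h.hB⟩

lemma GoodOut.par (h : GoodOut P B S) (hv : v ∈ S)
    (h1 : (cmp v).AA P (B v) = (pl v).PW) (h2 : (pl v).PW.relIndex ((cmp v).AA P x) = 2)
    (hr : Nat.card (Sel P B) = 2 ^ r) (hs : Nat.card (Sel P (update B v x)) = 2 ^ s) :
    r % 2 ≠ s % 2 := by
  obtain ⟨i, j, e⟩ := h.sel_formula
  obtain ⟨i', j', e'⟩ := (h.upd hv x).sel_formula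
  rw [← Finset.mul_prod_erase _ _ hv] at e e'
  rw [update_self, h2, hs, Finset.prod_congr rfl fun w hw => by
    rw [update_of_ne (Finset.ne_of_mem_erase hw)]] at e'
  rw [h1, AddSubgroup.relIndex_self, hr] at e
  have h0 := Finset.prod_ne_zero_iff.2 fun w (_ : w ∈ S.erase v) => idx_ne P w (B w)
  generalize ∏ w ∈ S.erase v, (pl w).PW.relIndex ((cmp w).AA P (B w)) = X at e e' h0
  have e3 : 2 ^ (r + 1 + 2 * i + 2 * j') * (2 ^ S.card) = 2 ^ (s + 2 * i' + 2 * j) * 2 ^ S.card := by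
    simp only [pow_add, pow_mul]
    calc _ = 2 ^ r * 4 ^ i * 2 ^ S.card * 2 * 4 ^ j' := by ring
      _ = 2 ^ s * 4 ^ i' * 2 ^ S.card * 4 ^ j := by rw [e, e']; ring
      _ = _ := by ring
  have := Nat.pow_right_injective le_rfl (Nat.eq_of_mul_eq_mul_right (by positivity) e3)
  omega

lemma mem_upd {t : RatFunc k} : t ∈ Sel P (update B v x) ↔
    t ∈ (cmp v).Im P x ∧ ∀ w, w ≠ v → t ∈ (cmp w).Im P (B w) := by
  refine ⟨fun h => ⟨by simpa using mem_Sel.1 h v, fun w hw => by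
    simpa [update_of_ne hw] using mem_Sel.1 h w⟩, fun h => mem_Sel.2 fun w => ?_⟩
  by_cases hw : w = v
  · subst hw; simpa using h.1
  · simpa [update_of_ne hw] using h.2 w hw

lemma mem_of {t : RatFunc k} (h1 : t ∈ (cmp v).Im P (B v))
    (h2 : ∀ w, w ≠ v → t ∈ (cmp w).Im P (B w)) : t ∈ Sel P B :=
  mem_Sel.2 fun w => if hw : w = v then hw ▸ h1 else h2 w hw

lemma le_succ {G G' : AddSubgroup (RatFunc k)} (hr : Nat.card G = 2 ^ r) (hs : Nat.card G' = 2 ^ s)
    (h : ∀ s ∈ G', ∀ s' ∈ G', s ∉ G → s' ∉ G → s + s' ∈ G) : s ≤ r + 1 := by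
  have : Finite G := Nat.finite_of_card_ne_zero (by rw [hr]; positivity)
  have := card_le_two h
  rw [hr, hs, ← pow_succ'] at this
  exact (Nat.pow_le_pow_iff_right one_lt_two).1 this

lemma GoodOut.step1 (h : GoodOut P B S) (hv : v ∈ S) (hB : ord (val v) P.b = 0) (h0 : B v = 0)
    (hx : (pl v).rho P x ≠ 0) (hr : Nat.card (Sel P B) = 2 ^ r) :
    ∃ s, Nat.card (Sel P (update B v x)) = 2 ^ s ∧ s ≤ r + 1 ∧ s % 2 ≠ r % 2 := by
  obtain ⟨s, hs⟩ := (h.upd hv x).pow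
  have h1 := Cmp.AA_U (C := cmp v) hB hx
  have h2 := Cmp.idx_good (C := cmp v) hB
  refine ⟨s, hs, le_succ hr hs fun a ha b hb ha' hb' => ?_,
    (h.upd hv x).par hv (by rwa [update_self]) h2 hs (by rwa [update_idem, ← h0, update_eq_self])⟩
  rw [mem_upd] at ha hb
  exact mem_of (Cmp.two_U (h0 ▸ h2) ((Cmp.Im_U h1).1 ha.1) ((Cmp.Im_U h1).1 hb.1)
    (fun e => ha' (mem_of e ha.2)) fun e => hb' (mem_of e hb.2))
    fun w hw => add_mem (ha.2 w hw) (hb.2 w hw)

lemma not_int (h : ord (val v) x = -1) (c : RatFunc k) : x + wp c ∉ Fil (val v) 0 := fun hc => by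
  have h0 : x ≠ 0 := fun e => by simp [e] at h
  by_cases h1 : c ∈ Fil (val v) 0
  · have h2 : x ∈ Fil (val v) 0 := by
      simpa [add_assoc, two_K] using add_mem hc (Fil.wp h1 le_rfl le_rfl)
    rw [mem_Fil_iff h0] at h2
    omega
  obtain ⟨h2, h3⟩ := not_mem_Fil.1 h1
  obtain ⟨h4, h5⟩ := ord_wp h3
  obtain ⟨h6, h7⟩ := ord_add (w := val v) h4 (y := x) (mem_Fil_of_le (by omega))
  rw [add_comm, mem_Fil_iff h6] at hc
  omega

/-- There are many functions in `T` whose only pole is a simple pole at `v`. -/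
def Big (T : AddSubgroup (RatFunc k)) (R : ℕ) (v : Pl k) : Prop :=
  ∀ Φ : Finset (RatFunc k →+ ZMod 2), Φ.card ≤ R → ∃ y ∈ T, ord (val v) y = -1 ∧
    (∀ w, w ≠ v → y ∈ Fil (val w) 0) ∧ ∀ φ ∈ Φ, φ y = 0

/-- The functions that are used for twisting at `v`. -/
def Tw (T : AddSubgroup (RatFunc k)) (Z : Finset (Pl k)) (v : Pl k) (y : RatFunc k) : Prop :=
  y ∈ T ∧ ∀ w, w ≠ v → y ∈ Fil (val w) 0 ∧ (w ∈ Z → y ∈ (pl w).PW)

variable {T : AddSubgroup (RatFunc k)} {Z J : Finset (Pl k)}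

lemma GoodOut.step2 (h : GoodOut P B S) (hv : v ∈ S) (hB : ord (val v) P.b = 0)
    (hx : (pl v).rho P (B v) ≠ 0) (hs : Nat.card (Sel P B) = 2 ^ s) (hsr : s ≤ r)
    (hT : Big T (Z.card + 2 ^ r + 1) v) :
    ∃ y, Tw T Z v y ∧ Nat.card (Sel P (update B v y)) = 2 ^ (s + 1) := by
  have h1 := Cmp.AA_U (C := cmp v) hB hx
  have : Finite (Sel P B) := Nat.finite_of_card_ne_zero (by rw [hs]; positivity)
  have := Fintype.ofFinite (Sel P B)
  choose φ h2 h3 using fun t : Sel P B =>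
    (cmp v).exists_phi ((Cmp.Im_U h1).1 (mem_Sel.1 t.2 v))
  obtain ⟨y, h4, h5, h6, h7⟩ := hT (insert ((pl v).rho P)
      (Z.image (fun w => (pl w).tau) ∪ Finset.univ.image φ)) (by
    refine (Finset.card_insert_le _ _).trans (Nat.succ_le_succ ((Finset.card_union_le _ _).trans
      (add_le_add Finset.card_image_le (Finset.card_image_le.trans ?_))))
    rw [Finset.card_univ, ← Nat.card_eq_fintype_card, hs]
    exact Nat.pow_le_pow_right two_pos hsr)
  have h8 := Cmp.idx_ram (C := cmp v) hB (not_int h5) (h7 _ (by simp))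
  obtain ⟨s', hs'⟩ := (h.upd hv y).pow
  have h9 := h.par hv h1 h8 hs hs'
  have h10 := le_succ hs hs' fun a ha b hb ha' hb' => by
    rw [mem_upd] at ha hb
    exact mem_of ((Cmp.Im_U h1).2 (Cmp.two_N h8 ha.1 hb.1
      (fun e => ha' (mem_of ((Cmp.Im_U h1).2 e) ha.2))
      fun e => hb' (mem_of ((Cmp.Im_U h1).2 e) hb.2))) fun w hw => add_mem (ha.2 w hw) (hb.2 w hw)
  have h11 : Sel P B ≤ Sel P (update B v y) := fun t ht => by
    refine mem_upd.2 ⟨h3 ⟨t, ht⟩ y fun α hα => ?_, fun w _ => mem_Sel.1 ht w⟩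
    rcases Cmp.AA_ram hB (not_int h5) hα with e | e
    · exact h2 _ _ e
    · simpa [h7 (φ ⟨t, ht⟩) (by simp)] using h2 ⟨t, ht⟩ _ e
  have : Finite (Sel P (update B v y)) := Nat.finite_of_card_ne_zero (by rw [hs']; positivity)
  have h12 := AddSubgroup.card_le_of_le h11
  rw [hs, hs', Nat.pow_le_pow_iff_right one_lt_two] at h12
  refine ⟨y, ⟨h4, fun w hw => ⟨h6 w hw, fun hZ => ((pl w).tau_eq_zero (h6 w hw)).1 (h7 _ ?_)⟩⟩,
    by rw [hs']; congr 1; omega⟩
  exact Finset.mem_insert_of_mem (Finset.mem_union_left _ (Finset.mem_image_of_mem _ hZ))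

lemma ite_insert (hv : v ∉ J) (x B : Pl k → RatFunc k) (y : RatFunc k) :
    (fun w => if w ∈ insert v J then update x v y w else B w) =
      fun w => if w ∈ J then x w else update B v y w := by
  funext w
  by_cases hw : w = v
  · subst hw; simp [hv]
  · simp [hw]

lemma GoodOut.steps2 (h : GoodOut P B S) (hJ : ∀ v ∈ J, v ∈ S ∧ ord (val v) P.b = 0 ∧
      (pl v).rho P (B v) ≠ 0 ∧ Big T (Z.card + 2 ^ r + 1) v)
    (hs : Nat.card (Sel P B) = 2 ^ s) (hsr : s + J.card ≤ r) :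
    ∃ x : Pl k → RatFunc k, (∀ v ∈ J, Tw T Z v (x v)) ∧
      Nat.card (Sel P fun w => if w ∈ J then x w else B w) = 2 ^ (s + J.card) := by
  induction J using Finset.induction_on generalizing B s with
  | empty => exact ⟨B, by simp, by simpa using hs⟩
  | insert v J hv ih =>
    rw [Finset.card_insert_of_notMem hv] at hsr ⊢
    obtain ⟨h1, h2, h3, h4⟩ := hJ v (by simp)
    obtain ⟨y, h5, h6⟩ := h.step2 h1 h2 h3 hs (by omega) h4
    obtain ⟨x, h7, h8⟩ := ih (h.upd h1 y) (fun w hw => by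
      rw [update_of_ne (ne_of_mem_of_not_mem hw hv)]
      exact hJ w (by simp [hw])) h6 (by omega)
    refine ⟨update x v y, fun w hw => ?_, by rw [ite_insert hv, h8]; congr 1; omega⟩
    rcases Finset.mem_insert.1 hw with rfl | hw
    · rwa [update_self]
    · rw [update_of_ne (ne_of_mem_of_not_mem hw hv)]
      exact h7 w hw

lemma GoodOut.steps1 (h : GoodOut P B S) {U : Pl k → RatFunc k} (hU : ∀ v, (pl v).rho P (U v) ≠ 0)
    (hJ : ∀ v ∈ J, v ∈ S ∧ ord (val v) P.b = 0 ∧ B v = 0) {e : ℕ}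
    (he : Nat.card (Sel P B) = 2 ^ e) (her : e ≤ r) (hp : e % 2 = r % 2) :
    ∃ s, Nat.card (Sel P fun w => if w ∈ J then U w else B w) = 2 ^ s ∧
      (s + J.card) % 2 = r % 2 ∧ (r ≤ s + J.card → ∃ J' ⊆ J, ∃ s',
        Nat.card (Sel P fun w => if w ∈ J' then U w else B w) = 2 ^ s' ∧ s' + J'.card = r) := by
  induction J using Finset.induction_on with
  | empty =>
    exact ⟨e, by simpa using he, by simpa using hp, fun h1 => ⟨∅, subset_rfl, e,
      by simpa using he, by simp at h1 ⊢; omega⟩⟩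
  | insert v J hv ih =>
    obtain ⟨s, h1, h2, h3⟩ := ih fun w hw => hJ w (by simp [hw])
    obtain ⟨h4, h5, h6⟩ := hJ v (by simp)
    have h7 : GoodOut P (fun w => if w ∈ J then U w else B w) S := ⟨h.inf, fun w hw => by
      rw [if_neg fun e => hw (hJ w (by simp [e])).1]; exact h.hA w hw, h.hB⟩
    obtain ⟨s', h8, h9, h10⟩ := h7.step1 h4 h5 (by simp [hv, h6]) (hU v) h1
    rw [show update (fun w => if w ∈ J then U w else B w) v (U v) =
      fun w => if w ∈ insert v J then U w else B w by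
        funext w
        by_cases hw : w = v
        · subst hw; simp
        · simp [hw]] at h8
    have h11 := Finset.card_insert_of_notMem hv
    refine ⟨s', h8, by omega, fun h12 => ?_⟩
    by_cases h13 : r ≤ s + J.card
    · obtain ⟨J', h14, h15⟩ := h3 h13
      exact ⟨J', h14.trans (Finset.subset_insert _ _), h15⟩
    · exact ⟨_, subset_rfl, s', h8, by omega⟩

theorem exists_twist {A : RatFunc k} (hJ : J ⊆ Z) (hc : J.card = r)
    (h1 : ∀ v ∈ J, ord (val v) P.b = 0 ∧ A ∈ (pl v).PW ∧ Big T (Z.card + 2 ^ r + 1) v)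
    (h2 : ∀ w ∉ Z, ∀ a ∈ Fil (val w) 0, (cmp w).Im P (A + a) = (cmp w).Im P A) {e : ℕ}
    (he : Nat.card (Two.Sel P A) = 2 ^ e) (her : e ≤ r) (hp : e % 2 = r % 2) :
    ∃ a ∈ T, Nat.card (Two.Sel P (A + a)) = 2 ^ r := by
  let S : Finset (Pl k) := insert none (J ∪ ((finite_poles A).toFinset ∪
    ((finite_poles P.b).toFinset ∪ (finite_poles P.b⁻¹).toFinset)))
  let B : Pl k → RatFunc k := fun w => if w ∈ J then 0 else A
  have hS : GoodOut P B S := ⟨by simp [S], fun w hw => by simp_all [S, B], fun w hw => by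
    have h3 : P.b ∈ Fil (val w) 0 ∧ P.b⁻¹ ∈ Fil (val w) 0 := by simp_all [S]
    rw [mem_Fil_iff P.b_ne, mem_Fil_iff (inv_ne_zero P.b_ne), ord_inv] at h3
    omega⟩
  have e0 : Sel P B = Two.Sel P A := by
    ext t
    rw [mem_Sel, Two.mem_Sel]
    refine forall_congr' fun w => ?_
    by_cases hw : w ∈ J
    · simp only [B, if_pos hw]
      rw [← Cmp.Im_PW (h1 w hw).2.1, zero_add]
    · simp only [B, if_neg hw]
  choose U hU using fun v : Pl k => exists_rho_ne (pl v) P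
  obtain ⟨s, -, -, h3⟩ := hS.steps1 (J := J) hU
    (fun v hv => ⟨by simp [S, hv], (h1 v hv).1, if_pos hv⟩) (e0 ▸ he) her hp
  obtain ⟨J', h4, s', h5, h6⟩ := h3 (by omega)
  have h7 : GoodOut P (fun w => if w ∈ J' then U w else B w) S := ⟨hS.inf, fun w hw => by
    rw [if_neg fun e => hw (by simp [S, h4 e])]; exact hS.hA w hw, hS.hB⟩
  obtain ⟨x, h8, h9⟩ := h7.steps2 (J := J') (T := T) (Z := Z) (fun v hv =>
    ⟨by simp [S, h4 hv], (h1 v (h4 hv)).1, by rw [if_pos hv]; exact hU v, (h1 v (h4 hv)).2.2⟩)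
    h5 h6.le
  refine ⟨∑ v ∈ J', x v, sum_mem fun v hv => (h8 v hv).1, ?_⟩
  rw [← h6, ← h9]
  congr 2
  ext t
  rw [mem_Sel, Two.mem_Sel]
  refine forall_congr' fun w => ?_
  by_cases hw : w ∈ J'
  · rw [if_pos hw, ← Finset.add_sum_erase _ _ hw, add_left_comm, Cmp.Im_PW (add_mem
      (h1 w (h4 hw)).2.1 (sum_mem fun v hv => ((h8 v (Finset.mem_of_mem_erase hv)).2 w
        (Finset.ne_of_mem_erase hv).symm).2 (hJ (h4 hw))))]
  have h10 := fun v (hv : v ∈ J') => (h8 v hv).2 w fun e => hw (e ▸ hv)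
  rw [if_neg hw, if_neg hw]
  by_cases hZ : w ∈ Z
  · rw [Cmp.Im_PW (sum_mem fun v hv => (h10 v hv).2 hZ)]
    by_cases hw : w ∈ J
    · simp only [B, if_pos hw]
      rw [← Cmp.Im_PW (A := 0) (h1 w hw).2.1, zero_add]
    · simp only [B, if_neg hw]
  · rw [h2 w hZ _ (sum_mem fun v hv => (h10 v hv).1)]
    simp only [B, if_neg fun e => hZ (hJ e)]

end Pool.Agent.Lib.MP_a3f657_nt.Two.Vir
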