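import Mathlib

/-!
The lazy chain on the natural numbers whose stationary law is the law of Poonen and Rains.
-/

namespace Pool.Agent.Lib.MP_a3f657_nt.Two.Vir

open Filter Topology

/-- One step of the chain. -/
noncomputable def KK (f : ℕ → ℝ) (r : ℕ) : ℝ :=
  f r / 2 + (1 / 2 ^ r * f (r + 1) + (1 - 1 / 2 ^ r) * f (r - 1)) / 2

variable {f : ℕ → ℝ} {c : ℝ}

lemma half_pow (r : ℕ) : (0 : ℝ) < 1 / 2 ^ r ∧ (1 : ℝ) / 2 ^ r ≤ 1 :=
  ⟨by positivity, (div_le_one (by positivity)).2 (one_le_pow₀ one_le_two)⟩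

lemma KK_mem (h : ∀ r, 0 ≤ f r ∧ f r ≤ 1) (r : ℕ) : 0 ≤ KK f r ∧ KK f r ≤ 1 := by
  obtain ⟨h1, h2⟩ := half_pow r
  have h3 := h r
  have h4 := h (r + 1)
  have h5 := h (r - 1)
  unfold KK
  constructor <;> nlinarith

lemma KK_diff (h : ∀ r, |f (r + 1) - f r| ≤ c * 2 ^ r) (r : ℕ) :
    |KK f (r + 1) - KK f r| ≤ 3 / 4 * c * 2 ^ r := by
  rcases r with _ | r
  · have h1 := abs_le.1 (h 0)
    have h2 := abs_le.1 (h 1)
    rw [abs_le]
    simp only [KK] at *
    norm_num at *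
    constructor <;> linarith
  obtain ⟨h1, h2⟩ := half_pow (r + 1)
  have e : KK f (r + 1 + 1) - KK f (r + 1) =
      (1 / 2 - 1 / 2 ^ (r + 1) / 4) * (f (r + 1 + 1) - f (r + 1)) +
        1 / 2 ^ (r + 1) / 4 * (f (r + 1 + 1 + 1) - f (r + 1 + 1)) +
        (1 - 1 / 2 ^ (r + 1)) / 2 * (f (r + 1) - f r) := by
    simp only [KK, Nat.add_sub_cancel]
    ring
  have h3 := h (r + 1)
  have h4 := h (r + 1 + 1)
  have h5 := h r
  rw [e]
  generalize (1 : ℝ) / 2 ^ (r + 1) = x at *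
  refine (abs_add_three _ _ _).trans ?_
  rw [abs_mul, abs_mul, abs_mul, abs_of_nonneg (by linarith : 0 ≤ 1 / 2 - x / 4),
    abs_of_nonneg (by linarith : 0 ≤ x / 4), abs_of_nonneg (by linarith : 0 ≤ (1 - x) / 2)]
  refine (add_le_add (add_le_add (mul_le_mul_of_nonneg_left h3 (by linarith))
    (mul_le_mul_of_nonneg_left h4 (by linarith)))
    (mul_le_mul_of_nonneg_left h5 (by linarith))).trans_eq ?_
  ring

lemma diff_le (h : ∀ r, |f (r + 1) - f r| ≤ c * 2 ^ r) {r s : ℕ} (hs : r ≤ s) :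
    |f s - f r| ≤ c * (2 ^ s - 2 ^ r) := by
  induction s, hs using Nat.le_induction with
  | base => simp
  | succ s _ ih =>
    refine (abs_sub_le _ (f s) _).trans ((add_le_add (h s) ih).trans_eq ?_)
    ring

/-- The weights of the stationary law. -/
noncomputable def ww (r : ℕ) : ℝ := ∏ i ∈ Finset.range r, 2 / (2 ^ (i + 1) - 1)

lemma den_pos (r : ℕ) : (0 : ℝ) < 2 ^ (r + 1) - 1 := by
  have : (1 : ℝ) ≤ 2 ^ r := one_le_pow₀ one_le_two
  rw [pow_succ]
  linarith

lemma ww_pos (r : ℕ) : 0 < ww r := Finset.prod_pos fun i _ => div_pos two_pos (den_pos i)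

lemma ww_succ (r : ℕ) : ww (r + 1) * (2 ^ (r + 1) - 1) = 2 * ww r := by
  have := (den_pos r).ne'
  rw [ww, Finset.prod_range_succ, ← ww]
  field_simp

lemma summable_two : Summable fun r => ww r * 2 ^ r := by
  refine summable_of_ratio_norm_eventually_le (r := 4 / 7) (by norm_num) ?_
  filter_upwards [eventually_ge_atTop 2] with r hr
  have h1 := ww_pos r
  have h2 := ww_pos (r + 1)
  have h3 := ww_succ r
  have h4 : (2 : ℝ) ^ 3 ≤ 2 ^ (r + 1) := pow_le_pow_right₀ one_le_two (by omega)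
  rw [Real.norm_of_nonneg (by positivity), Real.norm_of_nonneg (by positivity), pow_succ]
  have h5 : ww (r + 1) * 2 ≤ 4 / 7 * ww r := by nlinarith
  nlinarith [pow_pos (two_pos (α := ℝ)) r]

lemma summable_z {z : ℝ} (h0 : 0 ≤ z) (h : z ≤ 2) : Summable fun r => ww r * z ^ r :=
  summable_two.of_nonneg_of_le (fun r => by have := ww_pos r; positivity)
    fun r => by have := ww_pos r; gcongr

/-- The generating function. -/
noncomputable def FF (z : ℝ) : ℝ := ∑' r, ww r * z ^ r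

lemma FF_two {z : ℝ} (h0 : 0 ≤ z) (h : z ≤ 1) : FF (2 * z) = (1 + 2 * z) * FF z := by
  have h1 := (summable_z (z := 2 * z) (by linarith) (by linarith)).hasSum.sub
    (summable_z h0 (by linarith)).hasSum
  have h2 := (summable_z h0 (by linarith)).hasSum.mul_left (2 * z)
  have h3 := (hasSum_nat_add_iff' 1).2 h1
  simp only [Finset.range_one, Finset.sum_singleton, pow_zero, sub_self, sub_zero] at h3
  have e : (fun n => ww (n + 1) * (2 * z) ^ (n + 1) - ww (n + 1) * z ^ (n + 1)) =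
      fun n => 2 * z * (ww n * z ^ n) := funext fun n => by
    rw [mul_pow]
    linear_combination z ^ (n + 1) * ww_succ n
  have h4 := h3.unique (e ▸ h2)
  unfold FF
  linarith

lemma FF_near {z : ℝ} (h0 : 0 ≤ z) (h : z ≤ 1) : 1 ≤ FF z ∧ FF z ≤ 1 + z * FF 1 := by
  have h1 := summable_z h0 (by linarith)
  have h2 := summable_z zero_le_one one_le_two
  have h3 := (summable_nat_add_iff 1).2 h1
  have h4 := (summable_nat_add_iff 1).2 h2
  rw [FF, FF, h1.tsum_eq_zero_add, h2.tsum_eq_zero_add]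
  simp only [ww, Finset.range_zero, Finset.prod_empty, pow_zero, mul_one]
  simp only [← ww.eq_1]
  have h5 : ∑' r, ww (r + 1) * z ^ (r + 1) ≤ z * ∑' r, ww (r + 1) * 1 ^ (r + 1) := by
    rw [← tsum_mul_left]
    refine h3.tsum_le_tsum (fun r => ?_) (h4.mul_left z)
    have := ww_pos (r + 1)
    have h6 : z ^ r ≤ 1 := pow_le_one₀ h0 h
    rw [one_pow, mul_one, pow_succ]
    nlinarith [mul_nonneg this.le h0]
  have h6 : 0 ≤ ∑' r, ww (r + 1) * z ^ (r + 1) :=
    tsum_nonneg fun r => by have := ww_pos (r + 1); positivity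
  constructor <;> nlinarith

lemma FF_one : ∏' j : ℕ, (1 + (1 / 2 : ℝ) ^ j) = FF 1 := by
  have h1 : ∀ n, FF 1 = (∏ j ∈ Finset.range n, (1 + (1 / 2 : ℝ) ^ j)) * FF ((1 / 2) ^ n) := fun n => by
    induction n with
    | zero => simp
    | succ n ih =>
      have := FF_two (z := (1 / 2) ^ (n + 1)) (by positivity) (pow_le_one₀ (by norm_num) (by norm_num))
      rw [show 2 * (1 / 2 : ℝ) ^ (n + 1) = (1 / 2) ^ n by ring] at this
      rw [Finset.prod_range_succ, ih, this, mul_assoc]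
  have h2 : Multipliable fun j : ℕ => 1 + (1 / 2 : ℝ) ^ j :=
    Real.multipliable_one_add_of_summable summable_geometric_two
  have h3 : Tendsto (fun n : ℕ => FF ((1 / 2) ^ n)) atTop (𝓝 1) := by
    have h4 := ((tendsto_pow_atTop_nhds_zero_of_lt_one (r := (1 / 2 : ℝ)) (by norm_num)
      (by norm_num)).mul_const (FF 1)).const_add 1
    rw [zero_mul, add_zero] at h4
    have h5 := fun n : ℕ => FF_near (z := (1 / 2) ^ n) (by positivity)
      (pow_le_one₀ (by norm_num) (by norm_num))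
    exact tendsto_of_tendsto_of_tendsto_of_le_of_le tendsto_const_nhds h4 (fun n => (h5 n).1)
      fun n => (h5 n).2
  have h4 := h2.hasProd.tendsto_prod_nat.mul h3
  simp only [← h1, mul_one] at h4
  exact tendsto_nhds_unique h4 tendsto_const_nhds

lemma summable_bd (h : ∀ r, |f r| ≤ 1) : Summable fun r => ww r * f r :=
  (summable_z zero_le_one one_le_two).of_norm_bounded fun r => by
    rw [one_pow, mul_one, Real.norm_eq_abs, abs_mul, abs_of_pos (ww_pos r)]
    exact mul_le_of_le_one_right (ww_pos r).le (h r)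

lemma abs_le_one (h : ∀ r, 0 ≤ f r ∧ f r ≤ 1) (r : ℕ) : |f r| ≤ 1 :=
  abs_le.2 ⟨by linarith [(h r).1], (h r).2⟩

lemma stat (h : ∀ r, 0 ≤ f r ∧ f r ≤ 1) : ∑' r, ww r * KK f r = ∑' r, ww r * f r := by
  have h1 := (summable_bd (f := fun r => 1 / 2 ^ r * (f (r + 1) - f r) / 2) fun r => by
    obtain ⟨h1, h2⟩ := half_pow r
    have h3 := h r
    have h4 := h (r + 1)
    rw [abs_le]
    constructor <;> nlinarith).hasSum
  have h2 : HasSum (fun r => ww r * ((1 - 1 / 2 ^ r) * (f r - f (r - 1)) / 2))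
      (∑' r, ww r * (1 / 2 ^ r * (f (r + 1) - f r) / 2)) := by
    rw [← hasSum_nat_add_iff' 1]
    simp only [Finset.range_one, Finset.sum_singleton, pow_zero, div_one, sub_self,
      zero_div, mul_zero, sub_zero, Nat.add_sub_cancel]
    refine Eq.mp (congrArg (HasSum · _) (funext fun r => ?_)) h1
    have e : ww r = ww (r + 1) * (2 ^ (r + 1) - 1) / 2 := by rw [ww_succ]; ring
    rw [e]
    field_simp
    ring
  have h3 := ((summable_bd (abs_le_one h)).hasSum.add h1).sub h2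
  rw [add_sub_cancel_right] at h3
  refine HasSum.tsum_eq (Eq.mp (congrArg (HasSum · _) (funext fun r => ?_)) h3)
  unfold KK
  ring

/-- The law of Poonen and Rains for the prime two. -/
noncomputable def lawPR (r : ℕ) : ℝ :=
  (∏' j : ℕ, (1 + (1 / 2 : ℝ) ^ j))⁻¹ * ∏ i ∈ Finset.range r, 2 / (2 ^ (i + 1) - 1)

lemma iter (h : ∀ r, 0 ≤ f r ∧ f r ≤ 1) (m : ℕ) : (∀ r, 0 ≤ KK^[m] f r ∧ KK^[m] f r ≤ 1) ∧
    (∀ r, |KK^[m] f (r + 1) - KK^[m] f r| ≤ (3 / 4) ^ m * 2 ^ r) ∧
    ∑' r, ww r * KK^[m] f r = ∑' r, ww r * f r := by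
  induction m with
  | zero =>
    refine ⟨h, fun r => ?_, rfl⟩
    have h2 := h r
    have h3 := h (r + 1)
    have h4 : (1 : ℝ) ≤ 2 ^ r := one_le_pow₀ one_le_two
    simp only [Function.iterate_zero, id, pow_zero, one_mul]
    rw [abs_le]
    constructor <;> linarith
  | succ m ih =>
    rw [Function.iterate_succ_apply']
    exact ⟨KK_mem ih.1, fun r => by rw [pow_succ']; exact KK_diff ih.2.1 r, (stat ih.1).trans ih.2.2⟩

lemma FF_pos : 0 < FF 1 := lt_of_lt_of_le one_pos (FF_near zero_le_one le_rfl).1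

lemma tsum_law (f : ℕ → ℝ) : ∑' r, lawPR r * f r = (FF 1)⁻¹ * ∑' r, ww r * f r := by
  simp only [lawPR, FF_one, ← ww.eq_1, mul_assoc, tsum_mul_left]

lemma hasSum_ww : HasSum ww (FF 1) := by
  simpa [FF] using (summable_z zero_le_one one_le_two).hasSum

lemma law_mem (h : ∀ r, 0 ≤ f r ∧ f r ≤ 1) :
    0 ≤ ∑' r, lawPR r * f r ∧ ∑' r, lawPR r * f r ≤ 1 := by
  rw [tsum_law, inv_mul_le_iff₀ FF_pos, mul_one]
  exact ⟨mul_nonneg (inv_pos.2 FF_pos).le (tsum_nonneg fun r => mul_nonneg (ww_pos r).le (h r).1),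
    hasSum_le (fun r => mul_le_of_le_one_right (ww_pos r).le (h r).2)
      (summable_bd (abs_le_one h)).hasSum hasSum_ww⟩

theorem conv (h : ∀ r, 0 ≤ f r ∧ f r ≤ 1) (m r : ℕ) :
    |KK^[m] f r - ∑' s, lawPR s * f s| ≤ (3 / 4) ^ m * (2 ^ r + 3) := by
  obtain ⟨h1, h2, h3⟩ := iter h m
  generalize KK^[m] f = g at h1 h2 h3
  have h0 := FF_pos
  have h4 := hasSum_ww
  have h5 : HasSum (fun r => ww r * 2 ^ r) (3 * FF 1) := by
    have := FF_two zero_le_one le_rfl
    norm_num at this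
    exact this ▸ summable_two.hasSum
  have h6 := (h4.mul_right (g r)).sub (summable_bd (abs_le_one h1)).hasSum
  have h7 := ((h4.mul_right (2 ^ r)).add h5).mul_left ((3 / 4) ^ m)
  have h8 : ∀ t, |ww t * g r - ww t * g t| ≤ (3 / 4) ^ m * (ww t * 2 ^ r + ww t * 2 ^ t) := fun t => by
    have h9 := ww_pos t
    rw [← mul_sub, abs_mul, abs_of_pos h9, ← mul_add, mul_left_comm]
    refine mul_le_mul_of_nonneg_left ?_ h9.le
    have h10 : (0 : ℝ) < 2 ^ r := by positivity
    have h11 : (0 : ℝ) < 2 ^ t := by positivity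
    rcases le_total r t with h | h
    · rw [abs_sub_comm]
      exact (diff_le h2 h).trans (by gcongr; linarith)
    · exact (diff_le h2 h).trans (by gcongr; linarith)
  have h9 := hasSum_le (fun t => (abs_le.1 (h8 t)).2) h6 h7
  have h10 := hasSum_le (fun t => (abs_le.1 (h8 t)).1) h7.neg h6
  rw [h3] at h9 h10
  rw [tsum_law]
  refine le_of_mul_le_mul_left ?_ h0
  rw [← abs_of_pos h0, ← abs_mul, abs_of_pos h0, mul_sub, mul_inv_cancel_left₀ h0.ne', abs_le]
  constructor <;> linarith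

/-- The mass of a set of ranks. -/
noncomputable def lawS (S : Set ℕ) : ℝ := ∑' r, lawPR r * S.indicator 1 r

lemma ind_mem (S : Set ℕ) (r : ℕ) :
    0 ≤ S.indicator (1 : ℕ → ℝ) r ∧ S.indicator (1 : ℕ → ℝ) r ≤ 1 := by
  by_cases h : r ∈ S <;> simp [h]

lemma lawS_eq (S : Set ℕ) : lawS S = ∑' r : S, lawPR r := by
  rw [tsum_subtype, lawS]
  exact tsum_congr fun r => by by_cases h : r ∈ S <;> simp [h]

end Pool.Agent.Lib.MP_a3f657_nt.Two.Vir
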