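import Pool.Agent.Lib.MP_a3f657_nt.PR.Glob
import Pool.Agent.Lib.MP_a3f657_nt.PR.Markov

/-!
One step of the chain: a random wild twist at one place.
-/

set_option linter.unusedSectionVars false
set_option maxHeartbeats 400000

namespace Pool.Agent.Lib.MP_a3f657_nt.Two

open Polynomial IsDedekindDomain Function

open scoped Classical

namespace Cmp

variable {F : Type} [Field F] [CharP F 2] {L : PreLoc F} {C : Cmp L} {P : PB F}
  {A α s : F} {c : C.K}

variable (C P) in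
/-- The pairing with an element of the completion. -/
noncomputable def ph : C.K →+ F →+ ZMod 2 :=
  (AddMonoidHom.compHom' C.f.toAddMonoidHom).comp (C.L'.pair (C.Q P))

lemma ph_apply (c : C.K) (α : F) : C.ph P c α = C.L'.rho (C.Q P) (c * C.f α) := rfl

lemma ph_one (α : F) : C.ph P 1 α = L.rho P α := by rw [ph_apply, one_mul, f_rho]

lemma ph_PW (hc : wp c = C.f (P.b * s ^ 2)) (hα : α ∈ L.PW) : C.ph P c α = 0 := by
  rw [ph_apply, mul_comm]
  exact C.L'.rho_PW _ (C.h.mem_PW.2 hα) (mem_Log'.2 (by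
    rw [mem_Ht, zero_add, hc, map_mul, map_pow, ← C.Q_b, PB.c0_b_sq]))

lemma Im_iff_ph (hc : wp c = C.f (P.b * s ^ 2)) :
    s ∈ C.Im P A ↔ ∀ α ∈ C.AA P A, C.ph P c α = 0 := by
  refine ⟨fun hs α hα => ?_, fun hA => ?_⟩
  · have h4 := rho_orth (C.L'.rho_c0 _) (mem_AA'.1 hα)
      (Two.sub_mem_BB (mem_Lt'.1 (bsq_mem_Lt.2 hs)) (hc ▸ Two.wp_mem_Lt c))
    rwa [map_zero, zero_add, mul_comm] at h4
  have h : P.b * s ^ 2 ∈ L.PW := C.h.mem_PW.1 (hc ▸ C.L'.wp_mem_PW c)
  obtain ⟨u, h2, h3⟩ := exists_log (C := C) (A := A) h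
  refine Im_of_BB h3 (BB_of_orth h2 fun α hα => ?_)
  have h4 := rho_orth (C.L'.rho_c0 _) (mem_AA'.1 hα)
    (Two.sub_mem_BB (mem_Lt'.1 h3) (hc ▸ Two.wp_mem_Lt c))
  have h5 : C.L'.rho _ (c * C.f α) = 0 := hA α hα
  rwa [mul_add, map_add, mul_comm _ c, h5, add_zero, ← map_mul, f_rho] at h4

lemma Im_ram (hB : ord L.w P.b = 0) (hA : ∀ c, A + wp c ∉ Fil L.w 0) (h : L.rho P A = 0)
    (hc : wp c = C.f (P.b * s ^ 2)) : s ∈ C.Im P A ↔ C.ph P c A = 0 := by
  rw [Im_iff_ph hc]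
  refine ⟨fun h1 => h1 A (self_mem_AA C.h.cpl (ord_Q.trans hB) (ram_aux hA) (by rwa [f_rho])),
    fun h1 α hα => ?_⟩
  rcases AA_ram hB hA hα with e | e
  · exact ph_PW hc e
  · simpa [h1] using ph_PW hc e

end Cmp

namespace Vir

section count

variable {F H : Type} [AddCommGroup F] [AddCommGroup H] (V : AddSubgroup F) [Fintype V]

lemma sum_half (ρ : F →+ ZMod 2) (h : ∃ y ∈ V, ρ y ≠ 0) (x : F) :
    ∑ y : V, (if ρ (x + y) = 0 then 0 else 1 : ℝ) = Nat.card V / 2 := by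
  obtain ⟨y₀, h1, h2⟩ := h
  set g := fun y : V => (if ρ (x + y) = 0 then 0 else 1 : ℝ) with hg
  have h3 := Equiv.sum_comp (Equiv.addRight (⟨y₀, h1⟩ : V)) g
  have h4 : ∑ y : V, (g (Equiv.addRight (⟨y₀, h1⟩ : V) y) + g y) = Nat.card V := by
    rw [Finset.sum_congr rfl fun y _ => show _ = (1 : ℝ) by
      have h5 : ρ (x + (y + y₀)) = ρ (x + y) + 1 := by
        rw [← add_assoc, map_add, (z2_cases _).resolve_left h2]
      simp only [hg, Equiv.coe_addRight, AddSubgroup.coe_add, h5]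
      rcases z2_cases (ρ (x + y)) with e | e <;> simp [e, z2_add_self]]
    simp
  rw [Finset.sum_add_distrib] at h4
  linarith

variable [Finite H] (h2 : ∀ x : H, x + x = 0) (β : H →+ F →+ ZMod 2)
include h2

lemma exists_kappa : ∃ κ : ℕ, 1 ≤ κ ∧
    ∑ y : V, (if ∀ z, β z y = 0 then 1 else 0 : ℝ) = Nat.card V * κ / Nat.card H ∧
    (κ = 1 → ∀ x, ∑ y : V, (if ∀ z, β z (x + y) = 0 then 1 else 0 : ℝ) =
      Nat.card V / Nat.card H) := by
  let ψ : V →+ H →+ ZMod 2 := β.flip.comp V.subtype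
  have : Finite (H →+ ZMod 2) := DFunLike.finite _
  have h0 : (Nat.card H : ℝ) ≠ 0 := Nat.cast_ne_zero.2 Nat.card_pos.ne'
  have h1 : ∑ y : V, (if ∀ z, β z y = 0 then 1 else 0 : ℝ) =
      Nat.card V * ψ.range.index / Nat.card H := by
    rw [eq_div_iff h0, Finset.sum_boole, ← card_hom h2, ← ψ.range.index_mul_card,
      ← ψ.ker.index_mul_card, AddSubgroup.index_ker, ← Nat.subtype_card
        (Finset.univ.filter fun y : V => ∀ z, β z y = 0) (p := fun y => y ∈ ψ.ker) fun y => by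
          simp [ψ, DFunLike.ext_iff]]
    push_cast
    ring
  refine ⟨ψ.range.index, Nat.one_le_iff_ne_zero.2 AddSubgroup.index_ne_zero_of_finite, h1,
    fun h x => ?_⟩
  obtain ⟨y₀, h3⟩ : β.flip x ∈ ψ.range := AddSubgroup.index_eq_one.1 h ▸ AddSubgroup.mem_top _
  rw [h, Nat.cast_one, mul_one] at h1
  rw [← h1, ← Equiv.sum_comp (Equiv.addRight y₀)]
  refine Finset.sum_congr rfl fun y _ => if_congr (forall_congr' fun z => ?_) rfl rfl
  have h4 : β z y₀ = β z x := DFunLike.congr_fun h3 z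
  simp only [Equiv.coe_addRight, AddSubgroup.coe_add, map_add, h4]
  rw [add_left_comm, z2_add_self, add_zero]

end count

variable {k : Type} [Field k] [Finite k] [CharP k 2] {P : PB (RatFunc k)}
  {B : Pl k → RatFunc k} {S : Finset (Pl k)} {v : Pl k} {x y : RatFunc k} {r : ℕ}

variable (P B v) in
/-- Selmer elements with a local Artin-Schreier root. -/
noncomputable def St : AddSubgroup (RatFunc k × (cmp v).K) where
  carrier := {z | z.1 ∈ Sel P B ∧ wp z.2 = (cmp v).f (P.b * z.1 ^ 2)}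
  zero_mem' := ⟨zero_mem _, by simp⟩
  add_mem' ha hb := ⟨add_mem ha.1 hb.1, by
    rw [Prod.snd_add, wp_add, ha.2, hb.2, ← map_add, Prod.fst_add]
    congr 1
    grind⟩
  neg_mem' ha := ⟨neg_mem ha.1, by simpa [CharTwo.neg_eq] using ha.2⟩

lemma exists_St (h : (cmp v).AA P (B v) = (pl v).PW) {s : RatFunc k} (hs : s ∈ Sel P B) :
    ∃ c, (s, c) ∈ St P B v := by
  obtain ⟨c, hc⟩ := (cmp v).L'.PW_eq (cmp v).h.cpl ▸
    (cmp v).h.mem_PW.2 ((Cmp.Im_U h).1 (mem_Sel.1 hs v))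
  exact ⟨c, hs, hc⟩

lemma card_St (h : (cmp v).AA P (B v) = (pl v).PW) :
    Nat.card (St P B v) = Nat.card (Sel P B) * 2 := by
  have e1 : (St P B v).map (AddMonoidHom.fst _ _) = Sel P B := by
    refine le_antisymm ?_ fun s hs => ?_
    · rintro _ ⟨z, hz, rfl⟩
      exact hz.1
    · obtain ⟨c, hc⟩ := exists_St h hs
      exact ⟨_, hc, rfl⟩
  have e2 : Nat.card ((AddMonoidHom.fst _ _).ker.addSubgroupOf (St P B v)) = 2 := by
    rw [← AddSubgroup.card_map_of_injective (St P B v).subtype_injective, ← SetLike.coe_sort_coe,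
      Nat.card_coe_set_eq]
    refine (congrArg Set.ncard (Set.ext fun u => ?_)).trans
      (Set.ncard_pair (a := ((0, 0) : RatFunc k × (cmp v).K)) (b := (0, 1)) (by simp))
    refine ⟨?_, ?_⟩
    · rintro ⟨⟨⟨s, c⟩, h1, h2⟩, hu, rfl⟩
      obtain rfl : s = 0 := hu
      rcases wp_eq_zero.1 (by simpa using h2 : wp c = 0) with rfl | rfl
      exacts [Or.inl rfl, Or.inr rfl]
    · rintro (rfl | rfl)
      · exact zero_mem _
      · exact ⟨⟨(0, 1), zero_mem _, by simp⟩, rfl, rfl⟩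
  rw [← ((AddMonoidHom.fst _ _).ker.addSubgroupOf (St P B v)).index_mul_card, e2,
    ← AddSubgroup.relIndex, AddSubgroup.relIndex_ker, e1]

variable (P B v) in
/-- The characters attached to these elements. -/
noncomputable def Ph : St P B v →+ RatFunc k →+ ZMod 2 :=
  ((cmp v).ph P).comp ((AddMonoidHom.snd _ _).comp (St P B v).subtype)

lemma rho_of_Ph (h : ∀ z, Ph P B v z y = 0) : (pl v).rho P y = 0 :=
  (Cmp.ph_one y).symm.trans (h ⟨(0, 1), zero_mem _, by simp⟩)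

lemma same (hB : ord (val v) P.b = 0) (hx : (pl v).rho P (B v) ≠ 0) (hy : (pl v).rho P y ≠ 0) :
    Sel P (update B v y) = Sel P B := by
  ext t
  rw [mem_upd, Cmp.Im_U (Cmp.AA_U hB hy), ← Cmp.Im_U (Cmp.AA_U (C := cmp v) hB hx)]
  exact ⟨fun h => mem_of h.1 h.2, fun h => ⟨mem_Sel.1 h v, fun w _ => mem_Sel.1 h w⟩⟩

lemma GoodOut.tri (h : GoodOut P B S) (hv : v ∈ S) (hB : ord (val v) P.b = 0)
    (hx : (pl v).rho P (B v) ≠ 0) (hr : Nat.card (Sel P B) = 2 ^ r) (hy : ord (val v) y = -1)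
    (h0 : (pl v).rho P y = 0) : ∃ s, Nat.card (Sel P (update B v y)) = 2 ^ s ∧
      if ∀ z, Ph P B v z y = 0 then s = r + 1 else s + 1 = r := by
  have h1 := Cmp.AA_U (C := cmp v) hB hx
  have h8 := Cmp.idx_ram (C := cmp v) hB (not_int hy) h0
  obtain ⟨s, hs⟩ := (h.upd hv y).pow
  have h9 := h.par hv h1 h8 hr hs
  have f1 : Finite (Sel P B) := Nat.finite_of_card_ne_zero (by rw [hr]; positivity)
  have f2 : Finite (Sel P (update B v y)) := Nat.finite_of_card_ne_zero (by rw [hs]; positivity)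
  have key : ∀ z : St P B v, z.1.1 ∈ Sel P (update B v y) ↔ Ph P B v z y = 0 := fun z => by
    rw [mem_upd, Cmp.Im_ram hB (not_int hy) h0 z.2.2]
    exact and_iff_left fun w _ => mem_Sel.1 z.2.1 w
  have h10 : ∀ a ∈ Sel P (update B v y), ∀ b ∈ Sel P (update B v y), a ∉ Sel P B →
      b ∉ Sel P B → a + b ∈ Sel P B := fun a ha b hb ha' hb' => by
    rw [mem_upd] at ha hb
    exact mem_of ((Cmp.Im_U h1).2 (Cmp.two_N h8 ha.1 hb.1
      (fun e => ha' (mem_of ((Cmp.Im_U h1).2 e) ha.2))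
      fun e => hb' (mem_of ((Cmp.Im_U h1).2 e) hb.2))) fun w hw => add_mem (ha.2 w hw) (hb.2 w hw)
  refine ⟨s, hs, ?_⟩
  split_ifs with h2
  · have h11 := AddSubgroup.card_le_of_le (show Sel P B ≤ Sel P (update B v y) from fun t ht =>
      (exists_St h1 ht).elim fun c hc => (key ⟨_, hc⟩).2 (h2 _))
    rw [hr, hs, Nat.pow_le_pow_iff_right one_lt_two] at h11
    have := le_succ hr hs h10
    omega
  push Not at h2
  obtain ⟨z, h2⟩ := h2
  have h3 := le_succ hs hr fun a ha b hb ha' hb' => by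
    obtain ⟨c, hc⟩ := exists_St h1 ha
    obtain ⟨c', hc'⟩ := exists_St h1 hb
    refine (key (⟨_, hc⟩ + ⟨_, hc'⟩)).2 ?_
    rw [map_add, AddMonoidHom.add_apply, (z2_cases _).resolve_left (mt (key ⟨_, hc⟩).2 ha'),
      (z2_cases _).resolve_left (mt (key ⟨_, hc'⟩).2 hb'), z2_add_self]
  have f3 : Finite (Sel P B ⊓ Sel P (update B v y) : AddSubgroup _) :=
    Finite.of_injective _ (AddSubgroup.inclusion_injective inf_le_left)
  obtain ⟨j, hj⟩ := card_two_pow (V := (Sel P B ⊓ Sel P (update B v y) : AddSubgroup _))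
    fun x => Subtype.ext (two_K _)
  have h4 := le_succ hj hs fun a ha b hb ha' hb' =>
    ⟨h10 a ha b hb (fun e => ha' ⟨e, ha⟩) fun e => hb' ⟨e, hb⟩, add_mem ha hb⟩
  have h5 : j < r := by
    by_contra h5
    have h6 := AddSubgroup.eq_of_le_of_card_ge (inf_le_left (a := Sel P B)
      (b := Sel P (update B v y))) (by rw [hr, hj]; exact Nat.pow_le_pow_right two_pos (by omega))
    exact h2 ((key z).1 (h6.ge z.2.1).2)
  omega

theorem GoodOut.step (h : GoodOut P B S) (hv : v ∈ S) (hB : ord (val v) P.b = 0)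
    (hU : (pl v).rho P (B v) ≠ 0) (V : AddSubgroup (RatFunc k)) [Fintype V]
    (hV : ∀ y ∈ V, y ≠ 0 → ord (val v) y = -1) (hρ : ∃ y ∈ V, (pl v).rho P y ≠ 0)
    (hx : x ∈ Fil (val v) (-1)) {f : ℕ → ℝ} (hf : ∀ r, 0 ≤ f r ∧ f r ≤ 1) :
    |∑ y : V, f (Nat.log 2 (Nat.card (Sel P (update B v (x + y))))) -
      Nat.card V * KK f (Nat.log 2 (Nat.card (Sel P B)))| ≤
      4 / 3 * ∑ y : V, (Nat.card (Sel P (update B v y)) : ℝ) -
        Nat.card V * (Nat.card (Sel P B) + 1) + (3 * Nat.card (Sel P B) + 1) := by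
  obtain ⟨r, hr⟩ := h.pow
  have h1 := card_St (Cmp.AA_U (C := cmp v) hB hU)
  rw [hr] at h1
  have : Finite (St P B v) := Nat.finite_of_card_ne_zero (by rw [h1]; positivity)
  obtain ⟨κ, k1, k2, k3⟩ := exists_kappa V (H := St P B v)
    (fun x => Subtype.ext (Prod.ext (two_K _) (two_K _))) (Ph P B v)
  rw [h1] at k2 k3
  rw [hr, Nat.log_pow one_lt_two]
  push_cast at k2 k3 ⊢
  have hn : (0 : ℝ) ≤ Nat.card V := Nat.cast_nonneg _
  have h2 : (1 : ℝ) ≤ 2 ^ r := one_le_pow₀ one_le_two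
  have h3 : ∀ y : V, 2 ^ r / 2 + 2 ^ r / 2 * (if (pl v).rho P (0 + y) = 0 then 0 else 1) +
      3 / 2 * 2 ^ r * (if ∀ z, Ph P B v z y = 0 then 1 else 0) -
        (if y = 0 then 2 * 2 ^ r else 0) ≤ (Nat.card (Sel P (update B v y)) : ℝ) := fun y => by
    rw [zero_add]
    by_cases h4 : y = 0
    · simp only [h4, ZeroMemClass.coe_zero, map_zero, implies_true, if_true]
      linarith [Nat.cast_nonneg (α := ℝ) (Nat.card (Sel P (update B v 0)))]
    by_cases h5 : (pl v).rho P y = 0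
    · obtain ⟨s, h6, h7⟩ := h.tri hv hB hU hr (hV y y.2 fun e => h4 (Subtype.ext e)) h5
      rw [h6, if_pos h5, if_neg h4]
      push_cast
      split_ifs at h7 ⊢
      · rw [h7, pow_succ]; linarith
      · rw [← h7, pow_succ]; linarith
    · rw [same hB hU h5, hr, if_neg h5, if_neg h4, if_neg fun e => h5 (rho_of_Ph e)]
      push_cast
      linarith
  have h4 := Finset.sum_le_sum fun y (_ : y ∈ Finset.univ) => h3 y
  simp only [Finset.sum_sub_distrib, Finset.sum_add_distrib, ← Finset.mul_sum, k2,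
    sum_half V _ hρ, Finset.sum_ite_eq', Finset.mem_univ, if_true, Finset.sum_const,
    Finset.card_univ, nsmul_eq_mul, ← Nat.card_eq_fintype_card] at h4
  rw [show (3 / 2 * 2 ^ r * (Nat.card V * κ / (2 ^ r * 2)) : ℝ) = 3 / 4 * (Nat.card V * κ) by
    field_simp; norm_num] at h4
  refine le_trans (b := (Nat.card V : ℝ) * (κ - 1) + 1) ?_ (by linarith)
  rcases k1.eq_or_lt with rfl | k1
  swap
  · have h5 : (2 : ℝ) ≤ κ := by exact_mod_cast k1
    have h6 := KK_mem hf r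
    have h7 : ∑ y : V, f (Nat.log 2 (Nat.card (Sel P (update B v (x + y))))) ≤ Nat.card V := by
      simpa using Finset.sum_le_sum fun (y : V) (_ : y ∈ Finset.univ) =>
        (hf (Nat.log 2 (Nat.card (Sel P (update B v (x + y)))))).2
    have h8 : 0 ≤ ∑ y : V, f (Nat.log 2 (Nat.card (Sel P (update B v (x + y))))) :=
      Finset.sum_nonneg fun y _ => (hf _).1
    rw [abs_le]
    constructor <;> nlinarith
  have h5 : ∑ y : V, (f (r - 1) + (f r - f (r - 1)) * (if (pl v).rho P (x + y) = 0 then 0 else 1) +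
      (f (r + 1) - f (r - 1)) * (if ∀ z, Ph P B v z (x + y) = 0 then 1 else 0)) =
      Nat.card V * KK f r := by
    simp only [Finset.sum_add_distrib, ← Finset.mul_sum, k3 rfl x, sum_half V _ hρ,
      Finset.sum_const, Finset.card_univ, nsmul_eq_mul, ← Nat.card_eq_fintype_card, KK]
    field_simp
    ring
  rw [← h5, ← Finset.sum_sub_distrib, Nat.cast_one, sub_self, mul_zero, zero_add]
  refine (Finset.abs_sum_le_sum_abs _ _).trans ((Finset.sum_le_sum
    (g := fun y : V => if x + y ∈ Fil (val v) 0 then 1 else 0) fun y _ => ?_).trans ?_)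
  · by_cases h6 : (pl v).rho P (x + y) = 0
    swap
    · rw [same hB hU h6, hr, Nat.log_pow one_lt_two, if_neg h6, if_neg fun e => h6 (rho_of_Ph e)]
      split_ifs <;> simp
    rw [if_pos h6]
    by_cases h7 : x + y ∈ Fil (val v) 0
    · have h8 := hf (Nat.log 2 (Nat.card (Sel P (update B v (x + y)))))
      have h9 := hf (r - 1)
      have h10 := hf (r + 1)
      rw [if_pos h7, abs_le]
      split_ifs <;> constructor <;> linarith
    have h8 : y.1 ∈ Fil (val v) (-1) := by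
      by_cases e : y.1 = 0
      exacts [e ▸ zero_mem _, mem_Fil_of_le (hV y y.2 e).ge]
    obtain ⟨s, h9, h10⟩ := h.tri hv hB hU hr (ord_eq_of (add_mem hx h8) h7).2 h6
    rw [h9, Nat.log_pow one_lt_two, if_neg h7]
    split_ifs at h10 ⊢
    · simp [h10]
    · simp [← h10]
  rw [Finset.sum_boole]
  refine Nat.cast_le_one.2 (Finset.card_le_one.2 fun a ha b hb => Subtype.ext ?_)
  by_contra hn
  have h6 : a.1 + b.1 ≠ 0 := fun e => hn (CharTwo.add_eq_zero.1 e)
  have h7 := add_mem (Finset.mem_filter.1 ha).2 (Finset.mem_filter.1 hb).2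
  rw [add_add_add_comm, two_K, zero_add, mem_Fil_iff h6, hV _ (add_mem a.2 b.2) h6] at h7
  omega

end Vir

end Pool.Agent.Lib.MP_a3f657_nt.Two
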