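import Pool.Agent.Lib.MP_a3f657_nt.PR.Glob
import Pool.Agent.Lib.MP_a3f657_nt.MB.Cnt
import Pool.Agent.Lib.MP_a3f657_nt.C2Tup

/-!
Artin-Schreier twists of Weierstrass equations.
-/

set_option linter.unusedSectionVars false
set_option maxHeartbeats 400000

namespace Pool.Agent.Lib.MP_a3f657_nt.Two.Vir

open Polynomial IsDedekindDomain WeierstrassCurve Bad

open scoped Classical

section tw

variable {K : Type} [Field K] [CharP K 2]

/-- The twist by the extension `y ^ 2 + y = a`. -/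
def tw (a : K) (W : WeierstrassCurve K) : WeierstrassCurve K :=
  ⟨W.a₁, W.a₂ + a * W.a₁ ^ 2, W.a₃, W.a₄, W.a₆ + a * W.a₃ ^ 2⟩

variable (a : K) (W : WeierstrassCurve K)

lemma tw_tw : tw a (tw a W) = W := by
  ext <;> simp [tw, add_assoc, two_K]

lemma tw_Δ : (tw a W).Δ = W.Δ := by
  rw [disc_eq, disc_eq]
  simp only [tw]
  grind

lemma tw_smul (C : VariableChange K) : C • tw a W = tw a (C • W) := by
  ext <;> simp only [tw, variableChange_a₁, variableChange_a₂, variableChange_a₃, variableChange_a₄,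
    variableChange_a₆] <;> grind

variable {W} {P : PB K}

lemma nA_tw (h : W.a₁ ≠ 0) : nA (tw a W) = nA W + a := by
  simp only [nA, tw]
  field_simp
  ring

lemma nd_tw (h : Nd W P) : Nd (tw a W) P := ⟨h.a1, by rw [h.hb, nB, nB, tw_Δ]; rfl⟩

/-- The twist on isomorphism classes. -/
def twq : MulAction.orbitRel.Quotient (VariableChange K) (WeierstrassCurve K) →
    MulAction.orbitRel.Quotient (VariableChange K) (WeierstrassCurve K) :=
  Quotient.map' (tw a) fun _ _ h => by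
    obtain ⟨C, rfl⟩ := MulAction.orbitRel_apply.1 h
    exact MulAction.orbitRel_apply.2 ⟨C, tw_smul a _ C⟩

end tw

variable {k : Type} [Field k] [Fintype k] [CharP k 2]

lemma height_tw {W : WeierstrassCurve (RatFunc k)} {d : ℕ} (h : HeightLE W d) {g N : k[X]}
    (hN : N ≠ 0) (hg : g.natDegree ≤ N.natDegree) :
    HeightLE (tw (ι g / ι N) W) (d + N.natDegree) := by
  obtain ⟨C, a, ⟨h1, h2, h3, h4, h6⟩, e⟩ := h
  have h0 := ι_ne hN
  have key : ∀ {p q : k[X]} {m n : ℕ}, p.natDegree ≤ m → q.natDegree ≤ n →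
      (p * q).natDegree ≤ m + n := fun h h' => natDegree_mul_le.trans (add_le_add h h')
  have kp : ∀ {p : k[X]} {m : ℕ} (n : ℕ), p.natDegree ≤ m → (p ^ n).natDegree ≤ n * m :=
    fun n h => natDegree_pow_le.trans (Nat.mul_le_mul_left _ h)
  refine ⟨(⟨(Units.mk0 _ h0)⁻¹, 0, 0, 0⟩ : VariableChange (RatFunc k)) * C,
    ⟨N * a.a₁, N ^ 2 * a.a₂ + N * g * a.a₁ ^ 2, N ^ 3 * a.a₃, N ^ 4 * a.a₄,
      N ^ 6 * a.a₆ + N ^ 5 * g * a.a₃ ^ 2⟩, ⟨(key le_rfl h1).trans (by omega),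
      natDegree_add_le_of_degree_le ((key (kp 2 le_rfl) h2).trans (by omega))
        ((key (key le_rfl hg) (kp 2 h1)).trans (by omega)),
      (key (kp 3 le_rfl) h3).trans (by omega), (key (kp 4 le_rfl) h4).trans (by omega),
      natDegree_add_le_of_degree_le ((key (kp 6 le_rfl) h6).trans (by omega))
        ((key (key (kp 5 le_rfl) hg) (kp 2 h3)).trans (by omega))⟩, ?_⟩
  rw [mul_smul, tw_smul, e]
  simp only [ι] at h0 ⊢
  ext <;> simp [tw, variableChange_a₁, variableChange_a₂, variableChange_a₃, variableChange_a₄,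
    variableChange_a₆, baseChange] <;> field_simp

lemma PL_add {n : ℕ} {f g : k[X]} (hf : f ∈ PL k n) (hg : g ∈ PL k n) : f + g ∈ PL k n :=
  mem_PL.2 ((degree_add_le _ _).trans_lt (max_lt (mem_PL.1 hf) (mem_PL.1 hg)))

/-- The functions `g / N` with `deg g < deg N`. -/
noncomputable def TT (N : k[X]) : AddSubgroup (RatFunc k) where
  carrier := {y | ∃ g ∈ PL k N.natDegree, y = ι g / ι N}
  zero_mem' := ⟨0, by simp [mem_PL], by simp [ι]⟩
  add_mem' := by
    rintro _ _ ⟨f, hf, rfl⟩ ⟨g, hg, rfl⟩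
    exact ⟨f + g, PL_add hf hg, by simp [ι, add_div]⟩
  neg_mem' := fun h => by rwa [CharTwo.neg_eq]

lemma big {N : k[X]} (hN : N ≠ 0) {u : HeightOneSpectrum k[X]} (hu : gen u ∣ N) {R : ℕ}
    (hR : R < (gen u).natDegree) : Big (TT N) R (some u) := fun Φ hΦ => by
  have hq : 2 ≤ Fintype.card k := Fintype.one_lt_card
  obtain ⟨f, hf, g, hg, h1, h2⟩ := Finset.exists_ne_map_eq_of_card_lt_of_maps_to
    (s := PL k (gen u).natDegree) (t := (Finset.univ : Finset (Φ → ZMod 2)))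
    (f := fun g φ => φ.1 (ι g / ι (gen u))) (by
      rw [card_PL, Finset.card_univ, Fintype.card_fun, ZMod.card, Fintype.card_coe]
      exact (Nat.pow_lt_pow_right one_lt_two (hΦ.trans_lt hR)).trans_le (Nat.pow_le_pow_left hq _))
    fun _ _ => Finset.mem_univ _
  have h3 : f + g ≠ 0 := fun e => h1 (CharTwo.add_eq_zero.1 e)
  have h4 := (mem_PL_iff.1 (PL_add hf hg)).resolve_left h3
  have h5 : ¬ gen u ∣ f + g := fun e => (natDegree_le_of_dvd e h3).not_gt h4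
  obtain ⟨M, rfl⟩ := hu
  have h6 := ι_ne (right_ne_zero_of_mul hN)
  refine ⟨ι (f + g) / ι (gen u), ⟨(f + g) * M, mem_PL_iff.2 (Or.inr ?_), ?_⟩, ?_, ?_, fun φ hφ => ?_⟩
  · rw [natDegree_mul h3 (right_ne_zero_of_mul hN),
      natDegree_mul (gen_ne u) (right_ne_zero_of_mul hN)]
    omega
  · simp only [ι, map_mul] at h6 ⊢
    rw [mul_div_mul_right _ _ h6]
  · rw [ord_div (ι_ne h3) (ι_ne (gen_ne u)), ord_ι_unit h5, ord_gen]; rfl
  · rintro (_ | w) hw
    · exact Fil.div (ι_mem_none_self _) (by rw [ord_none (gen_ne u)]; omega)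
    · exact div_int _ fun e => hw (by rw [gen_dvd_gen e])
  · have := congrFun h2 ⟨φ, hφ⟩
    simp only at this
    rw [ι, map_add, add_div, map_add, this, z2_add_self]

variable {r L : ℕ} (T : ℕ) (u : Fin r × Fin L → HeightOneSpectrum k[X])

/-- Integral twists change nothing at large places, and each group of places contains a place of
split good ordinary reduction. -/
def Good (W : WeierstrassCurve (RatFunc k)) : Prop :=
  ∃ P, Nd W P ∧ (∀ w ∉ SgT k T, ∀ a ∈ Fil (val w) 0,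
    (cmp w).Im P (nA W + a) = (cmp w).Im P (nA W)) ∧
    ∀ i, ∃ j, ord (val (some (u (i, j)))) P.b = 0 ∧ nA W ∈ (pl (some (u (i, j)))).PW

variable {T u}

lemma Good.smul {W : WeierstrassCurve (RatFunc k)} (h : Good T u W)
    (C : VariableChange (RatFunc k)) : Good T u (C • W) := by
  obtain ⟨P, h1, h2, h3⟩ := h
  obtain ⟨h4, h5, h6⟩ := nA_smul h1.a1 C
  refine ⟨P, ⟨h4, h1.hb.trans h5.symm⟩, fun w hw a ha => ?_, fun i => (h3 i).imp fun j hj =>
    ⟨hj.1, h6 ▸ add_mem hj.2 ((pl _).wp_mem_PW _)⟩⟩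
  rw [h6, add_right_comm, Cmp.Im_PW ((pl _).wp_mem_PW _), Cmp.Im_PW ((pl _).wp_mem_PW _), h2 w hw a ha]

lemma ord_b {a : WeierstrassCurve k[X]} {P : PB (RatFunc k)} (hP : Nd (bc a) P)
    {v : HeightOneSpectrum k[X]} (h : ¬ gen v ∣ a.a₁) :
    ord (val (some v)) P.b = ord (val (some v)) (ι a.Δ) := by
  have h1 : a.a₁ ≠ 0 := fun e => h (e ▸ dvd_zero _)
  rw [hP.hb, nB_bc, ord_div (ι_ne (Exc.SumA.Δ_base.1 hP.disc)) (ι_ne (pow_ne_zero _ h1)), ord_ι_pow,
    ord_ι_unit h]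
  simp

lemma nA_int {a : WeierstrassCurve k[X]} {v : HeightOneSpectrum k[X]} (h : ¬ gen v ∣ a.a₁) :
    nA (bc a) ∈ Fil (val (some v)) 0 := by
  rw [nA_bc]
  exact div_int _ fun e => h ((gen_prime v).dvd_of_dvd_pow e)

lemma good_of {β d : ℕ} {a : WeierstrassCurve k[X]} (h1 : GoodT T β d a) (h2 : GoodN T a)
    (h3 : GoodQ T a) (h4 : ∀ i, ∃ j, ¬ gen (u (i, j)) ∣ a.a₁ ∧ ¬ gen (u (i, j)) ∣ a.Δ ∧
      nA (bc a) ∈ (pl (some (u (i, j)))).PW) : Good T u (bc a) := by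
  obtain ⟨P, hP⟩ := exists_nd h1.1 h1.2.1
  refine ⟨P, hP, ?_, fun i => (h4 i).imp fun j hj =>
    ⟨(ord_b hP hj.1).trans (ord_ι_unit hj.2.1), hj.2.2⟩⟩
  rintro (_ | v) hv x hx
  · simp [SgT] at hv
  have h5 := not_le.1 (mt mem_SgT.2 hv)
  by_cases h6 : gen v ∣ a.a₁
  · obtain ⟨h7, h8⟩ := h2 _ (gen_monic v) (gen_irr v) h5 h6
    have hi : Intg (pl (some v)) (bc a) := ⟨ι_int v _, ι_int v _, ι_int v _, ι_int v _, ι_int v _⟩
    have hi' : Intg (pl (some v)) (tw x (bc a)) := ⟨hi.a₁, add_mem hi.a₂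
      (Fil.mul hx (Fil.sq hi.a₁ le_rfl) le_rfl), hi.a₃, hi.a₄,
      add_mem hi.a₆ (Fil.mul hx (Fil.sq hi.a₃ le_rfl) le_rfl)⟩
    have e1 : ord (val (some v)) (ι a.a₁) = 1 := ord_ι_of_not_dvd (n := 1) (by rwa [pow_one]) h8
    have e3 : ι a.a₃ ≠ 0 := ι_ne fun e => h7 (e ▸ dvd_zero _)
    rw [← nA_tw x hP.a1]
    exact le_antisymm (Cmp.Im_ss (nd_tw x hP) hi' e1 (ord_ι_unit h7) e3 hP hi rfl rfl)
      (Cmp.Im_ss hP hi e1 (ord_ι_unit h7) e3 (nd_tw x hP) hi' rfl rfl)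
  have h7 := nA_int h6
  by_cases h8 : gen v ∣ a.Δ
  · have h9 := (ord_b hP h6).trans (ord_ι_of_not_dvd (n := 1) (by rwa [pow_one])
      (h3 _ (gen_monic v) (gen_irr v) h5))
    ext s
    rw [Cmp.Im_U (Cmp.mult_AA (add_mem h7 hx) h9), Cmp.Im_U (Cmp.mult_AA h7 h9)]
  · have h9 := (ord_b hP h6).trans (ord_ι_unit h8)
    exact le_antisymm (Cmp.Im_good (add_mem h7 hx) h7 h9) (Cmp.Im_good h7 (add_mem h7 hx) h9)

lemma Good.twist {W : WeierstrassCurve (RatFunc k)} (h : Good T u W) (hu : Function.Injective u)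
    (hd : ∀ x, (SgT k T).card + r + 2 ^ r + 1 < (gen (u x)).natDegree) {e : ℕ}
    (he : selOrder W = 2 ^ e) (her : e ≤ r) (hp : e % 2 = r % 2) :
    ∃ g ∈ PL k (∏ x, gen (u x)).natDegree,
      selOrder (tw (ι g / ι (∏ x, gen (u x))) W) = 2 ^ r := by
  obtain ⟨P, h1, h2, h3⟩ := h
  choose j h3 h4 using h3
  let J : Finset (Pl k) := Finset.univ.image fun i => some (u (i, j i))
  have hc : J.card = r := by
    rw [Finset.card_image_of_injective _ fun i i' e => congrArg Prod.fst (hu (Option.some.inj e))]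
    simp
  obtain ⟨_, ⟨g, h5, rfl⟩, h6⟩ := exists_twist (T := TT (∏ x, gen (u x))) (P := P) (A := nA W)
    (Z := SgT k T ∪ J) Finset.subset_union_right hc (fun v hv => by
      obtain ⟨i, -, rfl⟩ := Finset.mem_image.1 hv
      refine ⟨h3 i, h4 i, big (Finset.prod_ne_zero_iff.2 fun _ _ => gen_ne _)
        (Finset.dvd_prod_of_mem (fun x => gen (u x)) (Finset.mem_univ (i, j i)))
        (lt_of_le_of_lt ?_ (hd (i, j i)))⟩
      have := Finset.card_union_le (SgT k T) J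
      omega)
    (fun w hw => h2 w fun e => hw (Finset.mem_union_left _ e)) ((selOrder_eq' h1).symm.trans he) her hp
  exact ⟨g, h5, by rw [selOrder_eq' (nd_tw _ h1), nA_tw _ h1.a1, h6]⟩

open Exc.SumA in
lemma num_twist (hu : Function.Injective u)
    (hd : ∀ x, (SgT k T).card + r + 2 ^ r + 1 < (gen (u x)).natDegree) {e : ℕ} (her : e ≤ r)
    (hp : e % 2 = r % 2) (d : ℕ) :
    num (fun W => Good T u W ∧ selOrder W = 2 ^ e) d ≤
      Fintype.card k ^ (∏ x, gen (u x)).natDegree *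
        num (k := k) (fun W => selOrder W = 2 ^ r) (d + (∏ x, gen (u x)).natDegree) := by
  set N := ∏ x, gen (u x) with hN
  have hN0 : N ≠ 0 := Finset.prod_ne_zero_iff.2 fun _ _ => gen_ne _
  have hF := Cl_fin (k := k) (fun W => selOrder W = 2 ^ r) (d + N.natDegree)
  have h1 : Cl (fun W => Good T u W ∧ selOrder W = 2 ^ e) d ⊆ ⋃ g ∈ PL k N.natDegree,
      twq (ι g / ι N) '' Cl (fun W => selOrder W = 2 ^ r) (d + N.natDegree) := by
    rintro _ ⟨W, rfl, h1, h2, h3, h4⟩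
    obtain ⟨g, h5, h6⟩ := h3.twist hu hd h4 her hp
    refine Set.mem_biUnion h5 ⟨_, ⟨tw (ι g / ι N) W, rfl, by rwa [tw_Δ], height_tw h2 hN0 ?_, h6⟩, ?_⟩
    · rcases mem_PL_iff.1 h5 with rfl | h7
      exacts [by simp, h7.le]
    · rw [twq, Quotient.map'_mk'', tw_tw]
  refine (Set.ncard_le_ncard h1 ((PL k _).finite_toSet.biUnion fun g _ => hF.image _)).trans
    ((Finset.set_ncard_biUnion_le _ _).trans ?_)
  rw [← card_PL, ← smul_eq_mul]
  exact Finset.sum_le_card_nsmul _ _ _ fun g _ => Set.ncard_image_le hF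

end Pool.Agent.Lib.MP_a3f657_nt.Two.Vir
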