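import Pool.Agent.Lib.MP_a3f657_nt.PR.Glob
import Pool.Agent.Lib.MP_a3f657_nt.C2QLow

/-!
The order of the Selmer group of a structure with local twists as a character sum.
-/

set_option linter.unusedSectionVars false
set_option maxHeartbeats 400000

namespace Pool.Agent.Lib.MP_a3f657_nt.Two.Vir

open Polynomial IsDedekindDomain

open scoped Classical

variable {k : Type} [Field k] [Finite k] [CharP k 2]

/-- A structure of the cell with multiplicative places `Sf`. -/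
structure Cfg (D : Dat k) (B : Pl k → RatFunc k) (P : PB (RatFunc k))
    (Sf : Finset (Pl k)) : Prop where
  d2 : ∀ v ∈ Sf, v ∉ D.Sg
  d3 : ∀ v ∈ Sf, v ∉ D.S1
  bnd : ∀ v ∈ D.Sg, Bnd (pl v) P (B v) D.β
  hA : ∀ v ∈ D.Sg, D.A + B v ∈ Fil (val v) 1
  hB : ∀ v ∈ D.Sg, 1 + P.b / D.P.b ∈ Fil (val v) (21 * D.β + 7)
  ss : ∀ v ∈ D.S1, ∃ W : WeierstrassCurve (RatFunc k), Nd W P ∧ Intg (pl v) W ∧
    ord (val v) W.a₁ = 1 ∧ ord (val v) W.a₃ = 0 ∧ W.a₃ ≠ 0 ∧ B v = nA W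
  int : ∀ v ∉ D.Sg, v ∉ D.S1 → B v ∈ Fil (val v) 0
  mult : ∀ v ∈ Sf, ord (val v) P.b = 1
  good : ∀ v ∉ D.Sg, v ∉ D.S1 → v ∉ Sf → ord (val v) P.b = 0

section

variable {D : Dat k} {B : Pl k → RatFunc k} {P : PB (RatFunc k)} {Sf : Finset (Pl k)}
  {v : Pl k} {α α' u u' : RatFunc k}

variable (D B P) in
/-- The pairs that satisfy all local conditions. -/
noncomputable def ZZ : AddSubgroup (RatFunc k × RatFunc k) :=
  (⨅ v, (cmp v).Lt P (B v)) ⊓ D.V.comap (AddMonoidHom.fst _ _)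

lemma mem_ZZ : (α, u) ∈ ZZ D B P ↔ (∀ v, (α, u) ∈ (cmp v).Lt P (B v)) ∧ α ∈ D.V := by
  simp [ZZ, AddSubgroup.mem_iInf]

namespace Cfg

variable (h : Cfg D B P Sf)
include h

lemma AA_Sg (hv : v ∈ D.Sg) : (cmp v).AA P (B v) = (cmp v).AA D.P D.A := by
  have := D.nn
  refine le_antisymm (Cmp.near_AA (N := 21 * D.β + 7) (h.bnd v hv) (add_comm D.A _ ▸ h.hA v hv) ?_
    (by omega)) (Cmp.near_AA (D.bnd v hv) (h.hA v hv) (h.hB v hv) (by omega))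
  obtain ⟨h1, h2⟩ := ord_one_add (Fil.mono (h.hB v hv) (by omega : (1 : ℤ) ≤ _))
  have h3 := P.b_ne
  have h4 := D.P.b_ne
  rw [← add_assoc, two_K, zero_add] at h1 h2
  rw [show 1 + D.P.b / P.b = (1 + P.b / D.P.b) / (P.b / D.P.b) by field_simp; ring]
  exact Fil.div (h.hB v hv) (by change _ ≤ _ - ord (val v) _; omega)

lemma AA_S1 (hv : v ∈ D.S1) : (cmp v).AA P (B v) = Fil (val v) (-1) ⊔ (pl v).PW := by
  obtain ⟨W, h1, h2, h3, h4, h5, h6⟩ := h.ss v hv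
  rw [h6]
  exact Cmp.ss_AA h1 h2 h3 h4 h5

lemma Lt_S1 (hv : v ∈ D.S1) (hu : (α, u) ∈ (cmp v).Lt P (B v)) (hα : α ∈ Fil (val v) (-1)) :
    u * (pl v).P.dlg P.b ∈ Fil (val v) 1 := by
  obtain ⟨W, h1, h2, h3, h4, h5, h6⟩ := h.ss v hv
  rw [h6] at hu
  exact Cmp.ss_Lt h1 h2 h3 h4 h5 hu hα

lemma AA_Sf (hv : v ∈ Sf) : (cmp v).AA P (B v) = (pl v).PW :=
  Cmp.mult_AA (h.int v (h.d2 v hv) (h.d3 v hv)) (h.mult v hv)

lemma goodOut : GoodOut P B (D.Sg ∪ D.S1 ∪ Sf) :=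
  ⟨by simp [D.inf], fun v hv => h.int v (by simp_all) (by simp_all),
    fun v hv => h.good v (by simp_all) (by simp_all) (by simp_all)⟩

lemma disj1 : Disjoint D.Sg D.S1 := Finset.disjoint_right.2 D.disj

lemma disj2 : Disjoint (D.Sg ∪ D.S1) Sf :=
  Finset.disjoint_right.2 fun v hv => by simp [h.d2 v hv, h.d3 v hv]

lemma exists_V (hα : ∀ v, α ∈ (cmp v).AA P (B v)) : ∃ c, α + wp c ∈ D.V := by
  obtain ⟨c, hc⟩ := exists_lev (α := α) D.lev Dat.lev_le fun v => by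
    have := D.nn
    by_cases h1 : v ∈ D.Sg
    · obtain ⟨c, hc⟩ := Cmp.bdd_AA (h.bnd v h1) (hα v)
      exact ⟨c, Fil.mono hc (by rw [Dat.lev_Sg h1])⟩
    by_cases h2 : v ∈ D.S1
    · obtain ⟨x, hx, y, hy, e⟩ := AddSubgroup.mem_sup.1 (h.AA_S1 h2 ▸ hα v)
      obtain ⟨c, hc⟩ := (pl v).mem_PW.1 hy
      rw [Dat.lev_S1 h2, ← e]
      exact ⟨c, add_assoc x _ _ ▸ add_mem hx (Fil.mono hc (by omega))⟩
    rw [Dat.lev_zero h1 h2]
    by_cases h3 : v ∈ Sf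
    · obtain ⟨c, hc⟩ := (pl v).mem_PW.1 (h.AA_Sf h3 ▸ hα v)
      exact ⟨c, Fil.mono hc (by omega)⟩
    · exact Cmp.good_AA (h.int v h1 h2) (h.good v h1 h2 h3) (hα v)
  exact ⟨c, Dat.mem_V.2 ⟨fun v hv => h.AA_Sg hv ▸
    add_mem (hα v) (Cmp.PW_le_AA ((pl v).wp_mem_PW c)), hc⟩⟩

lemma card_ZZ : Nat.card (ZZ D B P) = Nat.card (Sel P B) * Nat.card D.C0 := by
  have e1 : (ZZ D B P).map (cls P) = Sel P B := by
    refine le_antisymm ?_ fun s hs => ?_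
    · rintro _ ⟨⟨α, u⟩, hz, rfl⟩
      exact mem_Sel.2 fun v => (Cmp.mem_Lt.1 ((mem_ZZ.1 hz).1 v)).2
    · have h1 := fun v => Cmp.bsq_mem_Lt.2 (mem_Sel.1 hs v)
      obtain ⟨c, hc⟩ := h.exists_V fun v => Cmp.AA_of_Lt (h1 v)
      refine ⟨(P.b * s ^ 2 + wp c, c), mem_ZZ.2 ⟨fun v => ?_, hc⟩, ?_⟩
      · simpa using add_mem (h1 v) (Cmp.wp_mem_Lt (C := cmp v) c)
      · rw [cls_apply, add_assoc, two_K, add_zero, PB.c1_b_sq]
  have e2 : (((cls P).ker.addSubgroupOf (ZZ D B P)).map (ZZ D B P).subtype) =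
      D.C0.map (wpH.prod (AddMonoidHom.id _)) := by
    refine le_antisymm ?_ ?_
    · rintro _ ⟨⟨⟨α, u⟩, hz⟩, h1, rfl⟩
      have h2 := P.eq_b_sq (mem_Ht.1 (Cmp.Lt_le_Ht ((mem_ZZ.1 hz).1 none)))
      have h3 : P.c1 (α + wp u) = 0 := h1
      rw [h3] at h2
      have h4 : wp u = α := by grind
      exact ⟨u, show wp u ∈ D.V from h4 ▸ (mem_ZZ.1 hz).2, Prod.ext h4 rfl⟩
    · rintro _ ⟨c, hc, rfl⟩
      exact ⟨⟨(wp c, c), mem_ZZ.2 ⟨fun v => Cmp.wp_mem_Lt c, hc⟩⟩, by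
        change P.c1 (wp c + wp c) = 0
        simp [two_K], rfl⟩
  rw [← ((cls P).ker.addSubgroupOf (ZZ D B P)).index_mul_card, ← AddSubgroup.relIndex,
    AddSubgroup.relIndex_ker, e1, ← AddSubgroup.card_map_of_injective (ZZ D B P).subtype_injective,
    e2, AddSubgroup.card_map_of_injective fun a b e => congrArg Prod.snd e]

lemma int_Sf (hz : (α, u) ∈ ZZ D B P) (hv : v ∈ Sf) :
    u ∈ Fil (val v) 0 ∧ α + wp u ∈ Fil (val v) 1 :=
  Ht_mult (L := pl v) (h.mult v hv) (Dat.lev_zero (h.d2 v hv) (h.d3 v hv) ▸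
    (Dat.mem_V.1 (mem_ZZ.1 hz).2).2 v) (Cmp.Lt_le_Ht ((mem_ZZ.1 hz).1 v))

lemma pairing (hz : (α, u) ∈ ZZ D B P) (hα : α' ∈ D.V) :
    D.CC α α' + ∑ v ∈ Sf, (pl v).tau (u * α') = 0 := by
  obtain ⟨h1, h2⟩ := mem_ZZ.1 hz
  obtain ⟨h2, h3⟩ := Dat.mem_V.1 h2
  obtain ⟨h4, h5⟩ := Dat.mem_V.1 hα
  have := D.nn
  rw [← sum_rho (P := P) (x := α' * u) (D.Sg ∪ Sf) fun v hv => ?_,
    Finset.sum_union (Finset.disjoint_right.2 h.d2), Dat.CC, AddMonoidHom.finsetSum_apply]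
  · congr 1 <;> refine Finset.sum_congr rfl fun v hv => ?_
    · exact (Cmp.near_cc (b := 7 * D.β + 2) (D.bnd v hv) (h.hA v hv) (h.hB v hv) (by omega)
        (by omega) (by omega) (h2 v hv) (Dat.lev_Sg hv ▸ h3 v) (h.AA_Sg hv ▸ h4 v hv)
        (Dat.lev_Sg hv ▸ h5 v) (h1 v)).symm
    · rw [mul_comm, rho_mult (h.mult v hv) (Fil.mul (h5 v) (h.int_Sf hz hv).1
        (by rw [Dat.lev_zero (h.d2 v hv) (h.d3 v hv)]; rfl))]
  · rw [Finset.mem_union, not_or] at hv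
    rw [PreLoc.rho_apply, mul_assoc]
    refine (pl v).r_int _ ?_
    by_cases h6 : v ∈ D.S1
    · exact Fil.mul (h5 v) (h.Lt_S1 h6 (h1 v) (Dat.lev_S1 h6 ▸ h3 v)) (by rw [Dat.lev_S1 h6]; rfl)
    · exact Fil.mul (h5 v) (Cmp.good_Lt (h.int v hv.1 h6) (h.good v hv.1 h6 hv.2) (h1 v)
        (Dat.lev_zero hv.1 h6 ▸ h3 v)) (by rw [Dat.lev_zero hv.1 h6]; rfl)

lemma inj (hz : (α, u) ∈ ZZ D B P) (hz' : (α, u') ∈ ZZ D B P)
    (he : ∀ v ∈ Sf, u + u' ∈ Fil (val v) 1) {x : RatFunc k} (h0 : x ≠ 0)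
    (h1 : x ∈ Fil (val none) 0) (h2 : ∀ v, some v ∈ D.Sg → x ∈ Fil (val (some v)) 1)
    (h3 : ∀ v, x ∈ Fil (val v) (D.lev v)) : u = u' := by
  have h4 : ∀ v, (0, u + u') ∈ (cmp v).Lt P (B v) := fun v =>
    Cmp.mem_BB.1 (Cmp.sub_mem_BB ((mem_ZZ.1 hz).1 v) ((mem_ZZ.1 hz').1 v))
  have h5 : u + u' ∈ Log P := Cmp.BB_le_Log (Cmp.mem_BB.2 (h4 none))
  obtain ⟨a, ha⟩ := exists_poly (x := (u + u') * (PX k).dlg P.b * x) fun v => by
    have key : ∀ a, (u + u') * (pl (some v)).P.dlg P.b ∈ Fil (val (some v)) a →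
        (u + u') * (PX k).dlg P.b ∈ Fil (val (some v)) a := fun a ha => by
      simpa [eD] using mul_dlg_mem.2 ha
    by_cases h6 : some v ∈ D.Sg
    · exact Fil.mul (key _ ((pl _).Log_omega_mem P h5)) (h2 v h6) (by omega)
    by_cases h7 : some v ∈ D.S1
    · exact Fil.mul (key _ (h.Lt_S1 h7 (h4 _) (zero_mem _))) (h3 _) (by rw [Dat.lev_S1 h7]; rfl)
    refine Fil.mul (key 0 ?_) (h3 _) (by rw [Dat.lev_zero h6 h7]; rfl)
    by_cases h8 : some v ∈ Sf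
    · exact Fil.mul (he _ h8) (PreLoc.dlog_mem (L := pl (some v)) P.b) (by omega)
    · exact Cmp.good_Lt (h.int _ h6 h7) (h.good _ h6 h7 h8) (h4 _) (zero_mem _)
  have h6 := eq_zero_of_none (ha ▸ Fil.mul (Log_none h5) h1 (by omega))
  rw [h6, ι, map_zero] at ha
  have h7 := (mul_eq_zero.1 ((mul_eq_zero.1 ha.symm).resolve_right h0)).resolve_right (dlg_ne _ _)
  grind

end Cfg

end

section

variable {D : Dat k} {F : Finset k[X]} {α α' : RatFunc k} [Fintype D.V]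
  (hF : ∀ p ∈ F, p.Monic ∧ Irreducible p)
include hF

variable {B : Pl k → RatFunc k} {P : PB (RatFunc k)} (h : Cfg D B P (F.image plc))
include h

lemma Cfg.pairing' {u : RatFunc k} (hz : (α, u) ∈ ZZ D B P) (hα : α' ∈ D.V) :
    D.CC α α' + ∑ p ∈ F, tp p (u * α') = 0 := by
  rw [← h.pairing hz hα, Finset.sum_image (plc_inj hF)]
  rfl

lemma Cfg.Jv_all : Jv D F := fun α hα => by
  have h1 := h.pairing' hF (α := 0) (u := 0) (zero_mem _) hα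
  have h2 := h.pairing' hF (mem_ZZ.2 ⟨fun v => Cmp.mem_BB.1 Cmp.one_mem_BB, zero_mem _⟩) hα
  simp only [zero_mul, map_zero, Finset.sum_const_zero, add_zero, one_mul] at h1 h2
  rwa [h1, zero_add] at h2

lemma Cfg.card_Jv : (F.powerset.filter (Jv D)).card ≤ 2 + nb D F := by
  refine (Finset.card_le_card (t := {∅, F} ∪ _) fun s hs => ?_).trans
    ((Finset.card_union_le _ _).trans (add_le_add_left Finset.card_le_two _))
  rw [Finset.mem_filter] at hs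
  simp only [Finset.mem_union, Finset.mem_insert, Finset.mem_singleton, Finset.mem_filter]
  by_cases h1 : s = ∅ ∨ s = F
  · exact Or.inl h1
  refine Or.inr ⟨hs.1, fun e => h1 (.inl e), fun e => h1 (.inr e), hs.2, fun α hα => ?_⟩
  have := Finset.sum_sdiff (f := fun p => tp p α) (Finset.mem_powerset.1 hs.1)
  rwa [hs.2 α hα, h.Jv_all hF α hα, add_zero] at this

variable {x : RatFunc k} (h0 : x ≠ 0) (h2 : ∀ v ∈ D.Sg, x ∈ Fil (val v) 1) (h3 : x ∈ D.V)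
include h0 h2 h3

lemma Cfg.card_le : Nat.card (ZZ D B P) ≤ (Zv D F).card := by
  have key : ∀ (z : ZZ D B P) (p : F), ∃ c ∈ Rt p.1 z.1.1, z.1.2 + ι c ∈ Fil (val (plc p.1)) 1 := by
    rintro ⟨⟨α, u⟩, hz⟩ ⟨p, hp⟩
    obtain ⟨h4, h5⟩ := h.int_Sf hz (Finset.mem_image_of_mem _ hp)
    obtain ⟨v, h6, rfl⟩ := plc_eq (hF p hp).1 (hF p hp).2
    rw [h6] at h4 h5
    obtain ⟨c, h7, h8⟩ := exists_rep v h4
    refine ⟨c, mem_Rt.2 ⟨h7, ?_⟩, h6 ▸ h8⟩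
    rw [h6, show α + wp (ι c) = α + wp u + wp (u + ι c) by unfold wp; grind]
    exact add_mem h5 (Fil.wp h8 le_rfl (by omega))
  choose r hr hr' using key
  rw [← Nat.card_eq_finsetCard]
  refine Nat.card_le_card_of_injective (fun z => ⟨⟨⟨z.1.1, (mem_ZZ.1 z.2).2⟩, r z⟩,
    Finset.mem_sigma.2 ⟨Finset.mem_univ _, Finset.mem_filter.2
      ⟨Fintype.mem_piFinset.2 (hr z), AddMonoidHom.ext fun α' => ?_⟩⟩⟩) ?_
  · rw [phi_apply, AddMonoidHom.zero_apply, ← h.pairing' hF (u := z.1.2) z.2 α'.2,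
      ← Finset.sum_coe_sort F]
    congr 1
    refine Finset.sum_congr rfl fun p _ => (pl _).tau_congr ?_
    have hp := Finset.mem_image_of_mem plc p.2
    rw [← add_mul, add_comm]
    exact Fil.mul (hr' z p) ((Dat.mem_V.1 α'.2).2 _)
      (by rw [Dat.lev_zero (h.d2 _ hp) (h.d3 _ hp)]; rfl)
  · rintro ⟨⟨α, u⟩, hz⟩ ⟨⟨α', u'⟩, hz'⟩ e
    obtain rfl : α = α' := congrArg (fun z : Zv D F => z.1.1.1) e
    replace e : r ⟨_, hz⟩ = r ⟨_, hz'⟩ := congrArg (fun z : Zv D F => z.1.2) e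
    refine Subtype.ext (Prod.ext rfl (h.inj hz hz' (fun v hv => ?_) h0
      (Fil.mono (h2 _ D.inf) (by omega)) (fun v => h2 _) (Dat.mem_V.1 h3).2))
    obtain ⟨p, hp, rfl⟩ := Finset.mem_image.1 hv
    have := add_mem (hr' ⟨_, hz⟩ ⟨p, hp⟩) (hr' ⟨_, hz'⟩ ⟨p, hp⟩)
    rwa [e, add_add_add_comm, two_K, add_zero] at this

theorem Cfg.mom : (Nat.card (Sel P B) : ℝ) * (Nat.card D.C0 * Nat.card D.V) ≤
    ∑ x : D.V × D.V with ¬ Exc x.1.1 x.2.1, Tm D F x.1 x.2 +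
      3 / 2 * (2 + nb D F) * (Nat.card D.C0 * Nat.card D.V) := by
  have e1 := sum_Tm D F
  rw [← Fintype.sum_prod_type', ← Finset.sum_filter_add_sum_filter_not _
    fun x : D.V × D.V => Exc x.1.1 x.2.1] at e1
  have e2 := sum_exc (D := D) hF
  have e3 : ((F.powerset.filter (Jv D)).card : ℝ) ≤ 2 + nb D F := by exact_mod_cast h.card_Jv hF
  have e4 : (Nat.card (Sel P B) : ℝ) * Nat.card D.C0 ≤ (Zv D F).card := by
    exact_mod_cast h.card_ZZ ▸ h.card_le hF h0 h2 h3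
  have e5 : (0 : ℝ) ≤ Nat.card D.V := by positivity
  have e6 : (0 : ℝ) ≤ Nat.card D.C0 := by positivity
  nlinarith [mul_le_mul_of_nonneg_left e4 e5, mul_le_mul_of_nonneg_left e3 (mul_nonneg e6 e5)]

end

section

variable {P : PB (RatFunc k)} {A : Pl k → RatFunc k} {α u : RatFunc k} {S : Finset (Pl k)}

lemma GoodOut.alt (h : GoodOut P A S) {c : Pl k → RatFunc k} (h1 : α ∈ OS S) (h2 : (α, u) ∈ Ht P)
    (h3 : u * (PX k).dlg P.b ∈ OS S) (h4 : ∀ v ∈ S, (α, c v) ∈ (cmp v).Lt P (A v)) :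
    ∑ v ∈ S, (pl v).rho P (α * (u + c v)) = 0 := by
  have e := P.eq_b_sq (mem_Ht.1 h2)
  generalize P.c1 (α + wp u) = s at e
  have h5 : ∀ v, (α, u) ∈ (cmp v).Lt P (A v) → (pl v).rho P (P.b * s ^ 2 * P.dl s) = 0 := fun v hv => by
    simpa using Cmp.alt (u := 0) (s := s)
      (by simpa [e, two_K] using add_mem hv (Cmp.wp_mem_Lt (C := cmp v) u))
  rw [← sum_rho S fun v hv => h5 v (h.mem_Lt hv h1 h2 h3)]
  refine Finset.sum_congr rfl fun v hv => ?_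
  have h6 := Cmp.alt (u := c v + u) (s := s)
    (by simpa [e] using add_mem (h4 v hv) (Cmp.wp_mem_Lt (C := cmp v) u))
  have h7 := rho_wp_Log ((pl v).rho_c0 P) u (sub_mem_Log (Cmp.Lt_le_Ht (h4 v hv)) h2)
  rw [mul_add, map_add, ← e, add_mul, map_add, h7, e] at h6
  rw [add_comm u]
  grind

end

variable {D : Dat k} {B : Pl k → RatFunc k} {P : PB (RatFunc k)} {Sf : Finset (Pl k)}
  {v : Pl k} {α α' u : RatFunc k}

namespace Cfg

variable (h : Cfg D B P Sf)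
include h

lemma V_OS (hα : α ∈ D.V) : α ∈ OS (D.Sg ∪ D.S1 ∪ Sf) := mem_OS.2 fun v hv => by
  simp only [Finset.mem_union, not_or] at hv
  exact Dat.lev_zero hv.1.1 hv.1.2 ▸ (Dat.mem_V.1 hα).2 v

lemma V_Sf (hα : α ∈ D.V) (hv : v ∈ Sf) : α ∈ Fil (val v) 0 :=
  Dat.lev_zero (h.d2 v hv) (h.d3 v hv) ▸ (Dat.mem_V.1 hα).2 v

lemma V_AA (hα : α ∈ D.V) (hv : v ∉ Sf) : α ∈ (cmp v).AA P (B v) := by
  obtain ⟨h1, h2⟩ := Dat.mem_V.1 hα
  by_cases h3 : v ∈ D.Sg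
  · exact h.AA_Sg h3 ▸ h1 v h3
  by_cases h4 : v ∈ D.S1
  · rw [h.AA_S1 h4]
    exact AddSubgroup.mem_sup_left (Dat.lev_S1 h4 ▸ h2 v)
  · exact Cmp.good_le_AA (h.int v h3 h4) (h.good v h3 h4 hv) (Dat.lev_zero h3 h4 ▸ h2 v)

lemma exists_V' (hα : ∀ v ∉ Sf, α ∈ (cmp v).AA P (B v))
    (hα' : ∀ v ∈ Sf, ∃ c, α + wp c ∈ Fil (val v) 0) : ∃ c, α + wp c ∈ D.V := by
  obtain ⟨c, hc⟩ := exists_lev (α := α) D.lev Dat.lev_le fun v => by
    have := D.nn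
    by_cases h3 : v ∈ Sf
    · exact (hα' v h3).imp fun c hc => Fil.mono hc (Dat.lev_le v)
    by_cases h1 : v ∈ D.Sg
    · obtain ⟨c, hc⟩ := Cmp.bdd_AA (h.bnd v h1) (hα v h3)
      exact ⟨c, Fil.mono hc (by rw [Dat.lev_Sg h1])⟩
    by_cases h2 : v ∈ D.S1
    · obtain ⟨x, hx, y, hy, e⟩ := AddSubgroup.mem_sup.1 (h.AA_S1 h2 ▸ hα v h3)
      obtain ⟨c, hc⟩ := (pl v).mem_PW.1 hy
      rw [Dat.lev_S1 h2, ← e]
      exact ⟨c, add_assoc x _ _ ▸ add_mem hx (Fil.mono hc (by omega))⟩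
    rw [Dat.lev_zero h1 h2]
    exact Cmp.good_AA (h.int v h1 h2) (h.good v h1 h2 h3) (hα v h3)
  exact ⟨c, Dat.mem_V.2 ⟨fun v hv => h.AA_Sg hv ▸ add_mem (hα v fun e => h.d2 v e hv)
    (Cmp.PW_le_AA ((pl v).wp_mem_PW c)), hc⟩⟩

lemma sum_local {c : Pl k → RatFunc k} (hα : α ∈ D.V) (hα' : α' ∈ D.V)
    (hc : ∀ v, (α, c v) ∈ (cmp v).Lt P (B v)) :
    ∑ v ∈ D.Sg ∪ D.S1 ∪ Sf, (pl v).rho P (α' * c v) = D.CC α α' + ∑ v ∈ Sf, (pl v).tau (c v * α') := by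
  obtain ⟨h2, h3⟩ := Dat.mem_V.1 hα
  obtain ⟨h4, h5⟩ := Dat.mem_V.1 hα'
  have := D.nn
  rw [Finset.sum_union h.disj2, Finset.sum_union h.disj1, Dat.CC, AddMonoidHom.finsetSum_apply,
    Finset.sum_eq_zero (s := D.S1) fun v hv => ?_, add_zero]
  · congr 1 <;> refine Finset.sum_congr rfl fun v hv => ?_
    · exact Cmp.near_cc (b := 7 * D.β + 2) (D.bnd v hv) (h.hA v hv) (h.hB v hv) (by omega)
        (by omega) (by omega) (h2 v hv) (Dat.lev_Sg hv ▸ h3 v) (h.AA_Sg hv ▸ h4 v hv)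
        (Dat.lev_Sg hv ▸ h5 v) (hc v)
    · rw [mul_comm (c v), rho_mult (h.mult v hv) (Fil.mul (h.V_Sf hα' hv) (Ht_mult (L := pl v)
        (h.mult v hv) (h.V_Sf hα hv) (Cmp.Lt_le_Ht (hc v))).1 le_rfl)]
  · rw [PreLoc.rho_apply, mul_assoc]
    exact (pl v).r_int _ (Fil.mul (h5 v) (h.Lt_S1 hv (hc v) (Dat.lev_S1 hv ▸ h3 v)) (by rw [Dat.lev_S1 hv]; rfl))

lemma lifts (hα : α ∈ D.V) {r : Pl k → RatFunc k} (hr : ∀ v ∈ Sf, α + wp (r v) ∈ Fil (val v) 1) :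
    ∃ (u : RatFunc k) (c : Pl k → RatFunc k), (α, u) ∈ Ht P ∧
      u * (PX k).dlg P.b ∈ OS (D.Sg ∪ D.S1 ∪ Sf) ∧ (∀ v, (α, c v) ∈ (cmp v).Lt P (B v)) ∧
      (∀ v ∈ Sf, c v + r v ∈ Fil (val v) 1) ∧ ∀ α' ∈ D.V, D.CC α α' + ∑ v ∈ Sf, (pl v).tau (r v * α') =
        ∑ v ∈ D.Sg ∪ D.S1 ∪ Sf, (pl v).rho P (α' * (u + c v)) := by
  have h1 : ∀ v, α ∈ (cmp v).AA P (B v) := fun v => by
    by_cases hv : v ∈ Sf
    · exact Cmp.PW_le_AA ((pl v).mem_PW.2 ⟨_, hr v hv⟩)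
    · exact h.V_AA hα hv
  obtain ⟨u, h2, h3⟩ := exists_Ht h.goodOut.inf h.goodOut.hB (h.V_OS hα) fun v _ => by
    simpa using Cmp.orth (h1 v) Cmp.one_mem_BB
  have h4 : ∀ v, ∃ c, (α, c) ∈ (cmp v).Lt P (B v) ∧ (v ∈ Sf → c + r v ∈ Fil (val v) 1) := fun v => by
    obtain ⟨c, hc⟩ := Cmp.lift (h1 v) h2
    by_cases hv : v ∈ Sf
    · obtain ⟨h5, h6⟩ := Ht_mult (L := pl v) (h.mult v hv) (h.V_Sf hα hv) (Cmp.Lt_le_Ht hc)
      have h7 : wp (c + r v) ∈ Fil (val v) 1 := by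
        rw [show wp (c + r v) = α + wp c + (α + wp (r v)) by rw [wp_add]; grind]
        exact add_mem h6 (hr v hv)
      rcases wp_cases (Fil.of_wp h7 (by omega) le_rfl) h7 with h8 | h8
      · exact ⟨c, hc, fun _ => h8⟩
      · exact ⟨c + 1, Cmp.add_mem_Lt hc Cmp.one_mem_BB, fun _ => by rwa [add_right_comm]⟩
    · exact ⟨c, hc, fun e => absurd e hv⟩
  choose c hc hc' using h4
  refine ⟨u, c, h2, h3, hc, hc', fun α' hα' => ?_⟩
  have h5 := res_OS h.goodOut.inf (OS_mul (h.V_OS hα') h3)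
  simp only [← mul_assoc, ← rho_eq] at h5
  simp only [mul_add, map_add, Finset.sum_add_distrib, h5, zero_add, h.sum_local hα hα' hc]
  congr 1
  refine Finset.sum_congr rfl fun v hv => (pl v).tau_congr ?_
  rw [← add_mul, add_comm]
  exact Fil.mul (hc' v hv) (h.V_Sf hα' hv) le_rfl

lemma pair_wp (hα : α ∈ D.V) {r : Pl k → RatFunc k} (hr : ∀ v ∈ Sf, α + wp (r v) ∈ Fil (val v) 1)
    (hα' : α' ∈ D.V) (he : α' ∈ wpH.range ∨ α + α' ∈ wpH.range) :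
    D.CC α α' + ∑ v ∈ Sf, (pl v).tau (r v * α') = 0 := by
  obtain ⟨u, c, h1, h2, h3, -, h5⟩ := h.lifts hα hr
  have h6 : ∀ z v, (pl v).rho P (wp z * (u + c v)) = 0 := fun z v =>
    rho_wp_Log ((pl v).rho_c0 P) z (sub_mem_Log h1 (Cmp.Lt_le_Ht (h3 v)))
  rw [h5 α' hα']
  rcases he with ⟨z, rfl⟩ | ⟨z, hz⟩
  · exact Finset.sum_eq_zero fun v _ => h6 z v
  · rw [show α' = α + wp z by rw [← wpH_apply, hz, ← add_assoc, two_K, zero_add]]
    simp only [add_mul, map_add, h6, add_zero]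
    exact h.goodOut.alt (h.V_OS hα) h1 h2 fun v _ => h3 v

lemma exists_ZZ (hα : α ∈ D.V) {r : Pl k → RatFunc k} (hr : ∀ v ∈ Sf, α + wp (r v) ∈ Fil (val v) 1)
    (h0 : ∀ α' ∈ D.V, D.CC α α' + ∑ v ∈ Sf, (pl v).tau (r v * α') = 0) :
    ∃ u, (α, u) ∈ ZZ D B P ∧ ∀ v ∈ Sf, u + r v ∈ Fil (val v) 1 := by
  obtain ⟨u, c, h1, h2, h3, h4, h5⟩ := h.lifts hα hr
  have h6 : ∀ v, u + c v ∈ Log P := fun v => sub_mem_Log h1 (Cmp.Lt_le_Ht (h3 v))
  obtain ⟨u', h7, h8⟩ := exists_LogS h.goodOut.inf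
    (fun v => if v ∈ Sf then Fil (val v) 0 else (cmp v).AA P (B v))
    (fun v => if v ∈ Sf then Fil (val v) 1 else (cmp v).BB P (B v)) (fun v => u + c v)
    (fun v _ => h6 v) (fun v _ χ hχ => by
      split_ifs at hχ ⊢ with hv
      swap
      · exact Cmp.exists_rep χ hχ
      have o : (1 : RatFunc k) ∈ Log P := Cmp.BB_le_Log (Cmp.one_mem_BB (C := cmp v) (A := 0))
      obtain ⟨a, h7, h8⟩ : ∃ a ∈ Fil (val v) 0, (pl v).tau a = χ ⟨1, o⟩ := by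
        rcases z2_cases (χ ⟨1, o⟩) with e | e
        · exact ⟨0, zero_mem _, by rw [e, map_zero]⟩
        · obtain ⟨a, h7, h8⟩ := (pl v).tau_ne
          exact ⟨a, h7, by rw [e, (z2_cases _).resolve_left h8]⟩
      refine ⟨a, h7, fun z => ?_⟩
      obtain ⟨h9, h10⟩ := Ht_mult (L := pl v) (h.mult v hv) (zero_mem _) (mem_Log'.1 z.2)
      rw [rho_mult (h.mult v hv) (Fil.mul h7 h9 le_rfl)]
      rcases wp_cases h9 (by simpa using h10) with h11 | h11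
      · rw [hχ z h11, (pl v).tau_one (Fil.mul h7 h11 le_rfl)]
      · have h12 := hχ (z + ⟨1, o⟩) h11
        rw [map_add, ← h8] at h12
        rw [(pl v).tau_congr (y := a) (by
          rw [← mul_add_one]; exact Fil.mul h7 h11 le_rfl)]
        grind)
    fun α' h7 h8 => by
      obtain ⟨z, hz⟩ := h.exists_V' (α := α') (fun v hv => by
        by_cases h9 : v ∈ D.Sg ∪ D.S1 ∪ Sf
        · obtain ⟨a, h10, h11⟩ := h8 v h9
          rw [if_neg hv] at h10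
          simpa [add_assoc, two_K] using add_mem (Cmp.PW_le_AA h11) h10
        · exact Cmp.good_le_AA (h.goodOut.hA v h9) (h.goodOut.hB v h9) (mem_OS.1 h7 v h9))
        fun v hv => by
          obtain ⟨a, h10, h11⟩ := h8 v (by simp [hv])
          rw [if_pos hv] at h10
          obtain ⟨z, hz⟩ := (pl v).mem_PW.1 h11
          refine ⟨z, ?_⟩
          rw [show α' + wp z = α' + a + wp z + a by grind]
          exact add_mem (Fil.mono hz (b := 0) (by omega)) h10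
      rw [← h0 _ hz, h5 _ hz]
      refine Finset.sum_congr rfl fun v _ => ?_
      rw [add_mul α', map_add, rho_wp_Log ((pl v).rho_c0 P) z (h6 v), add_zero]
  have e : ∀ v, c v + (u' + (u + c v)) = u + u' := fun v => by grind
  refine ⟨u + u', mem_ZZ.2 ⟨fun v => ?_, hα⟩, fun v hv => ?_⟩
  · by_cases h9 : v ∈ D.Sg ∪ D.S1 ∪ Sf
    · refine e v ▸ Cmp.add_mem_Lt (h3 v) ?_
      by_cases hv : v ∈ Sf
      · exact Cmp.BB_of_orth (add_mem h7.1 (h6 v)) fun a ha =>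
          (pl v).rho_PW P (h.AA_Sf hv ▸ ha) (add_mem h7.1 (h6 v))
      · simpa only [if_neg hv] using h8 v h9
    · exact h.goodOut.mem_Lt h9 (h.V_OS hα) (by simpa using add_mem h1 (mem_Log'.1 h7.1))
        (by rw [add_mul]; exact add_mem h2 h7.2)
  · have h9 := h8 v (by simp [hv])
    rw [if_pos hv] at h9
    rw [← e v, add_right_comm]
    exact add_mem (h4 v hv) h9

end Cfg

variable [Fintype D.V] {F : Finset k[X]} (hF : ∀ p ∈ F, p.Monic ∧ Irreducible p)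
include hF

variable (h : Cfg D B P (F.image plc))
include h

lemma Cfg.le_card : (Zv D F).card ≤ Nat.card (ZZ D B P) := by
  have key : ∀ z : Zv D F, ∃ u, (z.1.1.1, u) ∈ ZZ D B P ∧
      ∀ v ∈ F.image plc, u + ext F z.1.2 v ∈ Fil (val v) 1 := by
    rintro ⟨⟨α, r⟩, hz⟩
    obtain ⟨h1, h2⟩ := Finset.mem_filter.1 (Finset.mem_sigma.1 hz).2
    exact h.exists_ZZ α.2 (ext_Rt hF (Fintype.mem_piFinset.1 h1)) fun α' hα' => by
      rw [ext_phi hF r ⟨α', hα'⟩, h2, AddMonoidHom.zero_apply]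
  choose u hu hu' using key
  have : Finite (ZZ D B P) := Nat.finite_of_card_ne_zero (by
    obtain ⟨r, hr⟩ := h.goodOut.pow
    have h2 : 0 < (Finset.univ.filter fun α : D.V => α.1 ∈ wpH.range).card :=
      Finset.card_pos.2 ⟨0, Finset.mem_filter.2 ⟨Finset.mem_univ _, zero_mem _⟩⟩
    rw [h.card_ZZ, hr, ← card_E]
    positivity)
  rw [← Nat.card_eq_finsetCard]
  refine Nat.card_le_card_of_injective (fun z => (⟨_, hu z⟩ : ZZ D B P)) ?_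
  rintro ⟨⟨α, r⟩, hz⟩ ⟨⟨α', r'⟩, hz'⟩ e
  simp only [Subtype.mk.injEq, Prod.mk.injEq] at e
  obtain ⟨e1, e2⟩ := e
  obtain rfl := Subtype.ext e1
  refine Subtype.ext (congrArg (Sigma.mk α) (_root_.funext fun p => ?_))
  have hp := Finset.mem_image_of_mem plc p.2
  have h1 := add_mem (hu' ⟨_, hz⟩ _ hp) (hu' ⟨_, hz'⟩ _ hp)
  have h2 := (mem_Rt.1 (Fintype.mem_piFinset.1 (Finset.mem_filter.1 (Finset.mem_sigma.1 hz).2).1 p)).1
  have h3 := (mem_Rt.1 (Fintype.mem_piFinset.1 (Finset.mem_filter.1 (Finset.mem_sigma.1 hz').2).1 p)).1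
  rw [e2, add_add_add_comm, two_K, zero_add, ext_plc hF, ext_plc hF, ← CharTwo.sub_eq_add, ι, ι,
    ← map_sub] at h1
  obtain ⟨v, h4, h5⟩ := plc_eq (hF p p.2).1 (hF p p.2).2
  rw [h4, ι_mem_one, h5] at h1
  exact sub_eq_zero.1 (eq_zero_of_dvd_of_degree_lt h1 ((degree_sub_le _ _).trans_lt (max_lt h2 h3)))

lemma Cfg.Tm_left (α α' : D.V) (he : α.1 ∈ wpH.range) :
    Tm D F α α' = ∏ p ∈ F, (1 + sr (tp p α')) := by
  obtain ⟨c, hc⟩ := he
  have hz : (α.1, c) ∈ ZZ D B P := mem_ZZ.2 ⟨fun v => hc ▸ Cmp.wp_mem_Lt c, α.2⟩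
  have key : ∀ p : F, ∃ r ∈ Rt p.1 α, c + ι r ∈ Fil (val (plc p.1)) 1 := by
    rintro ⟨p, hp⟩
    obtain ⟨h4, h5⟩ := h.int_Sf hz (Finset.mem_image_of_mem _ hp)
    obtain ⟨v, h6, rfl⟩ := plc_eq (hF p hp).1 (hF p hp).2
    rw [h6] at h4 h5
    obtain ⟨r, h7, h8⟩ := exists_rep v h4
    refine ⟨r, mem_Rt.2 ⟨h7, ?_⟩, h6 ▸ h8⟩
    rw [h6, show α + wp (ι r) = α + wp c + wp (c + ι r) by unfold wp; grind]
    exact add_mem h5 (Fil.wp h8 le_rfl (by omega))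
  choose r hr hr' using key
  rw [Tm_eq hF hr, phi_apply, Finset.sum_congr rfl fun p _ => show tp p.1 (ι (r p) * α') =
    tp p.1 (c * α') from (pl _).tau_congr ?_, Finset.sum_coe_sort F fun p => tp p (c * α'),
    h.pairing' hF hz α'.2, sr_zero, one_mul]
  rw [← add_mul, add_comm]
  exact Fil.mul (hr' p) (h.V_Sf α'.2 (Finset.mem_image_of_mem plc p.2)) le_rfl

lemma Cfg.Tm_right (α α' : D.V) (he : α'.1 ∈ wpH.range ∨ α.1 + α'.1 ∈ wpH.range) :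
    Tm D F α α' = ∏ p ∈ F, (1 + sr (tp p α)) := by
  by_cases h1 : ∀ p : F, ∃ c, c ∈ Rt p.1 α
  · choose r hr using h1
    rw [Tm_eq hF hr, ← ext_phi hF, h.pair_wp α.2 (ext_Rt hF hr) α'.2 he, sr_zero, one_mul]
    refine Finset.prod_congr rfl fun p hp => ?_
    have h2 : tp p α = 0 := (pl _).tau_PW ((pl _).mem_PW.2 ⟨_, (mem_Rt.1 (hr ⟨p, hp⟩)).2⟩)
    rcases he with ⟨z, hz⟩ | ⟨z, hz⟩
    · rw [h2, ← hz, wpH_apply, tp, PreLoc.tau_wp]
    · have h3 : tp p (α + α') = 0 := by rw [← hz, wpH_apply, tp, PreLoc.tau_wp]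
      rw [map_add, h2, zero_add] at h3
      rw [h2, h3]
  · push Not at h1
    obtain ⟨p, hp⟩ := h1
    have h2 := Finset.eq_empty_of_forall_notMem hp
    rw [Tm, Finset.prod_eq_zero p.2 (by rw [gR, h2, Finset.sum_empty]), mul_zero,
      Finset.prod_eq_zero p.2 (by
        rw [tp_of_Rt (hF p p.2).1 (hF p p.2).2 (h.V_Sf α.2 (Finset.mem_image_of_mem plc p.2)) h2,
          sr_one, add_neg_cancel])]

lemma Cfg.le_sum_exc : 3 / 2 * Nat.card D.C0 * (Nat.card D.V * (F.powerset.filter (Jv D)).card) -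
    (Nat.card D.C0 : ℝ) ^ 2 / 2 * 2 ^ F.card ≤
      ∑ x : D.V × D.V with Exc x.1.1 x.2.1, Tm D F x.1 x.2 := by
  set w := fun α : D.V => ∏ p ∈ F, (1 + sr (tp p α))
  set e := fun α : D.V => if α.1 ∈ wpH.range then (1 : ℝ) else 0
  have hw : ∀ α, w α ≤ 2 ^ F.card := fun α => by
    rw [← Finset.prod_const]
    exact Finset.prod_le_prod (fun p _ => by linarith [(abs_le.1 (abs_sr (tp p α)).le).1])
      fun p _ => by linarith [(abs_le.1 (abs_sr (tp p α)).le).2]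
  have h1 : ∑ α, e α = Nat.card D.C0 / 2 := by
    rw [← card_E, ← Finset.sum_filter]
    simp
  have h2 : ∀ α, ∑ α', e (α + α') = Nat.card D.C0 / 2 := fun α =>
    (Equiv.sum_comp (Equiv.addLeft α) e).trans h1
  calc _ = ∑ x : D.V × D.V, (e x.1 * w x.2 + w x.1 * e x.2 + w x.1 * e (x.1 + x.2) -
        e x.1 * e x.2 * (2 * 2 ^ F.card)) := by
        simp only [Fintype.sum_prod_type, Finset.sum_add_distrib, Finset.sum_sub_distrib,
          ← Finset.mul_sum, h1, h2, ← Finset.sum_mul]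
        rw [sum_w hF]
        ring
    _ ≤ _ := by
        rw [Finset.sum_filter]
        refine Finset.sum_le_sum fun x _ => ?_
        have h3 := h.Tm_left hF x.1 x.2
        have h4 := h.Tm_right hF x.1 x.2
        have h5 := hw x.1
        have h6 := hw x.2
        have h7 : x.1.1 ∈ wpH.range → (x.1.1 + x.2.1 ∈ wpH.range ↔ x.2.1 ∈ wpH.range) :=
          add_mem_cancel_left
        have h8 : x.2.1 ∈ wpH.range → (x.1.1 + x.2.1 ∈ wpH.range ↔ x.1.1 ∈ wpH.range) :=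
          add_mem_cancel_right
        simp only [e, Exc, AddSubgroup.coe_add]
        by_cases a1 : x.1.1 ∈ wpH.range <;> by_cases a2 : x.2.1 ∈ wpH.range <;>
          by_cases a3 : x.1.1 + x.2.1 ∈ wpH.range <;>
          simp only [a1, a2, a3, if_true, if_false, true_or, or_true, or_self, forall_const,
            iff_true, iff_false, not_true] at h3 h4 h7 h8 ⊢ <;>
          linarith

theorem Cfg.mom_ge (hne : F.Nonempty) : ∑ x : D.V × D.V with ¬ Exc x.1.1 x.2.1, Tm D F x.1 x.2 +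
    3 * (Nat.card D.C0 * Nat.card D.V) - (Nat.card D.C0 : ℝ) ^ 2 / 2 * 2 ^ F.card ≤
      (Nat.card (Sel P B) : ℝ) * (Nat.card D.C0 * Nat.card D.V) := by
  have e1 := sum_Tm D F
  rw [← Fintype.sum_prod_type', ← Finset.sum_filter_add_sum_filter_not _
    fun x : D.V × D.V => Exc x.1.1 x.2.1] at e1
  have e2 := h.le_sum_exc hF
  have e3 : (2 : ℝ) ≤ (F.powerset.filter (Jv D)).card := by
    exact_mod_cast Finset.one_lt_card.2 ⟨∅, Finset.mem_filter.2 ⟨by simp, fun _ _ => rfl⟩, F,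
      Finset.mem_filter.2 ⟨by simp, h.Jv_all hF⟩, hne.ne_empty.symm⟩
  have e4 : ((Zv D F).card : ℝ) ≤ (Nat.card (Sel P B) : ℝ) * Nat.card D.C0 := by
    exact_mod_cast h.card_ZZ ▸ h.le_card hF
  have e5 : (0 : ℝ) ≤ Nat.card D.V := by positivity
  have e6 : (0 : ℝ) ≤ Nat.card D.C0 := by positivity
  nlinarith [mul_le_mul_of_nonneg_left e4 e5, mul_le_mul_of_nonneg_left e3 (mul_nonneg e6 e5)]

end Pool.Agent.Lib.MP_a3f657_nt.Two.Vir
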