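import Pool.Agent.Lib.MP_a3f657_nt.C2Gp

/-!
The product formula for Selmer structures with one local twist at each place.
-/

set_option linter.unusedSectionVars false
set_option maxHeartbeats 400000

namespace Pool.Agent.Lib.MP_a3f657_nt.Two.Vir

open Polynomial IsDedekindDomain

open scoped Classical

variable {k : Type} [Field k] [Finite k] [CharP k 2]

variable (P : PB (RatFunc k)) (A : Pl k → RatFunc k) (S : Finset (Pl k))

/-- The Selmer group of the structure. -/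
noncomputable def Sel : AddSubgroup (RatFunc k) := ⨅ v, (cmp v).Im P (A v)

lemma mem_Sel {P : PB (RatFunc k)} {A : Pl k → RatFunc k} {s : RatFunc k} :
    s ∈ Sel P A ↔ ∀ v, s ∈ (cmp v).Im P (A v) := AddSubgroup.mem_iInf

/-- Good ordinary reduction outside `S`. -/
structure GoodOut : Prop where
  inf : none ∈ S
  hA : ∀ v ∉ S, A v ∈ Fil (val v) 0
  hB : ∀ v ∉ S, ord (val v) P.b = 0

/-- The product of the local quotients. -/
abbrev YY : Type := ∀ v : S, Log P ⧸ ((cmp v.1).BB P (A v.1)).addSubgroupOf (Log P)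

/-- The functions that satisfy the local conditions on `S`. -/
noncomputable def AS : AddSubgroup (RatFunc k) := ⨅ v : S, (cmp v.1).AA P (A v.1)

/-- The character of `YY` attached to a function. -/
noncomputable def Phi : AS P A S →+ YY P A S →+ ZMod 2 :=
  ∑ v : S, (AddMonoidHom.compHom' (Pi.evalAddMonoidHom _ v)).comp
    (toDual ((pl v.1).pair P) (AS P A S) _ _ fun _ hα _ hu _ =>
      Cmp.orth (AddSubgroup.mem_iInf.1 hα v) hu)

/-- The logarithmic forms that satisfy all local conditions. -/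
noncomputable def SelF : AddSubgroup (RatFunc k) := ⨅ v, (cmp v).BB P (A v)

variable {P A S}

lemma mem_AS {α : RatFunc k} : α ∈ AS P A S ↔ ∀ v ∈ S, α ∈ (cmp v).AA P (A v) := by
  simp [AS, AddSubgroup.mem_iInf]

lemma Phi_apply (α : AS P A S) (w : S → Log P) :
    Phi P A S α (fun v => QuotientAddGroup.mk (w v)) = ∑ v : S, (pl v.1).rho P (α * w v) := by
  simp only [Phi, AddMonoidHom.finsetSum_apply]
  rfl

lemma YY_surj (y : YY P A S) : ∃ w : S → Log P, y = fun v => QuotientAddGroup.mk (w v) :=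
  ⟨fun v => (y v).out, funext fun v => (y v).out_eq.symm⟩

lemma YY_two (y : YY P A S) : y + y = 0 := funext fun v => quot_two two_K _ _ (y v)

instance : Finite (YY P A S) :=
  have := fun v : S => AddSubgroup.index_ne_zero_iff_finite.1 ((cmp v.1).dual P (A v.1)).1
  Pi.finite

lemma Phi_eq_zero {α : AS P A S} : Phi P A S α = 0 ↔ ∀ v ∈ S, α.1 ∈ (pl v).PW := by
  refine ⟨fun h v hv => (pl v).PW_of_rho P fun u hu => ?_, fun h => ?_⟩
  · have := Phi_apply α (Pi.single ⟨v, hv⟩ ⟨u, hu⟩)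
    rw [h, Finset.sum_eq_single_of_mem ⟨v, hv⟩ (Finset.mem_univ _) fun b _ hb => by simp [hb]] at this
    simpa using this.symm
  · refine AddMonoidHom.ext fun y => ?_
    obtain ⟨w, rfl⟩ := YY_surj y
    rw [Phi_apply]
    exact Finset.sum_eq_zero fun v _ => (pl v.1).rho_PW P (h v v.2) (w v).2

lemma Phi_congr {α β : AS P A S} (h : ∀ v ∈ S, α.1 + β.1 ∈ (pl v).PW) :
    Phi P A S α = Phi P A S β := by
  have := (Phi_eq_zero (α := α + β)).2 h
  rw [map_add] at this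
  refine AddMonoidHom.ext fun y => ?_
  have := DFunLike.congr_fun this y
  simp only [AddMonoidHom.add_apply, AddMonoidHom.zero_apply] at this
  grind

lemma Phi_surj : Function.Surjective fun (a : ∀ v : S, (cmp v.1).AA P (A v.1)) =>
    ∑ v : S, (toDual ((pl v.1).pair P) ((cmp v.1).AA P (A v.1)) _ _ (fun _ hα _ hu _ =>
      Cmp.orth hα hu) (a v)).comp (Pi.evalAddMonoidHom (fun v : S => Log P ⧸
        ((cmp v.1).BB P (A v.1)).addSubgroupOf (Log P)) v) := by
  intro χ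
  choose a ha using fun v : S => dual_surj two_K ((pl v.1).pair P) (G₀ := (pl v.1).PW)
    ((cmp v.1).dual P (A v.1)).1 (fun _ hα _ hu _ => Cmp.orth hα hu)
    (fun _ _ hα => (pl v.1).PW_of_rho P hα) ((cmp v.1).dual P (A v.1)).2
    (χ.comp (AddMonoidHom.single (fun v : S => Log P ⧸
      ((cmp v.1).BB P (A v.1)).addSubgroupOf (Log P)) v))
  refine ⟨a, AddMonoidHom.ext fun y => ?_⟩
  simp only [ha, AddMonoidHom.finsetSum_apply, AddMonoidHom.comp_apply, Pi.evalAddMonoidHom_apply,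
    AddMonoidHom.single_apply]
  rw [← map_sum, Finset.univ_sum_single]

variable (P A S) in
/-- The diagonal map. -/
noncomputable def diag : LogS P S →+ YY P A S :=
  AddMonoidHom.pi fun _ => (QuotientAddGroup.mk' _).comp (AddSubgroup.inclusion inf_le_left)

namespace GoodOut

variable (h : GoodOut P A S)
include h

lemma mem_Lt {v : Pl k} (hv : v ∉ S) {α u : RatFunc k} (hα : α ∈ OS S) (hu : (α, u) ∈ Ht P)
    (hu' : u * (PX k).dlg P.b ∈ OS S) : (α, u) ∈ (cmp v).Lt P (A v) :=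
  Cmp.good_mem_Lt (h.hA v hv) (h.hB v hv) (mem_OS.1 hα v hv) hu (mul_dlg_mem.1 (by
    rw [eD_of_not_mem h.inf hv]; exact mem_OS.1 hu' v hv))

lemma mem_OS {α u : RatFunc k} (hα : α ∈ OS S) (hu : ∀ v ∉ S, (α, u) ∈ (cmp v).Lt P (A v)) :
    u * (PX k).dlg P.b ∈ OS S := Two.mem_OS.2 fun v hv => by
  have := mul_dlg_mem.2 (Cmp.good_Lt (h.hA v hv) (h.hB v hv) (hu v hv) (Two.mem_OS.1 hα v hv))
  rwa [eD_of_not_mem h.inf hv] at this

lemma card_diag : Nat.card (diag P A S).range * Nat.card (SelF P A) * 2 = 2 ^ S.card := by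
  have e : SelF P A = (diag P A S).ker.map (LogS P S).subtype := by
    ext u
    simp only [SelF, AddSubgroup.mem_iInf]
    refine ⟨fun hu => ⟨⟨u, Cmp.BB_le_Log (hu none), h.mem_OS (zero_mem _) fun v _ => hu v⟩,
      funext fun v => (QuotientAddGroup.eq_zero_iff _).2 (hu v), rfl⟩, ?_⟩
    rintro ⟨u, hu, rfl⟩ v
    by_cases hv : v ∈ S
    · have := (QuotientAddGroup.eq_zero_iff _).1 (congrFun hu ⟨v, hv⟩)
      exact this
    · exact h.mem_Lt hv (zero_mem _) (mem_Log'.1 u.2.1) u.2.2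
  rw [← card_LogS (P := P) h.inf, ← AddSubgroup.index_ker, ← (diag P A S).ker.index_mul_card, e,
    AddSubgroup.card_map_of_injective (LogS P S).subtype_injective]

lemma map_Phi : ((OS S).addSubgroupOf (AS P A S)).map (Phi P A S) = ann (diag P A S).range := by
  refine le_antisymm ?_ fun χ hχ => ?_
  · rintro _ ⟨α, hα, rfl⟩ _ ⟨u, rfl⟩
    refine (Phi_apply α fun _ => ⟨u, u.2.1⟩).trans ?_
    rw [Finset.sum_coe_sort S fun v => (pl v).rho P (α * u)]
    simp only [rho_eq, mul_assoc]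
    exact res_OS h.inf (OS_mul hα u.2.2)
  · obtain ⟨a, rfl⟩ := Phi_surj χ
    obtain ⟨α, h1, h2⟩ := exists_global (P := P) h.inf
      (fun v => if hv : v ∈ S then a ⟨v, hv⟩ else 0) fun u hu => by
        have := hχ _ ⟨⟨u, hu⟩, rfl⟩
        rw [← Finset.sum_coe_sort S, ← this, AddMonoidHom.finsetSum_apply]
        exact Finset.sum_congr rfl fun v _ => by rw [dif_pos v.2]; rfl
    have h3 : ∀ v : S, α + a v ∈ (pl v.1).PW := fun v => by simpa using h2 v v.2
    refine ⟨⟨α, mem_AS.2 fun v hv => ?_⟩, h1, ?_⟩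
    · simpa [add_assoc, two_K] using add_mem (Cmp.PW_le_AA (h3 ⟨v, hv⟩)) (a ⟨v, hv⟩).2
    · refine AddMonoidHom.ext fun y => ?_
      obtain ⟨w, rfl⟩ := YY_surj y
      rw [Phi_apply, AddMonoidHom.finsetSum_apply]
      refine Finset.sum_congr rfl fun v _ => ?_
      have := (pl v.1).rho_PW P (h3 v) (w v).2
      rw [add_mul, map_add] at this
      change _ = (pl v.1).rho P (a v * w v)
      grind

lemma exists_norm {s : RatFunc k} (hs : s ∈ Sel P A) : ∃ c, P.b * s ^ 2 + wp c ∈ OS S :=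
  exists_OS fun v hv => Cmp.good_AA (h.hA v hv) (h.hB v hv)
    (Cmp.AA_of_Lt (Cmp.bsq_mem_Lt.2 (mem_Sel.1 hs v)))

end GoodOut

variable (P A S) in
/-- The function attached to a Selmer element. -/
noncomputable def bS : Sel P A →+ AS P A S :=
  ((bsq P).comp (Sel P A).subtype).codRestrict _ fun s =>
    mem_AS.2 fun v _ => Cmp.AA_of_Lt (Cmp.bsq_mem_Lt.2 (mem_Sel.1 s.2 v))

variable (P A S) in
/-- The character attached to a Selmer element. -/
noncomputable def Psi : Sel P A →+ YY P A S →+ ZMod 2 := (Phi P A S).comp (bS P A S)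

lemma GoodOut.card_SelF (h : GoodOut P A S) :
    Nat.card (SelF P A) = Nat.card (Psi P A S).ker * 2 := by
  have h1 : ∀ u ∈ SelF P A, wp u = P.b * P.c1 u ^ 2 := fun u hu => by
    have := P.eq_b_sq (mem_Ht.1 (Cmp.Lt_le_Ht (AddSubgroup.mem_iInf.1 hu none)))
    rwa [zero_add, PB.c1_wp] at this
  have e1 : (SelF P A).map P.c1h = (Psi P A S).ker.map (Sel P A).subtype := by
    refine le_antisymm ?_ ?_
    · rintro _ ⟨u, hu, rfl⟩
      have h2 : P.c1 u ∈ Sel P A := mem_Sel.2 fun v => by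
        simpa [cls_apply, PB.c1_wp] using (Cmp.mem_Lt.1 (AddSubgroup.mem_iInf.1 hu v)).2
      refine ⟨⟨_, h2⟩, (Phi_eq_zero (α := bS P A S ⟨_, h2⟩)).2 fun v _ => ?_, rfl⟩
      change P.b * P.c1 u ^ 2 ∈ _
      rw [← h1 u hu]
      exact (pl v).wp_mem_PW u
    · rintro _ ⟨s, hs, rfl⟩
      obtain ⟨c, hc⟩ := h.exists_norm s.2
      obtain ⟨c', hc'⟩ := eq_wp_of_PW h.inf hc fun v hv =>
        add_mem ((Phi_eq_zero (α := bS P A S s)).1 hs v hv) ((pl v).wp_mem_PW c)
      have e : wp (c + c') = P.b * s.1 ^ 2 := by rw [wp_add]; grind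
      refine ⟨c + c', AddSubgroup.mem_iInf.2 fun v => Cmp.mem_Lt.2 ⟨by simp [mem_Ht, e], ?_⟩, ?_⟩
      · simpa [cls_apply, e] using mem_Sel.1 s.2 v
      · change P.c1 (c + c') = s
        rw [← PB.c1_wp, e, PB.c1_b_sq]
  have e2 : Nat.card (P.c1h.ker.addSubgroupOf (SelF P A)) = 2 := by
    rw [← AddSubgroup.card_map_of_injective (SelF P A).subtype_injective, ← SetLike.coe_sort_coe,
      Nat.card_coe_set_eq]
    refine (congrArg Set.ncard (Set.ext fun u => ?_)).trans (Set.ncard_pair zero_ne_one)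
    refine ⟨?_, ?_⟩
    · rintro ⟨u, hu, rfl⟩
      have hu' : P.c1 u = 0 := hu
      exact wp_eq_zero.1 (by simpa [hu'] using h1 u u.2)
    · rintro (rfl | rfl)
      · exact zero_mem _
      · exact ⟨⟨1, AddSubgroup.mem_iInf.2 fun v => Cmp.one_mem_BB⟩, P.c1_one, rfl⟩
  rw [← (P.c1h.ker.addSubgroupOf (SelF P A)).index_mul_card, e2, ← AddSubgroup.relIndex,
    AddSubgroup.relIndex_ker, e1, AddSubgroup.card_map_of_injective (Sel P A).subtype_injective]

variable (P A S) in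
/-- Functions with a global form and local forms. -/
noncomputable def GG : AddSubgroup (RatFunc k × RatFunc k × (S → RatFunc k)) where
  carrier := {g | g.1 ∈ OS S ∧ (g.1, g.2.1) ∈ Ht P ∧ g.2.1 * (PX k).dlg P.b ∈ OS S ∧
    ∀ v : S, (g.1, g.2.2 v) ∈ (cmp v.1).Lt P (A v.1)}
  zero_mem' := ⟨zero_mem _, zero_mem _, by simp, fun _ => zero_mem _⟩
  add_mem' ha hb := ⟨add_mem ha.1 hb.1, add_mem ha.2.1 hb.2.1, by
    simpa [add_mul] using add_mem ha.2.2.1 hb.2.2.1, fun v => add_mem (ha.2.2.2 v) (hb.2.2.2 v)⟩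
  neg_mem' ha := ⟨neg_mem ha.1, neg_mem ha.2.1, by simpa using ha.2.2.1, fun v => neg_mem (ha.2.2.2 v)⟩

lemma GoodOut.card_ann (h : GoodOut P A S) :
    ∃ i, Nat.card (ann (diag P A S).range) = Nat.card (Psi P A S).range * 4 ^ i := by
  let p0 : GG P A S →+ AS P A S := ((AddMonoidHom.fst _ _).comp (GG P A S).subtype).codRestrict _
    fun g => mem_AS.2 fun v hv => Cmp.AA_of_Lt (g.2.2.2.2 ⟨v, hv⟩)
  let p1 := (Phi P A S).comp p0
  let w : GG P A S → S → Log P := fun g v =>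
    ⟨g.1.2.1 + g.1.2.2 v, sub_mem_Log g.2.2.1 (Cmp.Lt_le_Ht (g.2.2.2.2 v))⟩
  let p2 : GG P A S →+ YY P A S := AddMonoidHom.mk' (fun g v => QuotientAddGroup.mk (w g v))
    fun a b => funext fun v => by
      rw [Pi.add_apply, ← QuotientAddGroup.mk_add]
      exact congrArg _ (Subtype.ext (add_add_add_comm _ _ _ _))
  let ψ : GG P A S →+ GG P A S →+ ZMod 2 := p1.flip.comp p2
  have hψ : ∀ a b, ψ a b = ∑ v : S, (pl v.1).rho P (b.1.1 * (a.1.2.1 + a.1.2.2 v)) := fun a b =>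
    Phi_apply _ _
  have alt : ∀ g, ψ g g = 0 := by
    rintro ⟨⟨α, u, c⟩, h1, h2, h3, h4⟩
    have e := P.eq_b_sq (mem_Ht.1 h2)
    generalize P.c1 (α + wp u) = s at e
    have h5 : ∀ v, (α, u) ∈ (cmp v).Lt P (A v) → (pl v).rho P (P.b * s ^ 2 * P.dl s) = 0 := fun v hv => by
      simpa using Cmp.alt (u := 0) (s := s)
        (by simpa [e, two_K] using add_mem hv (Cmp.wp_mem_Lt (C := cmp v) u))
    rw [hψ, ← sum_rho S fun v hv => h5 v (h.mem_Lt hv h1 h2 h3), ← Finset.sum_coe_sort S]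
    refine Finset.sum_congr rfl fun v _ => ?_
    have h6 := Cmp.alt (u := c v + u) (s := s)
      (by simpa [e] using add_mem (h4 v) (Cmp.wp_mem_Lt (C := cmp v.1) u))
    have h7 := rho_wp_Log ((pl v.1).rho_c0 P) u (sub_mem_Log (Cmp.Lt_le_Ht (h4 v)) h2)
    rw [mul_add, map_add, ← e, add_mul, map_add, h7, e] at h6
    rw [add_comm u]
    grind
  have e1 : p1.range = ann (diag P A S).range := by
    rw [← h.map_Phi]
    refine le_antisymm ?_ ?_
    · rintro _ ⟨g, rfl⟩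
      exact ⟨p0 g, g.2.1, rfl⟩
    · rintro _ ⟨α, hα, rfl⟩
      obtain ⟨u, h1, h2⟩ := exists_Ht h.inf h.hB hα fun v hv => by
        simpa using Cmp.orth (mem_AS.1 α.2 v hv) Cmp.one_mem_BB
      choose c hc using fun v : S => Cmp.lift (mem_AS.1 α.2 v v.2) h1
      exact ⟨⟨⟨α, u, c⟩, hα, h1, h2, hc⟩, rfl⟩
  have e2 : ∀ g, g ∈ rad ψ ⊤ ↔ p2 g ∈ (diag P A S).range := fun g => by
    refine ⟨fun hg => ?_, fun hg => ⟨trivial, fun b _ => ?_⟩⟩
    swap
    · have hb : p1 b ∈ ann (diag P A S).range := e1.le ⟨b, rfl⟩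
      have hb' : p1 b (p2 g) = 0 := hb _ hg
      exact hb'
    by_contra hn
    obtain ⟨χ, h1, h2⟩ := exists_sep_hom (V := YY P A S) (fun y => YY_two y) _ hn
    obtain ⟨b, rfl⟩ := e1.ge h2
    exact h1 (hg.2 b trivial)
  have e3 : (rad ψ ⊤).map p1 = (Psi P A S).range := by
    refine le_antisymm ?_ ?_
    · rintro _ ⟨⟨⟨α, u, c⟩, h1, h2, h3, h4⟩, hg, rfl⟩
      obtain ⟨u', hu'⟩ := (e2 _).1 hg
      have h5 : ∀ v, (α, u + u') ∈ (cmp v).Lt P (A v) := fun v => by
        by_cases hv : v ∈ S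
        · have h6 : u'.1 - (u + c ⟨v, hv⟩) ∈ (cmp v).BB P (A v) := by
            have := QuotientAddGroup.eq_iff_sub_mem.1 (congrFun hu' ⟨v, hv⟩)
            exact this
          convert Cmp.add_mem_Lt (h4 ⟨v, hv⟩) h6 using 2
          grind
        · exact h.mem_Lt hv h1 (by simpa using add_mem h2 (mem_Log'.1 u'.2.1))
            (by rw [add_mul]; exact add_mem h3 u'.2.2)
      have h7 : cls P (α, u + u') ∈ Sel P A := mem_Sel.2 fun v => (Cmp.mem_Lt.1 (h5 v)).2
      refine ⟨⟨_, h7⟩, Phi_congr (α := bS P A S ⟨_, h7⟩) (β := p0 ⟨_, h1, h2, h3, h4⟩)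
        fun v _ => ?_⟩
      change P.b * P.c1 (α + wp (u + u')) ^ 2 + α ∈ _
      rw [← P.eq_b_sq (mem_Ht.1 (Cmp.Lt_le_Ht (h5 v))), add_right_comm, two_K, zero_add]
      exact (pl v).wp_mem_PW _
    · rintro _ ⟨s, rfl⟩
      obtain ⟨c, hc⟩ := h.exists_norm s.2
      have h5 : ∀ v, (P.b * s.1 ^ 2 + wp c, c) ∈ (cmp v).Lt P (A v) := fun v => by
        simpa using add_mem (Cmp.bsq_mem_Lt.2 (mem_Sel.1 s.2 v)) (Cmp.wp_mem_Lt (C := cmp v) c)
      refine ⟨⟨⟨_, c, fun _ => c⟩, hc, Cmp.Lt_le_Ht (h5 none), h.mem_OS hc fun v _ => h5 v,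
        fun v => h5 v⟩, (e2 _).2 ⟨0, ?_⟩, Phi_congr (α := p0 _) (β := bS P A S s) fun v _ => ?_⟩
      · rw [map_zero]
        exact funext fun v => ((QuotientAddGroup.eq_zero_iff _).2 (by
          change c + c ∈ (cmp v.1).BB P (A v.1)
          simp [two_K])).symm
      · change P.b * s.1 ^ 2 + wp c + P.b * s.1 ^ 2 ∈ _
        rw [add_right_comm, two_K, zero_add]
        exact (pl v).wp_mem_PW _
  have e4 : p1.ker ≤ rad ψ ⊤ := fun g hg => ⟨trivial, fun b _ => by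
    have h1 := alt (g + b)
    have h2 : ψ b g = 0 := DFunLike.congr_fun (AddMonoidHom.mem_ker.1 hg) _
    simpa [alt, h2] using h1⟩
  have e5 := AddSubgroup.relIndex_mul_relIndex _ _ _ e4 le_top
  rw [AddSubgroup.relIndex_ker, AddSubgroup.relIndex_ker, e3, ← AddMonoidHom.range_eq_map, e1] at e5
  have : Finite (YY P A S →+ ZMod 2) := DFunLike.finite _
  obtain ⟨i, hi⟩ := relIndex_alt ψ alt ⊤ (right_ne_zero_of_mul (e5 ▸ Nat.card_pos.ne'))
  exact ⟨i, by rw [← e5, hi]⟩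

theorem GoodOut.sel_formula (h : GoodOut P A S) : ∃ i j, Nat.card (Sel P A) * 4 ^ i * 2 ^ S.card =
    4 ^ j * ∏ v ∈ S, (pl v).PW.relIndex ((cmp v).AA P (A v)) := by
  obtain ⟨i, e1⟩ := h.card_ann
  have e2 := h.card_SelF
  have e3 := h.card_diag
  have e4 := Two.card_ann (V := YY P A S) (fun y => YY_two y) (diag P A S).range
  have e5 := (Psi P A S).ker.index_mul_card
  rw [AddSubgroup.index_ker] at e5
  have e6 : Nat.card (YY P A S) = ∏ v ∈ S, (pl v).PW.relIndex ((cmp v).AA P (A v)) := by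
    rw [Nat.card_pi, ← Finset.prod_coe_sort S]
    exact Finset.prod_congr rfl fun v _ => ((cmp v.1).relIndex_eq P (A v.1)).symm
  obtain ⟨j, -, hj⟩ := (Nat.dvd_prime_pow Nat.prime_two).1
    (show Nat.card (SelF P A) ∣ 2 ^ S.card from ⟨Nat.card (diag P A S).range * 2, by rw [← e3]; ring⟩)
  refine ⟨i, j, ?_⟩
  rw [← e6, ← e4, e1, ← e3, ← e5, show 4 ^ j = Nat.card (SelF P A) * Nat.card (SelF P A) by
    rw [hj, ← mul_pow]; rfl, e2]
  ring

end Pool.Agent.Lib.MP_a3f657_nt.Two.Vir
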