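import Pool.Agent.Lib.MP_a3f657_nt.C2Defs

/-!
Wildly ramified quadratic twists of good ordinary reduction (definition).
-/

namespace Pool.Agent.Lib.MP_a3f657_nt.Two

open scoped Polynomial

/-- For each place `v` of `R` the curve has an equation `y ^ 2 + x y = x ^ 3 + A x ^ 2 + B` where
`A` has a simple pole at `v` and `B` is a unit at `v`. -/
def Wild {k : Type} [Field k] (R : Finset (IsDedekindDomain.HeightOneSpectrum k[X]))
    (W : WeierstrassCurve (RatFunc k)) : Prop :=
  ∀ v ∈ R, ∃ (C : WeierstrassCurve.VariableChange (RatFunc k)) (A B : RatFunc k),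
    C • W = ⟨1, A, 0, 0, B⟩ ∧ v.valuation (RatFunc k) A = WithZero.exp 1 ∧
      v.valuation (RatFunc k) B = 1

end Pool.Agent.Lib.MP_a3f657_nt.Two
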