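import Pool.Agent.Lib.MP_a3f657_nt.PR.Dens
import Pool.Agent.Lib.MP_a3f657_nt.PR.WDefs

/-!
The law of the 2-Selmer rank in the wild families.
-/

set_option linter.unusedSectionVars false
set_option maxHeartbeats 400000

namespace Pool.Agent.Lib.MP_a3f657_nt.Two.Vir

open Polynomial IsDedekindDomain WeierstrassCurve Bad Avg Filter WithZero

open scoped Classical

section K

variable {K : Type} [Field K] [CharP K 2] {W : WeierstrassCurve K}

lemma nB_EW (A B : K) : nB (EW A B) = B := by rw [nB, disc_eq]; simp [EW]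

lemma exists_EW (h : W.a₁ ≠ 0) (c : K) : ∃ C : VariableChange K,
    C • W = EW (nA W + wp c) (nB W) := by
  let C : VariableChange K := ⟨Units.mk0 _ h, W.a₃ / W.a₁, c * W.a₁,
    (W.a₄ + (W.a₃ / W.a₁) ^ 2) / W.a₁⟩
  have h1 : (C • W).a₁ = 1 := by simp [C, variableChange_a₁, CharTwo.two_eq_zero, h]
  have h3 : (C • W).a₃ = 0 := by
    simp only [C, variableChange_a₃, div_mul_cancel₀ _ h, two_K, CharTwo.two_eq_zero]
    simp
  have h4 : (C • W).a₄ = 0 := by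
    simp only [C, variableChange_a₄]
    refine mul_eq_zero_of_right _ ?_
    field_simp
    grind
  obtain ⟨-, h5, h6⟩ := nA_smul h C
  refine ⟨C, ?_⟩
  rw [show C.s / W.a₁ = c from mul_div_cancel_right₀ _ h] at h6
  rw [← h5, ← h6, nB, disc_eq, nA, h1, h3, h4]
  ext <;> simp [EW, h1, h3, h4]

end K

variable {k : Type} [Field k] [Fintype k] [CharP k 2] {R : Finset (HeightOneSpectrum k[X])}
  {u : HeightOneSpectrum k[X]} {d : ℕ} {W : WeierstrassCurve (RatFunc k)}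
  {a : WeierstrassCurve k[X]} {y : RatFunc k}

variable (R) in
/-- The wild condition in terms of the invariants. -/
def WL (W : WeierstrassCurve (RatFunc k)) : Prop := ∀ u ∈ R, W.a₁ ≠ 0 ∧
  ord (val (some u)) (nB W) = 0 ∧ ∃ c, ord (val (some u)) (nA W + wp c) = -1

lemma WL.smul (h : WL R W) (C : VariableChange (RatFunc k)) : WL R (C • W) := fun u hu => by
  obtain ⟨h1, h2, c, h3⟩ := h u hu
  obtain ⟨h4, h5, h6⟩ := nA_smul h1 C
  exact ⟨h4, h5 ▸ h2, C.s / W.a₁ + c, by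
    rwa [h6, wp_add, add_assoc, ← add_assoc (wp _), two_K, zero_add]⟩

lemma val_eq {x : RatFunc k} (hx : x ≠ 0) : u.valuation (RatFunc k) x = exp (-ord (val (some u)) x) := by
  rw [ord, neg_neg, val, exp_log ((Valuation.ne_zero_iff _).2 hx)]

lemma wild_iff (hΔ : W.Δ ≠ 0) : Wild R W ↔ WL R W := by
  refine forall₂_congr fun u _ => ⟨fun ⟨C, A, B, h1, h2, h3⟩ => ?_, fun ⟨h1, h2, c, h3⟩ => ?_⟩
  · have h4 : WL {u} (EW A B) := fun w hw => by
      rw [Finset.mem_singleton.1 hw, nB_EW, nA_EW]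
      exact ⟨one_ne_zero, by simp [ord, val, h3], 0, by simp [ord, val, h2]⟩
    have h5 := h4.smul C⁻¹ u (by simp)
    rwa [EW, ← h1, inv_smul_smul] at h5
  · obtain ⟨C, h4⟩ := exists_EW h1 c
    refine ⟨C, _, _, h4, ?_, ?_⟩
    · rw [val_eq fun e => by simp [e] at h3, h3, neg_neg]
    · rw [val_eq (x := nB W) (div_ne_zero hΔ (pow_ne_zero _ h1)), h2, neg_zero, exp_zero]

lemma WL.dvd (h : WL R (bc a)) (hΔ : a.Δ ≠ 0) (hu : u ∈ R) : gen u ∣ a.a₁ ∧ gen u ∣ a.a₃ := by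
  obtain ⟨h1, h2, c, h3⟩ := h u hu
  have h4 : gen u ∣ a.a₁ := by_contra fun e =>
    not_int h3 c (by simpa [add_assoc, two_K] using nA_int e)
  have h0 : a.a₁ ≠ 0 := fun e => h1 (by simp [baseChange, e])
  have h5 := (mem_Fil_iff (ι_ne h0)).1 (ι_mem_one.2 h4)
  rw [nB_bc, ord_div (ι_ne hΔ) (ι_ne (pow_ne_zero _ h0)), ord_ι_pow] at h2
  have h6 : gen u ∣ a.Δ := ι_mem_one.1 (mem_Fil_of_le (by omega))
  rw [disc] at h6
  exact ⟨h4, (gen_prime u).dvd_of_dvd_pow ((dvd_add_right ((h4.pow four_ne_zero).mul_right _)).1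
    ((dvd_add_left ((h4.pow three_ne_zero).mul_right _)).1 h6))⟩

lemma prod_dvd {f : k[X]} (h : ∀ u ∈ R, gen u ∣ f) : ∏ u ∈ R, gen u ∣ f :=
  Finset.prod_dvd_of_coprime (fun _ _ _ _ e => (gen_irr _).coprime_iff_not_dvd.2
    fun e' => e (gen_dvd_gen e')) h

lemma tw_tuple (ha : DegLE a d) (h : ∀ u ∈ R, gen u ∣ a.a₁ ∧ gen u ∣ a.a₃) (hy : y ∈ Gam R) :
    ∃ a' : WeierstrassCurve k[X], DegLE a' d ∧ a'.a₁ = a.a₁ ∧ tw y (bc a) = bc a' := by
  obtain ⟨g, h1, rfl⟩ := Gam_rep hy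
  have h0 := prod_ne R
  have h2 := prod_dvd fun u hu => (h u hu).1
  have h3 := prod_dvd fun u hu => (h u hu).2
  generalize ∏ u ∈ R, gen u = N at *
  have key : ∀ f : k[X], N ∣ f → ∃ w : k[X], w.natDegree ≤ 2 * f.natDegree ∧
      ι g / ι N * ι f ^ 2 = ι w := by
    rintro _ ⟨b, rfl⟩
    refine ⟨g * N * b ^ 2, ?_, by
      have := ι_ne h0
      simp only [ι, map_mul, map_pow] at *
      field_simp⟩
    rcases eq_or_ne b 0 with rfl | hb
    · simp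
    have h4 : g.natDegree ≤ N.natDegree := by
      rcases mem_PL_iff.1 h1 with rfl | e
      exacts [by simp, e.le]
    have h5 := natDegree_mul_le (p := g * N) (q := b ^ 2)
    have h6 := natDegree_mul_le (p := g) (q := N)
    rw [natDegree_mul h0 hb, natDegree_pow] at *
    omega
  obtain ⟨w₁, e1, e2⟩ := key _ h2
  obtain ⟨w₃, e3, e4⟩ := key _ h3
  obtain ⟨d1, d2, d3, d4, d6⟩ := ha
  refine ⟨⟨a.a₁, a.a₂ + w₁, a.a₃, a.a₄, a.a₆ + w₃⟩, ⟨d1, natDegree_add_le_of_degree_le d2 (by omega),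
    d3, d4, natDegree_add_le_of_degree_le d6 (by omega)⟩, rfl, ?_⟩
  ext <;> simp [tw, baseChange, ← e2, ← e4, ι]

lemma drop (ha : DegLE a d) (hΔ : a.Δ ≠ 0) (h1 : gen u ∣ a.a₁) (h : GO {u} (bc a)) :
    ∃ (a' : WeierstrassCurve k[X]) (C : VariableChange (RatFunc k)),
      DegLE a' (d - (gen u).natDegree) ∧ C • bc a = bc a' ∧ a.a₁ = gen u * a'.a₁ := by
  obtain ⟨h2, h3, c, h4⟩ := h u (by simp)
  obtain ⟨C, h5⟩ := exists_EW h2 c
  have h6 : (C.u : RatFunc k) = ι a.a₁ := by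
    have := congrArg WeierstrassCurve.a₁ h5
    rw [variableChange_a₁, CharTwo.two_eq_zero, zero_mul, add_zero, Units.inv_mul_eq_iff_eq_mul,
      EW, mul_one] at this
    exact this.symm
  obtain ⟨p, -, e1, e2⟩ := exists_gen u
  have e3 : ∀ n q, p ^ n ∣ q ↔ gen u ^ n ∣ q := fun n q => by
    rw [← e1, ← ι_mem_some, mem_Fil, B, ← exp_nsmul, smul_neg, nsmul_one]; rfl
  have e4 : p.natDegree ≤ (gen u).natDegree :=
    natDegree_le_of_dvd (by simpa using (e3 1 (gen u)).2 (by simp)) (gen_ne u)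
  have e5 : ∀ n x, x ∈ Fil (val (some u)) 0 → B (u.valuation (RatFunc k)) 1 n x := fun n x hx => by
    simpa [B, mem_Fil, val] using hx
  have h7 : Bdd (u.valuation (RatFunc k)) (exp (-1)) (trn C.r C.s C.t (bc a)) := by
    have e6 : Bdd (u.valuation (RatFunc k)) 1 (EW (nA (bc a) + wp c) (nB (bc a))) :=
      ⟨e5 _ _ (Fil.one le_rfl), e5 _ _ h4, e5 _ _ (zero_mem _), e5 _ _ (zero_mem _),
        e5 _ _ (mem_Fil_of_le h3.ge)⟩
    rw [(smul_eq_iff _ _ _).1 h5]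
    refine (e6.sc _).mono ?_
    rw [mul_one, h6]
    exact ι_mem_one.2 h1
  have h8 : (gen u).natDegree ≤ d := by
    have h9 := h7.Δ
    rw [tr_Δ, bc, baseChange, map_Δ, e1, e3] at h9
    have := (natDegree_le_of_dvd h9 hΔ).trans ha.Δ
    rw [natDegree_pow] at this
    omega
  obtain ⟨r, s, t, hr, hs, ht, h9⟩ := (bdd_adic u a).approx (exp_le_exp.2 (by norm_num)) h7
    (algebraMap k[X] (RatFunc k)) (fun n q => q.natDegree ≤ n * p.natDegree) e2
  rw [baseChange, ← tr_map] at h9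
  obtain ⟨d1, d2, d3, d4, d6⟩ := ha.tr (r := r) (s := s) (t := t) (by omega) (by omega) (by omega)
  obtain ⟨c₁, e₁⟩ : gen u ∣ (trn r s t a).a₁ := by simpa using (e3 _ _).1 ((e1 _ _).1 h9.h₁)
  obtain ⟨c₂, e₂⟩ := (e3 _ _).1 ((e1 _ _).1 h9.h₂)
  obtain ⟨c₃, e₃⟩ := (e3 _ _).1 ((e1 _ _).1 h9.h₃)
  obtain ⟨c₄, e₄⟩ := (e3 _ _).1 ((e1 _ _).1 h9.h₄)
  obtain ⟨c₆, e₆⟩ := (e3 _ _).1 ((e1 _ _).1 h9.h₆)
  obtain ⟨C', hC⟩ := smul_of_tr (a' := ⟨c₁, c₂, c₃, c₄, c₆⟩) (gen_ne u)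
    (WeierstrassCurve.ext e₁ e₂ e₃ e₄ e₆ : trn r s t a = _)
  have key : ∀ (n : ℕ) (c : k[X]), (gen u ^ n * c).natDegree ≤ n * d →
      c.natDegree ≤ n * (d - (gen u).natDegree) := fun n c hc => by
    rcases eq_or_ne c 0 with rfl | h0
    · simp
    rw [natDegree_mul (pow_ne_zero _ (gen_ne u)) h0, natDegree_pow] at hc
    rw [Nat.mul_sub]
    omega
  exact ⟨_, C', ⟨by simpa using key 1 c₁ (by rwa [pow_one, one_mul, ← e₁]), key 2 _ (e₂ ▸ d2),
    key 3 _ (e₃ ▸ d3), key 4 _ (e₄ ▸ d4), key 6 _ (e₆ ▸ d6)⟩, hC, (tr_a₁ r s t a).symm.trans e₁⟩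

lemma smul_Δ (C : VariableChange (RatFunc k)) (h : W.Δ ≠ 0) : (C • W).Δ ≠ 0 := by
  rw [variableChange_Δ]
  exact mul_ne_zero (pow_ne_zero _ (Units.ne_zero _)) h

lemma drops (ha : DegLE a d) (hΔ : a.Δ ≠ 0) (h1 : ∀ u ∈ R, gen u ∣ a.a₁) (h : GO R (bc a)) :
    HeightLE (bc a) (d - (∏ u ∈ R, gen u).natDegree) := by
  induction R using Finset.induction_on generalizing a d with
  | empty => exact ⟨1, a, by simpa using ha, one_smul _ _⟩
  | insert u R hu ih =>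
    obtain ⟨a', C, h2, h3, h4⟩ := drop ha hΔ (h1 u (by simp))
      fun w hw => h w (by simp [Finset.mem_singleton.1 hw])
    have h5 := ih h2 (Exc.SumA.Δ_base.1 (show (bc a').Δ ≠ 0 from
      h3 ▸ smul_Δ C (Exc.SumA.Δ_base.2 hΔ)))
      (fun w hw => ((gen_prime w).dvd_or_dvd (h4 ▸ h1 w (by simp [hw]))).resolve_left
        fun e => hu ((gen_dvd_gen e : w = u) ▸ hw)) fun w hw => (h3 ▸ h.smul C) w (by simp [hw])
    rw [Finset.prod_insert hu, natDegree_mul (gen_ne u) (prod_ne R), Nat.sub_add_eq]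
    rwa [← h3, heightLE_smul] at h5

variable (R) in
/-- The twists that are ramified at all places of `R`. -/
noncomputable def GS : Finset (Gam R) :=
  Finset.univ.filter fun y => ∀ u ∈ R, y.1 ∉ Fil (val (some u)) 0

lemma nB_tw (y : RatFunc k) (W : WeierstrassCurve (RatFunc k)) : nB (tw y W) = nB W := by
  rw [nB, nB, tw_Δ]; rfl

lemma exists_GS (h : WL R W) : ∃ y ∈ GS R, GO R (tw y.1 W) := by
  have : Nonempty (RatFunc k) := ⟨0⟩
  choose! h1 h2 c h3 using h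
  have h4 := fun u hu => pp_mem_Gam (mem_Fil_of_le (h3 u hu).ge)
  have h5 : ∀ u ∈ R, nA W + ∑ w ∈ R, pp w (nA W + wp (c w)) + wp (c u) ∈ Fil (val (some u)) 0 :=
    fun u hu => by
      rw [← Finset.add_sum_erase _ _ hu, add_right_comm, ← add_assoc]
      exact add_mem (CharTwo.sub_eq_add (R := RatFunc k) _ _ ▸ pp_spec u _)
        (sum_mem fun w hw => pp_int (Finset.ne_of_mem_erase hw).symm _)
  refine ⟨⟨_, sum_mem fun u hu => Gam_le hu (h4 u hu)⟩, Finset.mem_filter.2 ⟨Finset.mem_univ _,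
    fun u hu e => not_int (h3 u hu) 0 ?_⟩, fun u hu => ⟨h1 u hu, nB_tw _ W ▸ h2 u hu, c u,
      nA_tw _ (h1 u hu) ▸ h5 u hu⟩⟩
  convert add_mem (h5 u hu) e using 1
  rw [wp_zero]
  grind

lemma GO.tw (h : GO R W) {y : Gam R} (hy : y ∈ GS R) : WL R (tw y.1 W) := fun u hu => by
  obtain ⟨h1, h2, c, h3⟩ := h u hu
  obtain ⟨h4, h5⟩ := ord_eq_of (Gam_neg y.2 (some u)) ((Finset.mem_filter.1 hy).2 u hu)
  refine ⟨h1, nB_tw _ W ▸ h2, c, ?_⟩
  rw [nA_tw _ h1, add_right_comm, add_comm, (ord_add h4 (by rwa [h5])).2, h5]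

lemma GO.eq (h : GO R W) (hy : y ∈ Gam R) (h' : GO R (Vir.tw y W)) : y = 0 :=
  Gam_zero hy fun u hu => by_contra fun e => by
    obtain ⟨h1, -, c, h3⟩ := h u hu
    obtain ⟨-, -, c', h4⟩ := h' u hu
    refine not_int (ord_eq_of (Gam_neg hy (some u)) e).2 (c + c') ?_
    rw [nA_tw _ h1] at h4
    convert add_mem h3 h4 using 1
    rw [wp_add]
    grind

lemma tw_add (x y : RatFunc k) (W : WeierstrassCurve (RatFunc k)) :
    tw x (tw y W) = tw (x + y) W := by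
  ext <;> simp only [tw] <;> ring

open Exc.SumA in
lemma num_wild {Q : WeierstrassCurve (RatFunc k) → Prop} (d : ℕ) :
    num (fun W => Wild R W ∧ Q W) (d + (∏ u ∈ R, gen u).natDegree) =
      ∑ y ∈ GS R, num (fun W => GO R W ∧ Q (tw y.1 W)) d := by
  have h0 : ∀ y : RatFunc k, Function.Injective (twq y) := fun y =>
    Function.LeftInverse.injective (g := twq y) fun c => by
      induction c using Quotient.inductionOn' with
      | h W => rw [twq, Quotient.map'_mk'', Quotient.map'_mk'', tw_tw]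
  have h1 : Cl (fun W => Wild R W ∧ Q W) (d + (∏ u ∈ R, gen u).natDegree) =
      ⋃ y ∈ (GS R : Set (Gam R)), twq y.1 '' Cl (fun W => GO R W ∧ Q (tw y.1 W)) d := by
    refine Set.Subset.antisymm ?_ (Set.iUnion₂_subset fun y hy => ?_)
    · rintro _ ⟨W, rfl, h1, ⟨C, a, h2, h3⟩, h4, h5⟩
      rw [wild_iff h1] at h4
      obtain ⟨y, h6, h7⟩ := exists_GS h4
      refine Set.mem_biUnion h6 ⟨_, ⟨tw y.1 W, rfl, by rwa [tw_Δ], ?_, h7, by rwa [tw_tw]⟩,
        by rw [twq, Quotient.map'_mk'', tw_tw]⟩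
      have h8 : a.Δ ≠ 0 := Δ_base.1 (h3 ▸ smul_Δ C h1)
      have h9 := fun u hu => WL.dvd (u := u) (a := a) (h3 ▸ h4.smul C) h8 hu
      obtain ⟨a', e1, e2, e3⟩ := tw_tuple h2 h9 y.2
      have e4 : C • tw y.1 W = bc a' := by rw [tw_smul, h3, e3]
      have e5 := drops e1 (Δ_base.1 (show (bc a').Δ ≠ 0 from e4 ▸ smul_Δ C (by rwa [tw_Δ])))
        (fun u hu => e2 ▸ (h9 u hu).1)
        (e4 ▸ h7.smul C)
      rwa [Nat.add_sub_cancel, ← e4, heightLE_smul] at e5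
    · rintro _ ⟨_, ⟨W, rfl, h1, h2, h3, h4⟩, rfl⟩
      obtain ⟨g, h5, h6⟩ := Gam_rep y.2
      refine ⟨tw y.1 W, rfl, by rwa [tw_Δ], h6 ▸ height_tw h2 (prod_ne R) ?_,
        (wild_iff (by rwa [tw_Δ])).2 (h3.tw hy), h4⟩
      rcases mem_PL_iff.1 h5 with rfl | h7
      exacts [by simp, h7.le]
  refine (congrArg Set.ncard h1).trans ?_
  rw [(GS R).finite_toSet.ncard_biUnion (fun y _ => (Cl_fin _ _).image _) fun y _ y' _ hn => ?_,
    finsum_mem_coe_finset]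
  · exact Finset.sum_congr rfl fun y _ => Set.ncard_image_of_injective _ (h0 _)
  refine Set.disjoint_left.2 ?_
  rintro _ ⟨_, ⟨W, rfl, -, -, h3, -⟩, rfl⟩ ⟨_, ⟨W', rfl, -, -, h4, -⟩, e⟩
  obtain ⟨C, e'⟩ := MulAction.orbitRel_apply.1 (Quotient.exact' e)
  have h5 : W' = tw (y'.1 + y.1) (C • W) := by
    rw [← tw_add, ← tw_smul, show C • tw y.1 W = tw y'.1 W' from e', tw_tw]
  exact hn (Subtype.ext (CharTwo.add_eq_zero.1
    ((h3.smul C).eq (add_mem y'.2 y.2) (h5 ▸ h4))).symm)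

lemma card_GS {D : ℕ} (h : ∀ u ∈ R, D < (gen u).natDegree) :
    (Nat.card (Gam R) - (GS R).card : ℝ) * D ≤ R.card * Nat.card (Gam R) := by
  have h1 : ∀ u ∈ R, (Finset.univ.filter fun y : Gam R => y.1 ∈ Fil (val (some u)) 0).card * D ≤
      Nat.card (Gam R) := fun u hu => by
    refine (Nat.mul_le_mul_left _ ((h u hu).le.trans ((Nat.lt_pow_self Fintype.one_lt_card).le.trans
      (le_card_Gam u)))).trans ?_
    rw [← Nat.card_eq_finsetCard, ← Nat.card_prod]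
    refine Nat.card_le_card_of_injective (fun z => z.1.1 + ⟨z.2.1, Gam_le hu z.2.2⟩) fun z z' e => ?_
    have e1 : z.1.1.1 + z.2.1 = z'.1.1.1 + z'.2.1 := congrArg Subtype.val e
    have e2 : z.2.1 = z'.2.1 := CharTwo.add_eq_zero.1 (Gam_zero (add_mem z.2.2 z'.2.2) fun w hw => by
      rw [Finset.mem_singleton.1 hw, show z.2.1 + z'.2.1 = z.1.1.1 + z'.1.1.1 by grind]
      exact add_mem (Finset.mem_filter.1 z.1.2).2 (Finset.mem_filter.1 z'.1.2).2)
    exact Prod.ext (Subtype.ext (Subtype.ext (add_right_cancel (e2 ▸ e1)))) (Subtype.ext e2)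
  have h2 : Nat.card (Gam R) ≤ (GS R).card + ∑ u ∈ R,
      (Finset.univ.filter fun y : Gam R => y.1 ∈ Fil (val (some u)) 0).card := by
    rw [Nat.card_eq_fintype_card]
    refine le_trans (Finset.card_le_card fun y _ => ?_) ((Finset.card_union_le _ _).trans
      (add_le_add le_rfl Finset.card_biUnion_le))
    by_contra hn
    simp [GS] at hn
    obtain ⟨⟨u, h3, h4⟩, h5⟩ := hn
    exact h5 u h3 h4
  have h3 := (Nat.cast_le (α := ℝ)).2 (Finset.sum_le_card_nsmul _ _ _ h1)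
  have h4 := (Nat.cast_le (α := ℝ)).2 h2
  rw [← Finset.sum_mul, smul_eq_mul] at h3
  push_cast at h3 h4
  exact (mul_le_mul_of_nonneg_right (by linarith) (Nat.cast_nonneg _)).trans h3

open Exc.SumA in
lemma num_mono {P Q : WeierstrassCurve (RatFunc k) → Prop} (h : ∀ W, P W → Q W) (d : ℕ) :
    (num P d : ℝ) ≤ num Q d :=
  Nat.cast_le.2 (Set.ncard_le_ncard (fun _ ⟨W, h1, h2, h3, h4⟩ => ⟨W, h1, h2, h3, h W h4⟩)
    (Cl_fin Q d))

open Exc.SumA in
lemma num_split (P Q : WeierstrassCurve (RatFunc k) → Prop) (d : ℕ) :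
    (num Q d : ℝ) ≤ num (fun W => P W ∧ Q W) d + num (fun W => ¬ P W) d := by
  refine Nat.cast_add (R := ℝ) _ _ ▸ Nat.cast_le.2 (le_trans (Set.ncard_le_ncard ?_
    ((Cl_fin _ d).union (Cl_fin _ d))) (Set.ncard_union_le _ _))
  rintro _ ⟨W, rfl, e1, e2, e3⟩
  by_cases h : P W
  exacts [Or.inl ⟨W, rfl, e1, e2, h, e3⟩, Or.inr ⟨W, rfl, e1, e2, h⟩]

lemma alg {η ε n₀ n' N g b X Y L θ : ℝ} (h0 : 0 < η) (h1 : η ≤ 1 / 4) (h2 : η ≤ ε / 32)
    (hn0 : 1 ≤ n₀) (p1 : 0 < N) (h11 : n₀ - n' ≤ η * n₀) (h13 : b ≤ η * N) (h21 : N ≤ g + b)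
    (s1 : X ≤ Y) (s2 : Y ≤ X + n' * b + (n₀ - n') * N) (s3 : n' ≤ n₀) (s4 : g ≤ N)
    (l1 : 0 ≤ L ∧ L ≤ 1) (hθ : 0 ≤ θ ∧ θ ≤ 1) (h14 : -(n₀ * (6 * θ + η) * N) ≤ Y - N * (n₀ * L) ∧
      Y - N * (n₀ * L) ≤ n₀ * (6 * θ + η) * N) :
    N ≤ 2 * (n' * g) ∧ |X / (n' * g) - L| ≤ 6 * θ + ε := by
  have t0 : N ≤ n₀ * N := le_mul_of_one_le_left p1.le hn0
  have t1 : (1 - η) * N ≤ g := by linarith
  have t2 : (1 - η) * n₀ ≤ n' := by linarith
  have u1 : 0 ≤ (1 - η) * N := mul_nonneg (by linarith) p1.le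
  have u2 : 0 ≤ (1 - η) * n₀ := mul_nonneg (by linarith) (by linarith)
  have t3 : (1 - 2 * η) * (n₀ * N) ≤ n' * g := by
    have := mul_le_mul t2 t1 u1 (by linarith)
    linarith [mul_nonneg (mul_self_nonneg η) (p1.le.trans t0)]
  have t4 : n' * g ≤ n₀ * N := mul_le_mul s3 s4 (by linarith) (by linarith)
  have u3 : 1 / 2 * (n₀ * N) ≤ (1 - 2 * η) * (n₀ * N) :=
    mul_le_mul_of_nonneg_right (by linarith) (p1.le.trans t0)
  have t5 : 0 < n' * g := by linarith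
  refine ⟨by linarith, ?_⟩
  rw [div_sub' t5.ne', abs_div, abs_of_pos t5, div_le_iff₀ t5, abs_le]
  have t6 : n' * b ≤ η * (n₀ * N) := by
    linarith [mul_le_mul_of_nonneg_left h13 (u2.trans t2),
      mul_le_mul_of_nonneg_right s3 (mul_pos h0 p1).le]
  have t7 : (n₀ - n') * N ≤ η * (n₀ * N) := by linarith [mul_le_mul_of_nonneg_right h11 p1.le]
  have t8 : (6 * θ + 3 * η) * (n₀ * N) ≤ (6 * θ + ε) * (1 - 2 * η) * (n₀ * N) :=
    mul_le_mul_of_nonneg_right (by nlinarith) (p1.le.trans t0)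
  have t9 := mul_le_mul_of_nonneg_left t3 (show 0 ≤ 6 * θ + ε by linarith)
  have t10 := mul_le_mul_of_nonneg_left t4 l1.1
  have t11 := mul_le_mul_of_nonneg_right l1.2 (show 0 ≤ n₀ * N - n' * g by linarith)
  constructor <;> linarith

theorem wild_law (k : Type) [Field k] [Fintype k] [CharP k 2] (m : ℕ) {ε : ℝ} (hε : 0 < ε) :
    ∃ R₀ : Finset (HeightOneSpectrum k[X]), ∀ R : Finset (HeightOneSpectrum k[X]), R.card = m →
      Disjoint R R₀ → ∃ δ : ℝ, 0 < δ ∧ ∀ S : Set ℕ, ∀ᶠ d : ℕ in atTop, δ ≤ dens (Wild R) d ∧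
        |dens (fun W => Wild R W ∧ ∃ r ∈ S, selOrder W = 2 ^ r) d / dens (Wild R) d - lawS S| ≤
          6 * (3 / 4) ^ m + ε := by
  obtain ⟨η, h0, h1, h2⟩ : ∃ η : ℝ, 0 < η ∧ η ≤ 1 / 4 ∧ η ≤ ε / 32 :=
    ⟨min (1 / 4) (ε / 32), by positivity, min_le_left _ _, min_le_right _ _⟩
  obtain ⟨D, h3⟩ := dens_law k m h0
  obtain ⟨D', h4⟩ := exists_nat_gt (m / η)
  refine ⟨(SgT k (max D D')).eraseNone, fun R hR h5 => ?_⟩
  have h6 : ∀ u ∈ R, max D D' < (gen u).natDegree := fun u hu => not_le.1 fun e =>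
    Finset.disjoint_left.1 h5 hu (Finset.mem_eraseNone.2 (mem_SgT.2 e))
  obtain ⟨h7, h8⟩ := h3 R hR fun u hu => (le_max_left _ _).trans_lt (h6 u hu)
  have h9 := card_GS fun u hu => (le_max_right _ _).trans_lt (h6 u hu)
  have h10 := fun Q => num_wild (R := R) (Q := Q)
  generalize (∏ u ∈ R, gen u).natDegree = n at h10
  have hn0 : (1 : ℝ) ≤ Nat.card (Gam R) := Nat.one_le_cast.2 Nat.card_pos
  have hD : (0 : ℝ) < D' := lt_of_le_of_lt (by positivity) h4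
  have h11 : (Nat.card (Gam R) - (GS R).card : ℝ) ≤ η * Nat.card (Gam R) := by
    rw [div_lt_iff₀ h0] at h4
    refine le_of_mul_le_mul_right (h9.trans ?_) hD
    rw [hR]
    nlinarith
  have hq : (0 : ℝ) < Fintype.card k := q_pos
  refine ⟨1 / (32 * (Fintype.card k : ℝ) ^ (10 * n + 5)), by positivity, fun S => ?_⟩
  obtain ⟨d₀, h12⟩ := eventually_atTop.1 ((h7.and (h8 S)).and (eventually_ge_atTop 1))
  filter_upwards [eventually_ge_atTop (d₀ + n)] with e he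
  obtain ⟨d, rfl⟩ : ∃ d, e = d + n := ⟨e - n, by omega⟩
  obtain ⟨⟨h13, h14⟩, h15⟩ := h12 d (by omega)
  have h16 := num_true_ge (k := k) h15
  have h17 := num_true_ge (k := k) (d := d + n) (by omega)
  have h18 := (Nat.cast_le (α := ℝ)).2 (Exc.MB.num_true_le (k := k) (d + n))
  have h19 := congrArg (Nat.cast (R := ℝ)) (h10 (fun _ => True) d)
  have h20 := congrArg (Nat.cast (R := ℝ)) (h10 (fun W => ∃ r ∈ S, selOrder W = 2 ^ r) d)
  have h21 := num_split (GO R) (fun _ => True) d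
  simp only [and_true] at h19 h21
  rw [Finset.sum_const, smul_eq_mul] at h19
  push_cast at h18 h19 h20
  have pos : ∀ {x : ℝ} {m : ℕ}, (Fintype.card k : ℝ) ^ m ≤ 2 * (Fintype.card k : ℝ) ^ 3 * x →
      0 < x := fun h => (mul_pos_iff_of_pos_left (by positivity)).1 (lt_of_lt_of_le (by positivity) h)
  have p1 := pos h16
  have p2 := pos h17
  have l1 : 0 ≤ lawS S ∧ lawS S ≤ 1 := law_mem (ind_mem S)
  have hθ : (0 : ℝ) ≤ (3 / 4) ^ m ∧ (3 / 4 : ℝ) ^ m ≤ 1 :=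
    ⟨by positivity, pow_le_one₀ (by norm_num) (by norm_num)⟩
  have s1 : ∑ y ∈ GS R, (num (fun W => GO R W ∧ ∃ r ∈ S, selOrder (tw y.1 W) = 2 ^ r) d : ℝ) ≤
      ∑ y : Gam R, (num (fun W => ∃ r ∈ S, selOrder (tw y.1 W) = 2 ^ r) d : ℝ) :=
    (Finset.sum_le_sum fun y _ => num_mono (fun _ h => h.2) d).trans
      (Finset.sum_le_sum_of_subset_of_nonneg (Finset.subset_univ _) fun _ _ _ => Nat.cast_nonneg _)
  have s2 : ∑ y : Gam R, (num (fun W => ∃ r ∈ S, selOrder (tw y.1 W) = 2 ^ r) d : ℝ) ≤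
      ∑ y ∈ GS R, (num (fun W => GO R W ∧ ∃ r ∈ S, selOrder (tw y.1 W) = 2 ^ r) d : ℝ) +
        (GS R).card * num (fun W => ¬ GO R W) d +
          (Nat.card (Gam R) - (GS R).card) * num (k := k) (fun _ => True) d := by
    rw [← Finset.sum_add_sum_compl (GS R), ← nsmul_eq_mul, ← Finset.sum_const,
      ← Finset.sum_add_distrib]
    refine add_le_add (Finset.sum_le_sum fun y _ => num_split _ _ d)
      ((Finset.sum_le_card_nsmul _ _ _ fun y _ => num_mono (fun _ _ => trivial) d).trans_eq ?_)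
    rw [nsmul_eq_mul, Finset.card_compl, Nat.cast_sub (Finset.card_le_univ _),
      Nat.card_eq_fintype_card]
  have s3 : ((GS R).card : ℝ) ≤ Nat.card (Gam R) := by
    rw [Nat.card_eq_fintype_card]; exact_mod_cast Finset.card_le_univ _
  have s4 := num_mono (P := GO R) (fun _ _ => trivial) d
  simp only [dens] at h14 ⊢
  rw [← Finset.sum_div, div_sub' p1.ne', abs_div, abs_of_pos p1, div_le_iff₀ p1, abs_le] at h14
  rw [div_div_div_cancel_right₀ p2.ne', h20, show (num (Wild R) (d + n) : ℝ) = _ from h19]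
  obtain ⟨t1, t2⟩ := alg h0 h1 h2 hn0 p1 h11 h13 h21 s1 s2 s3 s4 l1 hθ h14
  refine ⟨?_, t2⟩
  rw [div_le_div_iff₀ (by positivity) p2, one_mul]
  refine h18.trans ?_
  generalize (Fintype.card k : ℝ) = q at h16 hq ⊢
  calc 8 * q ^ (10 * (d + n) + 2) = 8 * q ^ (10 * n + 2) * q ^ (10 * d) := by ring
    _ ≤ 8 * q ^ (10 * n + 2) * (2 * q ^ 3 * (2 * ((GS R).card * num (GO R) d))) :=
        mul_le_mul_of_nonneg_left (h16.trans (mul_le_mul_of_nonneg_left t1 (by positivity)))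
          (by positivity)
    _ = _ := by ring

end Pool.Agent.Lib.MP_a3f657_nt.Two.Vir
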